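import Pool.Agent.Work.MP_8aa36a_lc.Four.Vec

/-!
Faithful drawings of graphs with four colours that contain a prism and a complete quadrangle
give vector drawings.
-/

set_option autoImplicit false

namespace Pool.Agent.Work.MP_8aa36a_lc

open Pool.Agent.Work.MP_8c8e41_lc

/-- the frame subgraph: a complete graph on four vertices with colours `0, 1, 3`, and a prism with
triangle colours `0, 1, 2` and spokes of colour `3` -/
structure HasFrame (E : List CEdge) : Prop where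
  k4 : ∃ v1 v2 v3 v4 : ℕ, (v1 ≠ v2 ∧ v1 ≠ v3 ∧ v1 ≠ v4 ∧ v2 ≠ v3 ∧ v2 ≠ v4 ∧ v3 ≠ v4) ∧
    (∃ e ∈ E, EndOf v1 e ∧ EndOf v2 e ∧ e.2.2 = 0) ∧ (∃ e ∈ E, EndOf v3 e ∧ EndOf v4 e ∧ e.2.2 = 0) ∧
    (∃ e ∈ E, EndOf v1 e ∧ EndOf v3 e ∧ e.2.2 = 1) ∧ (∃ e ∈ E, EndOf v2 e ∧ EndOf v4 e ∧ e.2.2 = 1) ∧
    (∃ e ∈ E, EndOf v1 e ∧ EndOf v4 e ∧ e.2.2 = 3) ∧ (∃ e ∈ E, EndOf v2 e ∧ EndOf v3 e ∧ e.2.2 = 3)
  prism : ∃ a1 a2 a3 b1 b2 b3 : ℕ,
    (a1 ≠ a2 ∧ a1 ≠ a3 ∧ a1 ≠ b1 ∧ a1 ≠ b2 ∧ a1 ≠ b3 ∧ a2 ≠ a3 ∧ a2 ≠ b1 ∧ a2 ≠ b2 ∧ a2 ≠ b3 ∧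
      a3 ≠ b1 ∧ a3 ≠ b2 ∧ a3 ≠ b3 ∧ b1 ≠ b2 ∧ b1 ≠ b3 ∧ b2 ≠ b3) ∧
    (∃ e ∈ E, EndOf a1 e ∧ EndOf a2 e ∧ e.2.2 = 1) ∧ (∃ e ∈ E, EndOf b1 e ∧ EndOf b2 e ∧ e.2.2 = 1) ∧
    (∃ e ∈ E, EndOf a2 e ∧ EndOf a3 e ∧ e.2.2 = 2) ∧ (∃ e ∈ E, EndOf b2 e ∧ EndOf b3 e ∧ e.2.2 = 2) ∧
    (∃ e ∈ E, EndOf a1 e ∧ EndOf a3 e ∧ e.2.2 = 0) ∧ (∃ e ∈ E, EndOf b1 e ∧ EndOf b3 e ∧ e.2.2 = 0) ∧
    (∃ e ∈ E, EndOf a1 e ∧ EndOf b1 e ∧ e.2.2 = 3) ∧ (∃ e ∈ E, EndOf a2 e ∧ EndOf b2 e ∧ e.2.2 = 3) ∧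
    (∃ e ∈ E, EndOf a3 e ∧ EndOf b3 e ∧ e.2.2 = 3)

/-- Plücker relation -/
lemma plucker (a b c u v : V3) :
    det3 a c u * det3 a b v - det3 a c v * det3 a b u = - (det3 a u v * det3 a b c) := by
  simp only [det3]; ring

lemma indep_of_det12 {a b c : V3} (h : det3 a b c ≠ 0) : Indep a b := ⟨c, h⟩

lemma indep_of_det13 {a b c : V3} (h : det3 a b c ≠ 0) : Indep a c :=
  ⟨b, by rw [det3_swap23]; exact neg_ne_zero.mpr h⟩

lemma indep_of_det23 {a b c : V3} (h : det3 a b c ≠ 0) : Indep b c :=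
  ⟨a, by rw [det3_rot]; exact h⟩

theorem fdraw_to_vdraw {E : List CEdge} {M : ℕ} {p : ℕ → ℝ × ℝ} (hE : GoodG E M)
    (hF : HasFrame E) (h : FDraw E p) : ∃ g, VDraw E g := by
  have h1 := h.1
  have h3 := h.2.2
  choose Q hQ using h.2.1
  -- abbreviations
  let q : ℕ → V3 := fun n => lift (p n)
  let K : ℕ → V3 := fun c => lift (Q c)
  have hqdef : ∀ n, q n = lift (p n) := fun _ => rfl
  have hKdef : ∀ n, K n = lift (Q n) := fun _ => rfl
  -- different vertices are at different points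
  have vinj : ∀ e ∈ E, ∀ f ∈ E, ∀ u v, EndOf u e → EndOf v f → p u = p v → u = v := by
    intro e he f hf u v hu hv
    exact h1 e he f hf u v (by rcases hu with h | h <;> simp [h]) (by rcases hv with h | h <;> simp [h])
  -- two edges at a common vertex are not on a line
  have tri : ∀ e ∈ E, ∀ f ∈ E, ∀ x y z : ℕ, EndOf x e → EndOf y e → EndOf x f → EndOf z f →
      x ≠ y → x ≠ z → y ≠ z → det3 (q x) (q y) (q z) ≠ 0 := by
    intro e he f hf x y z hxe hye hxf hzf hxy hxz hyz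
    refine tri_ne h he hf (x := x) (y := y) (z := z) ?_ ?_ hxy hxz ?_
    · unfold EndOf at *; omega
    · unfold EndOf at *; omega
    · rintro rfl; unfold EndOf at *; omega
  have edet : ∀ e ∈ E, ∀ x y : ℕ, EndOf x e → EndOf y e → det3 (q x) (q y) (K e.2.2) = 0 := by
    intro e he x y hx hy
    have h0 := det_of_mem_line (hQ e.2.2 e he rfl)
    rw [← hqdef, ← hqdef, ← hKdef] at h0
    rcases hx with rfl | rfl <;> rcases hy with rfl | rfl
    · exact det3_self12 _ _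
    · exact h0
    · rw [det3_swap12, h0, neg_zero]
    · exact det3_self12 _ _
  have indq : ∀ e ∈ E, ∀ f ∈ E, ∀ x y : ℕ, EndOf x e → EndOf y f → x ≠ y → Indep (q x) (q y) := by
    intro e he f hf x y hx hy hxy
    have hp : p x ≠ p y := fun h0 => hxy (vinj e he f hf x y hx hy h0)
    by_contra hcon
    unfold Indep at hcon
    push Not at hcon
    apply hp
    have r1 := hcon (1, 0, 0)
    have r2 := hcon (0, 1, 0)
    simp only [q, det3, lift] at r1 r2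
    exact Prod.ext (by linarith) (by linarith)
  -- a vertex is different from the centres
  have vne : ∀ u < M, ∀ c < 4, p u ≠ Q c := by
    intro u hu c hc h0
    obtain ⟨d, hd, hdc⟩ : ∃ d < 4, d ≠ c := by
      by_cases h : c = 0
      · exact ⟨1, by norm_num, by omega⟩
      · exact ⟨0, by norm_num, by omega⟩
    obtain ⟨e, he, heu, hec⟩ := hE.has u hu d hd
    obtain ⟨e1, e2, e3, e4⟩ := hE.ends e he
    obtain ⟨w, hw, hwu, hwM⟩ : ∃ w, EndOf w e ∧ w ≠ u ∧ w < M := by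
      rcases heu with h | h
      · exact ⟨e.2.1, Or.inr rfl, by rw [← h]; exact e3.symm, e2⟩
      · exact ⟨e.1, Or.inl rfl, by rw [← h]; exact e3, e1⟩
    obtain ⟨f, hf, hfw, hfc⟩ := hE.has w hwM c hc
    obtain ⟨f1, f2, f3, f4⟩ := hE.ends f hf
    obtain ⟨z, hz, hzw⟩ : ∃ z, EndOf z f ∧ z ≠ w := by
      rcases hfw with h | h
      · exact ⟨f.2.1, Or.inr rfl, by rw [← h]; exact f3.symm⟩
      · exact ⟨f.1, Or.inl rfl, by rw [← h]; exact f3⟩
    have hzu : z ≠ u := by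
      rintro rfl
      apply hE.simp e he f hf (by rintro rfl; omega)
      unfold EndOf at *; omega
    have hd0 := edet f hf w z hfw hz
    rw [hfc, hKdef, ← h0, ← hqdef] at hd0
    apply tri e he f hf w u z hw heu hfw hz hwu hzw.symm hzu.symm
    rw [det3_swap23, hd0, neg_zero]
  have iqK : ∀ u < M, ∀ c < 4, Indep (q u) (K c) := by
    intro u hu c hc
    have hp := vne u hu c hc
    by_contra hcon
    unfold Indep at hcon
    push Not at hcon
    apply hp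
    have r1 := hcon (1, 0, 0)
    have r2 := hcon (0, 1, 0)
    simp only [q, K, det3, lift] at r1 r2
    exact Prod.ext (by linarith) (by linarith)
  -- other end of an edge
  have oth : ∀ e ∈ E, ∀ u, EndOf u e → ∃ w, EndOf w e ∧ w ≠ u ∧ w < M := by
    intro e he u heu
    obtain ⟨e1, e2, e3, e4⟩ := hE.ends e he
    rcases heu with h | h
    · exact ⟨e.2.1, Or.inr rfl, by rw [← h]; exact e3.symm, e2⟩
    · exact ⟨e.1, Or.inl rfl, by rw [← h]; exact e3, e1⟩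
  -- two centres and a vertex are not collinear
  have hcc : ∀ u < M, ∀ c < 4, ∀ d < 4, c ≠ d → det3 (q u) (K c) (K d) ≠ 0 := by
    intro u hu c hc d hd hcd h0
    obtain ⟨e, he, heu, hec⟩ := hE.has u hu c hc
    obtain ⟨f, hf, hfu, hfd⟩ := hE.has u hu d hd
    obtain ⟨w, hw, hwu, hwM⟩ := oth e he u heu
    obtain ⟨z, hz, hzu, hzM⟩ := oth f hf u hfu
    have hwz : w ≠ z := by
      rintro rfl
      apply hE.simp e he f hf (by rintro rfl; omega)
      unfold EndOf at *; omega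
    have d1 := edet e he u w heu hw
    have d2 := edet f hf u z hfu hz
    rw [hec] at d1
    rw [hfd] at d2
    apply tri e he f hf u w z heu hw hfu hz hwu.symm hzu.symm hwz
    have l1 : det3 (q u) (K c) (q w) = 0 := by rw [det3_swap23, d1, neg_zero]
    have i2 := iqK u hu d hd
    have l2 : det3 (q u) (K d) (q z) = 0 := by rw [det3_swap23, d2, neg_zero]
    have l3 : det3 (q u) (K c) (q z) = 0 := det3_line' (iqK u hu c hc) i2 (det3_self13 _ _) h0 l2
    exact det3_line (iqK u hu c hc) (det3_self13 _ _) l1 l3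
  -- the centres 0, 1, 3 are not collinear
  have hK013 : det3 (K 0) (K 1) (K 3) ≠ 0 := by
    obtain ⟨v1, v2, v3, v4, ⟨n12, n13, n14, n23, n24, n34⟩, ⟨e1, he1, a1, a2, c1⟩,
      ⟨e2, he2, a3, a4, c2⟩, ⟨e3, he3, a5, a6, c3⟩, ⟨e4, he4, a7, a8, c4⟩, ⟨e5, he5, a9, a10, c5⟩,
      ⟨e6, he6, a11, a12, c6⟩⟩ := hF.k4
    have l1 := edet e1 he1 v1 v2 a1 a2
    have l2 := edet e2 he2 v3 v4 a3 a4
    have l3 := edet e3 he3 v1 v3 a5 a6
    have l4 := edet e4 he4 v2 v4 a7 a8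
    have l5 := edet e5 he5 v1 v4 a9 a10
    have l6 := edet e6 he6 v2 v3 a11 a12
    rw [c1] at l1; rw [c2] at l2; rw [c3] at l3; rw [c4] at l4; rw [c5] at l5; rw [c6] at l6
    refine quad_sound (lift_ne_zero _) (lift_ne_zero _) (lift_ne_zero _)
      (tri e1 he1 e3 he3 v1 v2 v3 a1 a2 a5 a6 n12 n13 n23)
      (tri e1 he1 e5 he5 v1 v2 v4 a1 a2 a9 a10 n12 n14 n24)
      (tri e3 he3 e5 he5 v1 v3 v4 a5 a6 a9 a10 n13 n14 n34)
      (tri e6 he6 e4 he4 v2 v3 v4 a11 a12 a7 a8 n23 n24 n34) l1 l2 l3 l4 l5 l6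
  -- the centres 0, 1, 2 are collinear
  have hK012 : det3 (K 0) (K 1) (K 2) = 0 := by
    obtain ⟨a1, a2, a3, b1, b2, b3, ⟨n1, n2, n3, n4, n5, n6, n7, n8, n9, n10, n11, n12, n13, n14,
      n15⟩, ⟨e1, he1, x1, y1, c1⟩, ⟨e2, he2, x2, y2, c2⟩, ⟨e3, he3, x3, y3, c3⟩,
      ⟨e4, he4, x4, y4, c4⟩, ⟨e5, he5, x5, y5, c5⟩, ⟨e6, he6, x6, y6, c6⟩, ⟨e7, he7, x7, y7, c7⟩,
      ⟨e8, he8, x8, y8, c8⟩, ⟨e9, he9, x9, y9, c9⟩⟩ := hF.prism
    have l4 := edet e1 he1 a1 a2 x1 y1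
    have l5 := edet e2 he2 b1 b2 x2 y2
    have l6 := edet e3 he3 a2 a3 x3 y3
    have l7 := edet e4 he4 b2 b3 x4 y4
    have l8 := edet e5 he5 a1 a3 x5 y5
    have l9 := edet e6 he6 b1 b3 x6 y6
    have l1 := edet e7 he7 a1 b1 x7 y7
    have l2 := edet e8 he8 a2 b2 x8 y8
    have l3 := edet e9 he9 a3 b3 x9 y9
    rw [c1] at l4; rw [c2] at l5; rw [c3] at l6; rw [c4] at l7; rw [c5] at l8; rw [c6] at l9
    rw [c7] at l1; rw [c8] at l2; rw [c9] at l3
    have := prism_sound l1 l2 l3 l4 l5 l6 l7 l8 l9 (lift_ne_zero _)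
      (tri e1 he1 e7 he7 a1 a2 b1 x1 y1 x7 y7 n1 n3 n7)
      (by
        have := tri e1 he1 e8 he8 a2 a1 b2 y1 x1 x8 y8 n1.symm n8 n4
        rw [det3_swap12]; exact neg_ne_zero.mpr this)
      (tri e3 he3 e8 he8 a2 a3 b2 x3 y3 x8 y8 n6 n8 n11)
      (by
        have := tri e3 he3 e9 he9 a3 a2 b3 y3 x3 x9 y9 n6.symm n12 n9
        rw [det3_swap12]; exact neg_ne_zero.mpr this)
      (tri e5 he5 e7 he7 a1 a3 b1 x5 y5 x7 y7 n2 n3 n10)
      (by
        have := tri e5 he5 e9 he9 a3 a1 b3 y5 x5 x9 y9 n2.symm n12 n5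
        rw [det3_swap12]; exact neg_ne_zero.mpr this)
      (by
        have := tri e2 he2 e8 he8 b2 b1 a2 y2 x2 y8 x8 n13.symm n8.symm n7.symm
        intro h0; apply this; rw [← h0]; simp only [det3]; ring)
      (by
        have := tri e2 he2 e7 he7 b1 b2 a1 x2 y2 y7 x7 n13 n3.symm n4.symm
        intro h0; apply this; rw [← h0]; simp only [det3]; ring)
      (by
        have := tri e4 he4 e9 he9 b3 b2 a3 y4 x4 y9 x9 n15.symm n12.symm n11.symm
        intro h0; apply this; rw [← h0]; simp only [det3]; ring)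
      (by
        have := tri e6 he6 e9 he9 b3 b1 a3 y6 x6 y9 x9 n14.symm n12.symm n10.symm
        intro h0; apply this; rw [← h0]; simp only [det3]; ring)
      (by
        have := tri e6 he6 e7 he7 b1 b3 a1 x6 y6 y7 x7 n14 n3.symm n5.symm
        intro h0; apply this; rw [← h0]; simp only [det3]; ring)
    rw [← this]; simp only [det3]; ring
  obtain ⟨al, be, hK2⟩ := in_span (indep_of_det12 hK013) hK012
  obtain ⟨u0, hu0⟩ : ∃ u, u < M := by
    obtain ⟨v1, v2, v3, v4, -, ⟨e1, he1, -, -, -⟩, -⟩ := hF.k4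
    exact ⟨_, (hE.ends e1 he1).1⟩
  have hal : al ≠ 0 := by
    rintro rfl
    apply hcc u0 hu0 1 (by norm_num) 2 (by norm_num) (by norm_num)
    rw [hK2, zero_smul, zero_add, det3_smul3, det3_self23, mul_zero]
  have hbe : be ≠ 0 := by
    rintro rfl
    apply hcc u0 hu0 0 (by norm_num) 2 (by norm_num) (by norm_num)
    rw [hK2, zero_smul, add_zero, det3_smul3, det3_self23, mul_zero]
  have hrot : ∀ u < M, ∀ c < 4, ∀ d < 4, c ≠ d → det3 (K c) (K d) (q u) ≠ 0 := by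
    intro u hu c hc d hd hcd
    rw [det3_rot]; exact hcc u hu c hc d hd hcd
  let H : ℕ → ℝ := fun v => det3 (K 0) (K 1) (q v)
  let A : ℕ → ℝ := fun v => - al * det3 (K 0) (K 3) (q v)
  let B : ℕ → ℝ := fun v => - be * det3 (K 1) (K 3) (q v)
  let C : ℕ → ℝ := fun v => det3 (K 2) (K 3) (q v)
  have hH : ∀ v < M, H v ≠ 0 := fun v hv => hrot v hv 0 (by norm_num) 1 (by norm_num) (by norm_num)
  have hA : ∀ v < M, A v ≠ 0 := fun v hv =>
    mul_ne_zero (neg_ne_zero.mpr hal) (hrot v hv 0 (by norm_num) 3 (by norm_num) (by norm_num))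
  have hB : ∀ v < M, B v ≠ 0 := fun v hv =>
    mul_ne_zero (neg_ne_zero.mpr hbe) (hrot v hv 1 (by norm_num) 3 (by norm_num) (by norm_num))
  have hC : ∀ v < M, C v ≠ 0 := fun v hv => hrot v hv 2 (by norm_num) 3 (by norm_num) (by norm_num)
  have kA : ∀ x y, A x * H y - A y * H x = (al * det3 (K 0) (K 1) (K 3)) *
      det3 (q x) (q y) (K 0) := by
    intro x y
    simp only [A, H, det3]; ring
  have kB : ∀ x y, B x * H y - B y * H x = (be * det3 (K 0) (K 1) (K 3)) *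
      det3 (q x) (q y) (K 1) := by
    intro x y
    simp only [B, H, det3]; ring
  have kC : ∀ x y, C x * H y - C y * H x = (- det3 (K 0) (K 1) (K 3)) *
      det3 (q x) (q y) (K 2) := by
    intro x y
    simp only [C, H]
    rw [hK2]
    simp only [det3, Prod.smul_fst, Prod.smul_snd, smul_eq_mul, Prod.fst_add, Prod.snd_add]; ring
  have kR : ∀ x y, A x * B y - B x * A y = (al * be * det3 (K 0) (K 1) (K 3)) *
      det3 (q x) (q y) (K 3) := by
    intro x y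
    simp only [A, B, det3]; ring
  have ABC : ∀ x, A x + B x + C x = 0 := by
    intro x
    simp only [A, B, C]
    rw [hK2]
    simp only [det3, Prod.smul_fst, Prod.smul_snd, smul_eq_mul, Prod.fst_add, Prod.snd_add]; ring
  let g : ℕ → V3 := fun v => (A v / H v, B v / H v, C v / H v)
  have key : ∀ c < 3, ∀ x < M, ∀ y < M, (co c (g x) = co c (g y) ↔
      det3 (q x) (q y) (K c) = 0) := by
    intro c hc x hx y hy
    have h1 := hH x hx
    have h2 := hH y hy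
    interval_cases c
    · simp only [co_zero, g]
      rw [div_eq_div_iff h1 h2, ← sub_eq_zero, kA, mul_eq_zero]
      constructor
      · rintro (h | h)
        · exact absurd h (mul_ne_zero hal hK013)
        · exact h
      · exact Or.inr
    · simp only [co_one, g]
      rw [div_eq_div_iff h1 h2, ← sub_eq_zero, kB, mul_eq_zero]
      constructor
      · rintro (h | h)
        · exact absurd h (mul_ne_zero hbe hK013)
        · exact h
      · exact Or.inr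
    · simp only [co_two, g]
      rw [div_eq_div_iff h1 h2, ← sub_eq_zero, kC, mul_eq_zero]
      constructor
      · rintro (h | h)
        · exact absurd h (neg_ne_zero.mpr hK013)
        · exact h
      · exact Or.inr
  have keyR : ∀ x < M, ∀ y < M, (Par (g x) (g y) ↔ det3 (q x) (q y) (K 3) = 0) := by
    intro x hx y hy
    have h1 := hH x hx
    have h2 := hH y hy
    simp only [Par, g]
    rw [div_mul_div_comm, div_mul_div_comm, div_left_inj' (mul_ne_zero h1 h2), ← sub_eq_zero, kR,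
      mul_eq_zero]
    constructor
    · rintro (h | h)
      · exact absurd h (mul_ne_zero (mul_ne_zero hal hbe) hK013)
      · exact h
    · exact Or.inr
  have hsep : ∀ e ∈ E, ∀ f ∈ E, e ≠ f → e.2.2 = f.2.2 →
      det3 (q e.1) (q f.1) (K e.2.2) ≠ 0 := by
    intro e he f hf hef hc h0
    obtain ⟨e1, e2, e3, e4⟩ := hE.ends e he
    obtain ⟨f1, f2, f3, f4⟩ := hE.ends f hf
    have i1 := iqK _ e1 _ e4
    have i2 := iqK _ f1 _ f4
    have d1 := edet e he e.1 e.2.1 (Or.inl rfl) (Or.inr rfl)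
    have d2 := edet f hf f.1 f.2.1 (Or.inl rfl) (Or.inr rfl)
    rw [← hc] at i2 d2
    have l1 : det3 (q e.1) (K e.2.2) (q e.1) = 0 := det3_self13 _ _
    have l2 : det3 (q e.1) (K e.2.2) (q e.2.1) = 0 := by rw [det3_swap23, d1, neg_zero]
    have l3 : det3 (q e.1) (K e.2.2) (q f.1) = 0 := by rw [det3_swap23, h0, neg_zero]
    have l4 : det3 (q e.1) (K e.2.2) (q f.2.1) = 0 :=
      det3_line' i1 i2 l3 (det3_self23 _ _) (by rw [det3_swap23, d2, neg_zero])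
    have m1 : det3 (q e.1) (q e.2.1) (q f.1) = 0 := det3_line i1 l1 l2 l3
    have m2 : det3 (q e.1) (q e.2.1) (q f.2.1) = 0 := det3_line i1 l1 l2 l4
    have m3 : det3 (q f.1) (q f.2.1) (q e.1) = 0 := det3_line i1 l3 l4 l1
    have m4 : det3 (q f.1) (q f.2.1) (q e.2.1) = 0 := det3_line i1 l3 l4 l2
    have pe : p e.1 ≠ p e.2.1 := fun h0 =>
      e3 (vinj e he e he _ _ (Or.inl rfl) (Or.inr rfl) h0)
    have pf : p f.1 ≠ p f.2.1 := fun h0 =>
      f3 (vinj f hf f hf _ _ (Or.inl rfl) (Or.inr rfl) h0)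
    apply h3 e he f hf hef
    apply le_antisymm
    · exact affineSpan_pair_le_of_mem_of_mem (mem_line_of_det pf m3) (mem_line_of_det pf m4)
    · exact affineSpan_pair_le_of_mem_of_mem (mem_line_of_det pe m1) (mem_line_of_det pe m2)
  have nzg : ∀ u < M, ∀ c < 3, co c (g u) ≠ 0 := by
    intro u hu c hc
    have h1 := hH u hu
    interval_cases c
    · exact div_ne_zero (hA u hu) h1
    · exact div_ne_zero (hB u hu) h1
    · exact div_ne_zero (hC u hu) h1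
  have sumg : ∀ u < M, sum3 (g u) = 0 := by
    intro u hu
    simp only [sum3, g]
    rw [← add_div, ← add_div, ABC, zero_div]
  refine ⟨g, ⟨?_, ?_, ?_, ?_⟩⟩
  · intro e he
    obtain ⟨e1, e2, e3, e4⟩ := hE.ends e he
    exact ⟨sumg _ e1, sumg _ e2⟩
  · intro e he c hc
    obtain ⟨e1, e2, e3, e4⟩ := hE.ends e he
    exact ⟨nzg _ e1 c hc, nzg _ e2 c hc⟩
  · intro e he
    obtain ⟨e1, e2, e3, e4⟩ := hE.ends e he
    have d1 := edet e he e.1 e.2.1 (Or.inl rfl) (Or.inr rfl)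
    refine ⟨fun h0 => (key _ h0 _ e1 _ e2).mpr d1, fun h0 => (keyR _ e1 _ e2).mpr ?_⟩
    rw [h0] at d1; exact d1
  · intro e he f hf hef hc
    obtain ⟨e1, e2, e3, e4⟩ := hE.ends e he
    obtain ⟨f1, f2, f3, f4⟩ := hE.ends f hf
    have d0 := hsep e he f hf hef hc
    refine ⟨fun h0 h5 => d0 ((key _ h0 _ e1 _ f1).mp h5), fun h0 h5 => ?_⟩
    apply d0
    rw [h0]
    exact (keyR _ e1 _ f1).mp h5

end Pool.Agent.Work.MP_8aa36a_lc
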