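import Pool.Agent.Work.MP_8aa36a_lc.Four.CplV

/-!
Networks: completeness.
-/

set_option autoImplicit false

namespace Pool.Agent.Work.MP_8aa36a_lc

open Pool.Agent.Work.MP_8c8e41_lc

variable {N : ℕ} {R : List (ℕ × ℕ)} {L : List Cpl}

/-- ends of the same wire belong to one coupler only -/
lemma NetOK.uniq (h : NetOK N R L) {i j : ℕ} (hi : i < L.length) (hj : j < L.length)
    {d n : ℕ} (h1 : (d, n) ∈ [(L[i].1, L[i].2.1), (L[i].1, L[i].2.2)])
    (h2 : (d, n) ∈ [(L[j].1, L[j].2.1), (L[j].1, L[j].2.2)]) : i = j := by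
  have hnd : (endsL L).Nodup := by
    rw [List.nodup_iff_count_le_one]
    rintro ⟨c, n⟩; rw [h.hL]; split <;> norm_num
  rw [endsL, List.nodup_flatMap] at hnd
  have hp := hnd.2
  rw [List.pairwise_iff_getElem] at hp
  rcases lt_trichotomy i j with hij | hij | hij
  · have := hp i j hi hj hij
    exact absurd h2 (this h1)
  · exact hij
  · have := hp j i hj hi hij
    exact absurd h1 (this h2)

lemma NetOK.cases (h : NetOK N R L) {C : Cpl} (hC : C ∈ L) :
    C = (2, 0, 1) ∨ (2 ≤ C.2.1 ∧ 2 ≤ C.2.2) := by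
  obtain ⟨L', hL'⟩ := h.head
  rw [hL'] at hC
  rcases List.mem_cons.mp hC with hC | hC
  · exact Or.inl hC
  · right
    have key : ∀ n, n < 2 → (C.1, n) ∈ [(C.1, C.2.1), (C.1, C.2.2)] → False := by
      intro n hn hmem
      have h1 : (C.1, n) ∈ endsL L' := List.mem_flatMap.mpr ⟨C, hC, hmem⟩
      have h2 : 0 < (endsL L').count (C.1, n) := List.count_pos_iff.mpr h1
      have h3 := h.hL C.1 n
      rw [hL'] at h3
      simp only [endsL, List.flatMap_cons, List.count_append] at h3 h2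
      have h4 : C.1 = 2 := by
        by_contra hne
        rw [if_neg (by omega)] at h3
        omega
      rw [h4] at h3 h2
      rw [if_pos (by omega)] at h3
      have h5 : ([((2 : ℕ), (0 : ℕ)), (2, 1)] : List (ℕ × ℕ)).count (2, n) = 1 := by
        interval_cases n <;> decide
      rw [h5] at h3
      omega
    constructor
    · by_contra hlt
      exact key C.2.1 (by omega) (by simp)
    · by_contra hlt
      exact key C.2.2 (by omega) (by simp)

/-- inverse rotation -/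
def ri (c : ℕ) : ℕ := if c = 0 then 0 else if c = 1 then 2 else 1

lemma rot_ri {c : ℕ} (hc : c < 3) (v : V3) : rot c (rot (ri c) v) = v := by
  interval_cases c <;> rfl

lemma rot_ne {c : ℕ} {v : V3} (h1 : v.1 ≠ 0) (h2 : v.2.1 ≠ 0) (h3 : v.2.2 ≠ 0) :
    (rot c v).1 ≠ 0 ∧ (rot c v).2.1 ≠ 0 ∧ (rot c v).2.2 ≠ 0 := by
  unfold rot; split
  · exact ⟨h1, h2, h3⟩
  · split
    · exact ⟨h3, h1, h2⟩
    · exact ⟨h2, h3, h1⟩

lemma uv_par_fin' {a b t : ℝ} (ha : a ≠ 0) (hb : b ≠ 0) (ht0 : t ≠ 0) {c : ℕ} (hc : c < 3)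
    (r : Fin 12) {u : V3} (hu : ∀ d < 3, co d u ≠ 0) (hs : sum3 u = 0) :
    {τ | Par (rot c (uv a b t τ r)) u}.Finite := by
  have e : u = rot c (rot (ri c) u) := (rot_ri hc u).symm
  obtain ⟨h1, h2, h3⟩ := rot_ne (c := ri c) (hu 0 (by norm_num)) (hu 1 (by norm_num))
    (hu 2 (by norm_num))
  have hs' : sum3 (rot (ri c) u) = 0 := by rw [sum_rot]; exact hs
  have := uv_par_fin (a := a) (b := b) (t := t) ha hb ht0 r h1 h2 h3 hs'
  refine this.subset ?_
  intro τ hτ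
  have hτ' : Par (rot c (uv a b t τ r)) u := hτ
  rw [e, par_rot (uv_sum _ _ _ _ _) hs'] at hτ'
  exact hτ'

/-- vectors of the frame -/
def fv (x : ℕ) : V3 :=
  if x = 0 then (-2, 1, 1) else if x = 1 then (-2, -1, 3) else if x = 2 then (2, -1, -1)
  else (2, 1, -3)

noncomputable def avoidF : Finset ℝ := {1, -1, 2, -2, 3, -3}

lemma fv_mem {x c : ℕ} (hc : c < 3) : co c (fv x) ∈ avoidF := by
  unfold fv avoidF
  interval_cases c <;> (split <;> [simp; (split <;> [simp; (split <;> simp)])])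

lemma fv_sum (x : ℕ) : sum3 (fv x) = 0 := by
  unfold fv sum3
  split <;> [norm_num; (split <;> [norm_num; (split <;> norm_num)])]

lemma fv_nz {x c : ℕ} (hc : c < 3) : co c (fv x) ≠ 0 := by
  unfold fv
  interval_cases c <;> (split <;> [simp; (split <;> [simp; (split <;> simp)])])

/-- scales of the nodes -/
lemma exists_scales (u : ℕ → V3) (hnz : ∀ x, 4 ≤ x → x < 2 * N → ∀ c < 3, co c (u x) ≠ 0) :
    ∃ s : ℕ → ℝ, (∀ n, s n ≠ 0 ∧ ∀ x, 4 ≤ x → x < 2 * N → ∀ c < 3, s n * co c (u x) ∉ avoidF) ∧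
      ∀ m n, m < n → ∀ x, 4 ≤ x → x < 2 * N → ∀ y, 4 ≤ y → y < 2 * N → ∀ c < 3,
        s m * co c (u x) ≠ s n * co c (u y) := by
  classical
  apply exists_seq_of_forall_finset_exists
    (fun s : ℝ => s ≠ 0 ∧ ∀ x, 4 ≤ x → x < 2 * N → ∀ c < 3, s * co c (u x) ∉ avoidF)
    (fun s s' => ∀ x, 4 ≤ x → x < 2 * N → ∀ y, 4 ≤ y → y < 2 * N → ∀ c < 3,
      s * co c (u x) ≠ s' * co c (u y))
  intro S hS
  have lin : ∀ k f : ℝ, k ≠ 0 → {y : ℝ | y * k = f}.Finite := by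
    intro k f hk
    apply (Set.finite_singleton (f / k)).subset
    intro y hy
    have hy' : y * k = f := hy
    simp only [Set.mem_singleton_iff]
    rw [← hy']; field_simp
  let T1 : Finset (ℕ × ℕ × ℝ) := ((Finset.Ico 4 (2 * N)) ×ˢ Finset.range 3 ×ˢ avoidF)
  let T2 : Finset (ℝ × ℕ × ℕ × ℕ) := (S ×ˢ (Finset.Ico 4 (2 * N)) ×ˢ (Finset.Ico 4 (2 * N)) ×ˢ
    Finset.range 3)
  have f1 : (⋃ z ∈ T1, {y : ℝ | y * co z.2.1 (u z.1) = z.2.2}).Finite := by
    apply Set.Finite.biUnion T1.finite_toSet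
    rintro ⟨x, c, f⟩ hz
    simp only [T1, Finset.mem_coe, Finset.mem_product, Finset.mem_Ico, Finset.mem_range] at hz
    exact lin _ _ (hnz x hz.1.1 hz.1.2 c hz.2.1)
  have f2 : (⋃ z ∈ T2, {y : ℝ | y * co z.2.2.2 (u z.2.2.1) = z.1 * co z.2.2.2 (u z.2.1)}).Finite := by
    apply Set.Finite.biUnion T2.finite_toSet
    rintro ⟨s, x, y, c⟩ hz
    simp only [T2, Finset.mem_coe, Finset.mem_product, Finset.mem_Ico, Finset.mem_range] at hz
    exact lin _ _ (hnz y hz.2.2.1.1 hz.2.2.1.2 c hz.2.2.2)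
  obtain ⟨y, hy⟩ := ((f1.union f2).union (Set.finite_singleton (0 : ℝ))).exists_notMem
  simp only [Set.mem_union, Set.mem_iUnion, Set.mem_singleton_iff, not_or, not_exists] at hy
  obtain ⟨⟨g1, g2⟩, g3⟩ := hy
  refine ⟨y, ⟨g3, ?_⟩, ?_⟩
  · intro x hx1 hx2 c hc hmem
    exact g1 (x, c, y * co c (u x)) (by
      simp only [T1, Finset.mem_product, Finset.mem_Ico, Finset.mem_range]
      exact ⟨⟨hx1, hx2⟩, hc, hmem⟩) rfl
  · intro s hs x hx1 hx2 z hz1 hz2 c hc he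
    exact g2 (s, x, z, c) (by
      simp only [T2, Finset.mem_product, Finset.mem_Ico, Finset.mem_range]
      exact ⟨hs, ⟨hx1, hx2⟩, ⟨hz1, hz2⟩, hc⟩) he.symm

/-- a common line of colour `d` -/
def Match (E : List CEdge) (d x y : ℕ) : Prop := ∃ e ∈ E, e.2.2 = d ∧ EndOf x e ∧ EndOf y e

lemma Match.symm {E : List CEdge} {d x y : ℕ} (h : Match E d x y) : Match E d y x := by
  obtain ⟨e, he, h1, h2, h3⟩ := h
  exact ⟨e, he, h1, h3, h2⟩

lemma net_unique (h : NetOK N R L) {e f : CEdge} (he : e ∈ netE N R L) (hf : f ∈ netE N R L)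
    {v : ℕ} (hv : EndOf v e) (hv' : EndOf v f) (hc : e.2.2 = f.2.2) : e = f := by
  by_contra hne
  have : Std.Symm Prop2 := ⟨fun _ _ h v h1 h2 h3 => h v h2 h1 h3.symm⟩
  exact (net_proper h).forall he hf hne v hv hv' hc

/-- separation from the vertex-level property -/
lemma vdraw_of_match (h : NetOK N R L) {g : ℕ → V3}
    (hsum : ∀ x < netM N L, sum3 (g x) = 0) (hnz : ∀ x < netM N L, ∀ c < 3, co c (g x) ≠ 0)
    (hinc : ∀ e ∈ netE N R L, (e.2.2 < 3 → co e.2.2 (g e.1) = co e.2.2 (g e.2.1)) ∧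
      (e.2.2 = 3 → Par (g e.1) (g e.2.1)))
    (h1 : ∀ x < netM N L, ∀ y < netM N L, x ≠ y → ∀ d < 3, co d (g x) = co d (g y) →
      Match (netE N R L) d x y)
    (h2 : ∀ x < netM N L, ∀ y < netM N L, x ≠ y → Par (g x) (g y) → Match (netE N R L) 3 x y) :
    VDraw (netE N R L) g := by
  refine ⟨fun e he => ⟨hsum _ (net_ends h e he).1, hsum _ (net_ends h e he).2.1⟩,
    fun e he c hc => ⟨hnz _ (net_ends h e he).1 c hc, hnz _ (net_ends h e he).2.1 c hc⟩, hinc, ?_⟩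
  intro e he f hf hef hc
  have a1 := (net_ends h e he).1
  have a2 := (net_ends h f hf).1
  have hne : e.1 ≠ f.1 := by
    intro h0
    exact hef (net_unique h he hf (v := e.1) (Or.inl rfl) (Or.inl h0.symm) hc)
  have key : ∀ d, e.2.2 = d → Match (netE N R L) d e.1 f.1 → False := by
    rintro d hd ⟨k, hk, hkd, hk1, hk2⟩
    have e1 : e = k := net_unique h he hk (v := e.1) (Or.inl rfl) hk1 (by rw [hkd, hd])
    have e2 : f = k := net_unique h hf hk (v := f.1) (Or.inl rfl) hk2 (by rw [hkd, ← hc, hd])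
    exact hef (e1.trans e2.symm)
  exact ⟨fun h3 h4 => key _ rfl (h1 _ a1 _ a2 hne _ h3 h4),
    fun h3 h4 => key 3 h3 (h2 _ a1 _ a2 hne h4)⟩

end Pool.Agent.Work.MP_8aa36a_lc
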