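import Pool.Agent.Work.MP_8aa36a_lc.Four.Functionals
import Pool.Agent.Work.MP_8aa36a_lc.Four.NetComplete

/-!
The classes of the gates of one triple, for a generic private point.
-/

set_option autoImplicit false

namespace Pool.Agent.Work.MP_8aa36a_lc

open Pool.Agent.Work.MP_8c8e41_lc

noncomputable def cA (γ : ℕ) (ρ σ a b : ℝ) : V3 :=
  if γ = 0 then (a, 0, -a) else if γ = 1 then (σ * a, 0, -(σ * a))
  else (-(σ * b), ρ * a + σ * b, -(ρ * a))

noncomputable def cB (γ : ℕ) (ρ σ a b : ℝ) : V3 :=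
  if γ = 0 then (0, b, -b) else if γ = 1 then (-(ρ * a), ρ * a + σ * b, -(σ * b))
  else (ρ * b, 0, -(ρ * b))

noncomputable def cV (γ : ℕ) (ρ σ a b τ : ℝ) : V3 := cA γ ρ σ a b + τ • cB γ ρ σ a b

/-- zero patterns -/
def zA (γ c : ℕ) : Bool := decide (γ < 2) && decide (c = 1)
def zB (γ c : ℕ) : Bool := (decide (γ = 0) && decide (c = 0)) || (decide (γ = 2) && decide (c = 1))

/-- values on a line -/
structure ClOK (ρ σ : ℝ) (a b : ℕ → ℝ) : Prop where
  hρ : ρ ≠ 0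
  hσ : σ ≠ 0
  ha : ∀ q < 3, a q ≠ 0
  hb : ∀ q < 3, b q ≠ 0
  hr : ∀ q < 3, ρ * a q + σ * b q ≠ 0
  hab : ∀ q < 3, ∀ q' < 3, q ≠ q' → a q * b q' ≠ a q' * b q
  hd : ∀ q < 3, ∀ q' < 3, q ≠ q' → a q ≠ a q'

variable {ρ σ : ℝ} {a b : ℕ → ℝ}

lemma cA_sum (γ : ℕ) (ρ σ a b : ℝ) : sum3 (cA γ ρ σ a b) = 0 := by
  unfold cA sum3
  split
  · simp
  · split
    · simp
    · simp

lemma cB_sum (γ : ℕ) (ρ σ a b : ℝ) : sum3 (cB γ ρ σ a b) = 0 := by
  unfold cB sum3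
  split
  · simp
  · split
    · simp
    · simp

lemma sum3_add_smul (u v : V3) (τ : ℝ) : sum3 (u + τ • v) = sum3 u + τ * sum3 v := by
  simp only [sum3, Prod.smul_fst, Prod.smul_snd, smul_eq_mul, Prod.fst_add, Prod.snd_add]; ring

lemma cV_sum (γ : ℕ) (ρ σ a b τ : ℝ) : sum3 (cV γ ρ σ a b τ) = 0 := by
  rw [cV, sum3_add_smul, cA_sum, cB_sum]; simp

lemma co_add_smul (c : ℕ) (u v : V3) (τ : ℝ) : co c (u + τ • v) = co c u + τ * co c v := by
  unfold co
  split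
  · rfl
  · split
    · rfl
    · rfl

lemma rot_add_smul (i : ℕ) (u v : V3) (τ : ℝ) : rot i (u + τ • v) = rot i u + τ • rot i v := by
  unfold rot
  split
  · rfl
  · split
    · rfl
    · rfl

lemma zA_iff (h : ClOK ρ σ a b) {γ q c : ℕ} (hγ : γ < 3) (hq : q < 3) (hc : c < 3) :
    co c (cA γ ρ σ (a q) (b q)) = 0 ↔ zA γ c = true := by
  have h1 := h.hρ
  have h2 := h.hσ
  have h3 := h.ha q hq
  have h4 := h.hb q hq
  have h5 := h.hr q hq
  interval_cases γ <;> interval_cases c <;> simp [cA, zA, h1, h2, h3, h4, h5]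

lemma zB_iff (h : ClOK ρ σ a b) {γ q c : ℕ} (hγ : γ < 3) (hq : q < 3) (hc : c < 3) :
    co c (cB γ ρ σ (a q) (b q)) = 0 ↔ zB γ c = true := by
  have h1 := h.hρ
  have h2 := h.hσ
  have h3 := h.ha q hq
  have h4 := h.hb q hq
  have h5 := h.hr q hq
  interval_cases γ <;> interval_cases c <;> simp [cB, zB, h1, h2, h3, h4, h5]

lemma par_minors {u v : V3} (hu : sum3 u = 0) (hv : sum3 v = 0) (h : Par u v) {c d : ℕ}
    (hc : c < 3) (hd : d < 3) : co c u * co d v = co d u * co c v := by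
  have a1 : u.2.2 = -u.1 - u.2.1 := by unfold sum3 at hu; linarith
  have a2 : v.2.2 = -v.1 - v.2.1 := by unfold sum3 at hv; linarith
  unfold Par at h
  interval_cases c <;> interval_cases d <;>
    simp only [co_zero, co_one, co_two] <;> (try rw [a1]) <;> (try rw [a2]) <;> linarith

lemma par_zero_iff {u v : V3} (hu : sum3 u = 0) (hv : sum3 v = 0) (hu0 : ∃ d < 3, co d u ≠ 0)
    (hv0 : ∃ d < 3, co d v ≠ 0) (h : Par u v) {c : ℕ} (hc : c < 3) : co c u = 0 ↔ co c v = 0 := by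
  constructor
  · intro h0
    obtain ⟨d, hd, hd0⟩ := hu0
    have := par_minors hu hv h hc hd
    rw [h0, zero_mul] at this
    exact (mul_eq_zero.mp this.symm).resolve_left hd0
  · intro h0
    obtain ⟨d, hd, hd0⟩ := hv0
    have := par_minors hu hv h hc hd
    rw [h0, mul_zero] at this
    exact (mul_eq_zero.mp this).resolve_right hd0

lemma par_gene {A B A' B' : V3} (h : ¬ (Par A A' ∧ Par B B' ∧
    A.1 * B'.2.1 + B.1 * A'.2.1 = A.2.1 * B'.1 + B.2.1 * A'.1)) :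
    Gene (fun τ => ¬ Par (A + τ • B) (A' + τ • B')) := by
  rw [gene_iff]
  have := quad_finite (a := A.1 * A'.2.1 - A.2.1 * A'.1)
    (b := A.1 * B'.2.1 + B.1 * A'.2.1 - (A.2.1 * B'.1 + B.2.1 * A'.1))
    (c := B.1 * B'.2.1 - B.2.1 * B'.1) (by
      rintro ⟨h1, h2, h3⟩
      exact h ⟨sub_eq_zero.mp h1, sub_eq_zero.mp h3, sub_eq_zero.mp h2⟩)
  refine this.subset ?_
  intro τ hτ
  simp only [not_not, Set.mem_setOf_eq, Par, Prod.smul_fst, Prod.smul_snd, smul_eq_mul,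
    Prod.fst_add, Prod.snd_add] at hτ ⊢
  linear_combination hτ

lemma lin_gene {x y : ℝ} (h : ¬ (x = 0 ∧ y = 0)) : Gene (fun τ => x + τ * y ≠ 0) := by
  apply gene_ne
  have := quad_finite (a := x) (b := y) (c := 0) (by rintro ⟨h1, h2, -⟩; exact h ⟨h1, h2⟩)
  refine this.subset ?_
  intro τ hτ
  simp only [Set.mem_setOf_eq] at hτ ⊢
  linarith

lemma z_check : ∀ γ < 3, ∀ i < 3, ∀ γ' < 3, ∀ i' < 3, (γ = γ' ∧ i = i') ∨
    ∃ c < 3, zA γ (role i c) ≠ zA γ' (role i' c) ∨ zB γ (role i c) ≠ zB γ' (role i' c) := by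
  intro γ hγ i hi γ' hγ' i' hi'
  interval_cases γ <;> interval_cases i <;> interval_cases γ' <;> interval_cases i' <;>
    first
    | exact Or.inl ⟨rfl, rfl⟩
    | exact Or.inr (by decide)

lemma z_check2 : ∀ γ < 3, ∀ i < 3, ∃ c < 3, zA γ (role i c) ≠ zB γ (role i c) := by decide +kernel

lemma z_check3 : ∀ γ < 3, ∀ c < 3, ¬ (zA γ c = true ∧ zB γ c = true) := by decide +kernel

lemma z_check4 : ∀ γ < 3, ∀ i < 3, (∃ c < 3, zA γ (role i c) = false) ∧
    ∃ c < 3, zB γ (role i c) = false := by decide +kernel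

lemma zAr_iff (h : ClOK ρ σ a b) {γ q c i : ℕ} (hγ : γ < 3) (hq : q < 3) (hc : c < 3) (hi : i < 3) :
    co c (rot i (cA γ ρ σ (a q) (b q))) = 0 ↔ zA γ (role i c) = true := by
  rw [co_rot hi hc]; exact zA_iff h hγ hq (role_lt i c)

lemma zBr_iff (h : ClOK ρ σ a b) {γ q c i : ℕ} (hγ : γ < 3) (hq : q < 3) (hc : c < 3) (hi : i < 3) :
    co c (rot i (cB γ ρ σ (a q) (b q))) = 0 ↔ zB γ (role i c) = true := by
  rw [co_rot hi hc]; exact zB_iff h hγ hq (role_lt i c)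

lemma cAr_ne (h : ClOK ρ σ a b) {γ q i : ℕ} (hγ : γ < 3) (hq : q < 3) (hi : i < 3) :
    ∃ d < 3, co d (rot i (cA γ ρ σ (a q) (b q))) ≠ 0 := by
  obtain ⟨⟨c, hc, h1⟩, -⟩ := z_check4 γ hγ i hi
  refine ⟨c, hc, ?_⟩
  rw [Ne, zAr_iff h hγ hq hc hi, h1]; simp

lemma cBr_ne (h : ClOK ρ σ a b) {γ q i : ℕ} (hγ : γ < 3) (hq : q < 3) (hi : i < 3) :
    ∃ d < 3, co d (rot i (cB γ ρ σ (a q) (b q))) ≠ 0 := by
  obtain ⟨-, ⟨c, hc, h1⟩⟩ := z_check4 γ hγ i hi
  refine ⟨c, hc, ?_⟩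
  rw [Ne, zBr_iff h hγ hq hc hi, h1]; simp

lemma bool_eq_of_iff {x y : Bool} (h : (x = true) ↔ (y = true)) : x = y := by
  cases x <;> cases y <;> simp_all

/-- different classes of one triple are generically different -/
lemma class_gene (h : ClOK ρ σ a b) {γ q i γ' q' i' : ℕ} (hγ : γ < 3) (hq : q < 3) (hi : i < 3)
    (hγ' : γ' < 3) (hq' : q' < 3) (hi' : i' < 3) (hne : ¬ (γ = γ' ∧ q = q' ∧ i = i')) :
    Gene (fun τ => ¬ Par (rot i (cV γ ρ σ (a q) (b q) τ)) (rot i' (cV γ' ρ σ (a q') (b q') τ))) := by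
  simp only [cV, rot_add_smul]
  by_cases hgi : (γ, i) = (γ', i')
  · obtain ⟨rfl, rfl⟩ := Prod.mk.inj hgi
    have hqq : q ≠ q' := fun h0 => hne ⟨rfl, h0, rfl⟩
    have e : ∀ τ : ℝ, Par (rot i (cA γ ρ σ (a q) (b q)) + τ • rot i (cB γ ρ σ (a q) (b q)))
        (rot i (cA γ ρ σ (a q') (b q')) + τ • rot i (cB γ ρ σ (a q') (b q'))) ↔
        Par (cA γ ρ σ (a q) (b q) + τ • cB γ ρ σ (a q) (b q))
        (cA γ ρ σ (a q') (b q') + τ • cB γ ρ σ (a q') (b q')) := by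
      intro τ
      rw [← rot_add_smul, ← rot_add_smul]
      exact par_rot (cV_sum γ ρ σ (a q) (b q) τ) (cV_sum γ ρ σ (a q') (b q') τ) i
    simp only [e]
    apply par_gene
    rintro ⟨h1, h2, h3⟩
    have hab := h.hab q hq q' hq' hqq
    have hρ := h.hρ
    have hσ := h.hσ
    interval_cases γ
    · simp [cA, cB] at h3
      apply hab; linarith
    · simp [cA, cB, Par] at h2
      apply hab
      apply mul_left_cancel₀ (mul_ne_zero hρ hσ)
      linear_combination h2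
    · simp [cA, cB, Par] at h1
      apply hab
      apply mul_left_cancel₀ (mul_ne_zero hρ hσ)
      linear_combination -h1
  · obtain ⟨c, hc, hz⟩ := (z_check γ hγ i hi γ' hγ' i' hi').resolve_left
      (fun h0 => hgi (by rw [h0.1, h0.2]))
    apply par_gene
    rintro ⟨h1, h2, -⟩
    have s1 : ∀ γ q i, sum3 (rot i (cA γ ρ σ (a q) (b q))) = 0 := by
      intro γ q i; rw [sum_rot]; exact cA_sum _ _ _ _ _
    have s2 : ∀ γ q i, sum3 (rot i (cB γ ρ σ (a q) (b q))) = 0 := by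
      intro γ q i; rw [sum_rot]; exact cB_sum _ _ _ _ _
    have k1 := par_zero_iff (s1 _ _ _) (s1 _ _ _) (cAr_ne h hγ hq hi) (cAr_ne h hγ' hq' hi') h1 hc
    have k2 := par_zero_iff (s2 _ _ _) (s2 _ _ _) (cBr_ne h hγ hq hi) (cBr_ne h hγ' hq' hi') h2 hc
    rw [zAr_iff h hγ hq hc hi, zAr_iff h hγ' hq' hc hi'] at k1
    rw [zBr_iff h hγ hq hc hi, zBr_iff h hγ' hq' hc hi'] at k2
    rcases hz with hz | hz
    · exact hz (bool_eq_of_iff k1)
    · exact hz (bool_eq_of_iff k2)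

/-- classes avoid a fixed class -/
lemma class_gene_K (h : ClOK ρ σ a b) {γ q i : ℕ} (hγ : γ < 3) (hq : q < 3) (hi : i < 3) {K : V3}
    (hK : sum3 K = 0) (hK0 : ∃ d < 3, co d K ≠ 0) :
    Gene (fun τ => ¬ Par (rot i (cV γ ρ σ (a q) (b q) τ)) K) := by
  simp only [cV, rot_add_smul]
  have e : ∀ τ : ℝ, K = K + τ • (0 : V3) := by intro τ; simp
  have := par_gene (A := rot i (cA γ ρ σ (a q) (b q))) (B := rot i (cB γ ρ σ (a q) (b q)))
    (A' := K) (B' := 0) (by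
      rintro ⟨h1, -, h3⟩
      have h2 : Par (rot i (cB γ ρ σ (a q) (b q))) K := by
        simp at h3; exact h3
      obtain ⟨c, hc, hz⟩ := z_check2 γ hγ i hi
      have s1 : sum3 (rot i (cA γ ρ σ (a q) (b q))) = 0 := by rw [sum_rot]; exact cA_sum _ _ _ _ _
      have s2 : sum3 (rot i (cB γ ρ σ (a q) (b q))) = 0 := by rw [sum_rot]; exact cB_sum _ _ _ _ _
      have k1 := par_zero_iff s1 hK (cAr_ne h hγ hq hi) hK0 h1 hc
      have k2 := par_zero_iff s2 hK (cBr_ne h hγ hq hi) hK0 h2 hc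
      rw [zAr_iff h hγ hq hc hi] at k1
      rw [zBr_iff h hγ hq hc hi] at k2
      exact hz (bool_eq_of_iff (k1.trans k2.symm)))
  filter_upwards [this] with τ hτ
  rw [← e τ] at hτ
  exact hτ

/-- good values of the parameter of a triple -/
structure TGood (ρ σ : ℝ) (a b : ℕ → ℝ) (Z : Finset V3) (τ : ℝ) : Prop where
  nz : ∀ γ < 3, ∀ q < 3, ∀ c < 3, co c (cV γ ρ σ (a q) (b q) τ) ≠ 0
  own : ∀ γ < 3, ∀ q < 3, ∀ i < 3, ∀ γ' < 3, ∀ q' < 3, ∀ i' < 3,
    ¬ (γ = γ' ∧ q = q' ∧ i = i') →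
    ¬ Par (rot i (cV γ ρ σ (a q) (b q) τ)) (rot i' (cV γ' ρ σ (a q') (b q') τ))
  av : ∀ γ < 3, ∀ q < 3, ∀ i < 3, ∀ K ∈ Z, ¬ Par (rot i (cV γ ρ σ (a q) (b q) τ)) K
  s0 : ∀ q < 3, a q + τ * b q ≠ 0
  sd : ∀ q < 3, ∀ q' < 3, q ≠ q' → a q + τ * b q ≠ a q' + τ * b q'

lemma gene_true : Gene (fun _ => True) := Filter.Eventually.of_forall fun _ => trivial

theorem tgood_gene (h : ClOK ρ σ a b) (Z : Finset V3)
    (hZ : ∀ K ∈ Z, sum3 K = 0 ∧ ∃ d < 3, co d K ≠ 0) : Gene (TGood ρ σ a b Z) := by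
  have g1 : Gene fun τ => ∀ γ < 3, ∀ q < 3, ∀ c < 3, co c (cV γ ρ σ (a q) (b q) τ) ≠ 0 := by
    refine gene_lt fun γ hγ => gene_lt fun q hq => gene_lt fun c hc => ?_
    simp only [cV, co_add_smul]
    apply lin_gene
    rintro ⟨h1, h2⟩
    rw [zA_iff h hγ hq hc] at h1
    rw [zB_iff h hγ hq hc] at h2
    exact z_check3 γ hγ c hc ⟨h1, h2⟩
  have g2 : Gene fun τ => ∀ γ < 3, ∀ q < 3, ∀ i < 3, ∀ γ' < 3, ∀ q' < 3, ∀ i' < 3,
      ¬ (γ = γ' ∧ q = q' ∧ i = i') →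
      ¬ Par (rot i (cV γ ρ σ (a q) (b q) τ)) (rot i' (cV γ' ρ σ (a q') (b q') τ)) := by
    refine gene_lt fun γ hγ => gene_lt fun q hq => gene_lt fun i hi => gene_lt fun γ' hγ' =>
      gene_lt fun q' hq' => gene_lt fun i' hi' => ?_
    by_cases hne : γ = γ' ∧ q = q' ∧ i = i'
    · filter_upwards [gene_true] with τ _ h0
      exact absurd hne h0
    · filter_upwards [class_gene h hγ hq hi hγ' hq' hi' hne] with τ hτ _
      exact hτ
  have g3 : Gene fun τ => ∀ γ < 3, ∀ q < 3, ∀ i < 3, ∀ K ∈ Z,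
      ¬ Par (rot i (cV γ ρ σ (a q) (b q) τ)) K := by
    refine gene_lt fun γ hγ => gene_lt fun q hq => gene_lt fun i hi => gene_finset fun K hK => ?_
    exact class_gene_K h hγ hq hi (hZ K hK).1 (hZ K hK).2
  have g4 : Gene fun τ => ∀ q < 3, a q + τ * b q ≠ 0 := by
    refine gene_lt fun q hq => ?_
    exact lin_gene (fun h0 => h.ha q hq h0.1)
  have g5 : Gene fun τ => ∀ q < 3, ∀ q' < 3, q ≠ q' → a q + τ * b q ≠ a q' + τ * b q' := by
    refine gene_lt fun q hq => gene_lt fun q' hq' => ?_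
    by_cases hqq : q = q'
    · filter_upwards [gene_true] with τ _ h0
      exact absurd hqq h0
    · filter_upwards [lin_gene (x := a q - a q') (y := b q - b q')
        (fun h0 => h.hd q hq q' hq' hqq (sub_eq_zero.mp h0.1))] with τ hτ _ h1
      apply hτ
      linear_combination h1
  filter_upwards [g1, g2, g3, g4, g5] with τ h1 h2 h3 h4 h5
  exact ⟨h1, h2, h3, h4, h5⟩

/-- **generic parameters for all triples** -/
theorem exists_generic (Z : Finset V3) (hZ : ∀ K ∈ Z, sum3 K = 0 ∧ ∃ d < 3, co d K ≠ 0)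
    (R S : ℕ → ℝ) (A B : ℕ → ℕ → ℝ) (N : ℕ) (hOK : ∀ j < N, ClOK (R j) (S j) (A j) (B j)) :
    ∃ τ : ℕ → ℝ, (∀ j < N, TGood (R j) (S j) (A j) (B j) Z (τ j)) ∧
      ∀ j < N, ∀ j' < N, j ≠ j' → ∀ γ < 3, ∀ q < 3, ∀ i < 3, ∀ γ' < 3, ∀ q' < 3, ∀ i' < 3,
        ¬ Par (rot i (cV γ (R j) (S j) (A j q) (B j q) (τ j)))
          (rot i' (cV γ' (R j') (S j') (A j' q') (B j' q') (τ j'))) := by
  classical
  induction N with
  | zero => exact ⟨fun _ => 0, fun j hj => absurd hj (by omega), fun j hj => absurd hj (by omega)⟩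
  | succ N ih =>
    obtain ⟨τ, h1, h2⟩ := ih (fun j hj => hOK j (by omega))
    let Z' : Finset V3 := Z ∪ (Finset.range N ×ˢ (Finset.range 3 ×ˢ (Finset.range 3 ×ˢ
      Finset.range 3))).image fun x => rot x.2.2.2 (cV x.2.1 (R x.1) (S x.1) (A x.1 x.2.2.1)
        (B x.1 x.2.2.1) (τ x.1))
    have hZ' : ∀ K ∈ Z', sum3 K = 0 ∧ ∃ d < 3, co d K ≠ 0 := by
      intro K hK
      rcases Finset.mem_union.mp hK with hK | hK
      · exact hZ K hK
      · obtain ⟨⟨j, γ, q, i⟩, hx, rfl⟩ := Finset.mem_image.mp hK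
        simp only [Finset.mem_product, Finset.mem_range] at hx
        obtain ⟨hj, hγ, hq, hi⟩ := hx
        refine ⟨by rw [sum_rot]; exact cV_sum _ _ _ _ _ _, 0, by norm_num, ?_⟩
        simp only
        rw [co_rot hi (by norm_num)]
        exact (h1 j hj).nz γ hγ q hq _ (role_lt i 0)
    obtain ⟨s, hs⟩ := (tgood_gene (hOK N (by omega)) Z' hZ').exists
    have hmem : ∀ j < N, ∀ γ < 3, ∀ q < 3, ∀ i < 3,
        rot i (cV γ (R j) (S j) (A j q) (B j q) (τ j)) ∈ Z' := by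
      intro j hj γ hγ q hq i hi
      apply Finset.mem_union_right
      refine Finset.mem_image.mpr ⟨(j, γ, q, i), ?_, rfl⟩
      simp only [Finset.mem_product, Finset.mem_range]
      exact ⟨hj, hγ, hq, hi⟩
    have eN : Function.update τ N s N = s := Function.update_self ..
    have eL : ∀ j < N, Function.update τ N s j = τ j := fun j hj =>
      Function.update_of_ne (by omega) ..
    refine ⟨Function.update τ N s, ?_, ?_⟩
    · intro j hj
      by_cases hjN : j = N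
      · subst hjN
        rw [eN]
        exact ⟨hs.nz, hs.own, fun γ hγ q hq i hi K hK =>
          hs.av γ hγ q hq i hi K (Finset.mem_union_left _ hK), hs.s0, hs.sd⟩
      · rw [eL j (by omega)]
        exact h1 j (by omega)
    · intro j hj j' hj' hjj γ hγ q hq i hi γ' hγ' q' hq' i' hi' hp
      by_cases hjN : j = N
      · subst hjN
        rw [eN, eL j' (by omega)] at hp
        exact hs.av γ hγ q hq i hi _ (hmem j' (by omega) γ' hγ' q' hq' i' hi') hp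
      · by_cases hjN' : j' = N
        · subst hjN'
          rw [eN, eL j (by omega)] at hp
          exact hs.av γ' hγ' q' hq' i' hi' _ (hmem j (by omega) γ hγ q hq i hi) (par_symm hp)
        · rw [eL j (by omega), eL j' (by omega)] at hp
          exact h2 j (by omega) j' (by omega) hjj γ hγ q hq i hi γ' hγ' q' hq' i' hi' hp

end Pool.Agent.Work.MP_8aa36a_lc
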