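import Pool.Agent.Work.MP_8aa36a_lc.Four.Gen

/-!
The vectors of a coupler.
-/

set_option autoImplicit false

namespace Pool.Agent.Work.MP_8aa36a_lc

open Pool.Agent.Work.MP_8c8e41_lc

/-- rotation of coordinates -/
def rot (c : ℕ) (v : V3) : V3 :=
  if c = 0 then v else if c = 1 then (v.2.2, v.1, v.2.1) else (v.2.1, v.2.2, v.1)

/-- the role of the colour `d` in a coupler of colour `c` -/
def role (c d : ℕ) : ℕ := if d = c then 0 else if d = nc c then 1 else 2

lemma co_rot {c d : ℕ} (hc : c < 3) (hd : d < 3) (v : V3) : co d (rot c v) = co (role c d) v := by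
  interval_cases c <;> interval_cases d <;> rfl

lemma role_lt (c d : ℕ) : role c d < 3 := by
  unfold role; split <;> [norm_num; (split <;> norm_num)]

lemma role_eq_zero {c d : ℕ} (h : role c d = 0) : d = c := by
  unfold role at h; split at h
  · assumption
  · split at h <;> norm_num at h

lemma role_self (c : ℕ) : role c c = 0 := by simp [role]

lemma role_eq_one {c d : ℕ} (h : role c d = 1) : d = nc c := by
  unfold role at h; split at h
  · norm_num at h
  · split at h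
    · assumption
    · norm_num at h

lemma role_eq_two {c d : ℕ} (hc : c < 3) (hd : d < 3) (h : role c d = 2) : d = nc (nc c) := by
  interval_cases c <;> interval_cases d <;> simp [role, nc] at h ⊢

lemma sum_rot (c : ℕ) (v : V3) : sum3 (rot c v) = sum3 v := by
  unfold rot sum3; split <;> [rfl; (split <;> (simp only; ring))]

lemma par_rot {u v : V3} (hu : sum3 u = 0) (hv : sum3 v = 0) (c : ℕ) :
    Par (rot c u) (rot c v) ↔ Par u v := by
  have a1 : u.2.2 = -u.1 - u.2.1 := by unfold sum3 at hu; linarith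
  have a2 : v.2.2 = -v.1 - v.2.1 := by unfold sum3 at hv; linarith
  unfold rot Par
  split
  · rfl
  · split
    · simp only; rw [a1, a2]
      constructor <;> intro h <;> linarith
    · simp only; rw [a1, a2]
      constructor <;> intro h <;> linarith

lemma rot_smul (c : ℕ) (k : ℝ) (v : V3) : rot c (k • v) = k • rot c v := by
  unfold rot; split <;> [rfl; (split <;> rfl)]

lemma par_smul_left {u v : V3} {k : ℝ} (hk : k ≠ 0) : Par (k • u) v ↔ Par u v := by
  unfold Par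
  simp only [Prod.smul_fst, Prod.smul_snd, smul_eq_mul]
  constructor
  · intro h
    apply mul_left_cancel₀ hk
    linarith
  · intro h
    rw [mul_assoc, h]; ring

lemma par_symm {u v : V3} (h : Par u v) : Par v u := by
  unfold Par at *; linarith

lemma par_comm {u v : V3} : Par u v ↔ Par v u := ⟨par_symm, par_symm⟩

lemma par_smul_right {u v : V3} {k : ℝ} (hk : k ≠ 0) : Par u (k • v) ↔ Par u v := by
  rw [par_comm, par_smul_left hk, par_comm]

/-- unrotated vector of vertex `r` -/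
noncomputable def uv (a b t τ : ℝ) (r : ℕ) : V3 :=
  if h : r < 6 then tv a b τ ⟨r, h⟩ else if h : r - 6 < 6 then t • tv a b τ ⟨r - 6, h⟩ else 0

/-- labels -/
def lab0 : Fin 12 → Fin 8 := ![0, 2, 2, 1, 3, 3, 4, 6, 6, 5, 7, 7]
def lab1 : Fin 12 → Fin 6 := ![0, 2, 0, 1, 2, 1, 3, 5, 3, 4, 5, 4]
def lab2 : Fin 12 → Fin 6 := ![0, 0, 2, 1, 1, 2, 3, 3, 5, 4, 4, 5]

lemma uv_co0 (a b t τ : ℝ) (r : Fin 12) : co 0 (uv a b t τ r) = v0 a b t τ (lab0 r) := by
  fin_cases r <;> simp [uv, tv, lab0, v0]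

lemma uv_co1 (a b t τ : ℝ) (r : Fin 12) : co 1 (uv a b t τ r) = v1 a b t τ (lab1 r) := by
  fin_cases r <;> simp [uv, tv, lab1, v1]

lemma uv_co2 (a b t τ : ℝ) (r : Fin 12) : co 2 (uv a b t τ r) = v2 a b t τ (lab2 r) := by
  fin_cases r <;> simp [uv, tv, lab2, v2]

lemma uv_sum (a b t τ : ℝ) (r : ℕ) : sum3 (uv a b t τ r) = 0 := by
  unfold uv
  split
  · exact tv_sum _ _ _ _
  · split
    · have := tv_sum a b τ ⟨r - 6, by assumption⟩
      unfold sum3 at *
      simp only [Prod.smul_fst, Prod.smul_snd, smul_eq_mul]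
      rw [← mul_add, ← mul_add, this, mul_zero]
    · simp [sum3]

/-- the value of a vertex in a role -/
noncomputable def rval (a b t τ : ℝ) (ρ : ℕ) (r : Fin 12) : ℝ :=
  if ρ = 0 then v0 a b t τ (lab0 r) else if ρ = 1 then v1 a b t τ (lab1 r) else
    v2 a b t τ (lab2 r)

lemma uv_co (a b t τ : ℝ) {ρ : ℕ} (hρ : ρ < 3) (r : Fin 12) :
    co ρ (uv a b t τ r) = rval a b t τ ρ r := by
  interval_cases ρ
  · exact uv_co0 _ _ _ _ _
  · exact uv_co1 _ _ _ _ _
  · exact uv_co2 _ _ _ _ _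

/-- is the role `ρ` line at `r` a boundary line? -/
def bdry (ρ : ℕ) (r : Fin 12) : Prop := ρ = 0 ∧ (r = 0 ∨ r = 3 ∨ r = 6 ∨ r = 9)

instance (ρ : ℕ) (r : Fin 12) : Decidable (bdry ρ r) := inferInstanceAs (Decidable (_ ∧ _))

/-- pairs of vertices of a coupler on a common line -/
def mtab (ρ : ℕ) : List (Fin 12 × Fin 12) :=
  if ρ = 0 then [(1, 2), (4, 5), (7, 8), (10, 11)]
  else if ρ = 1 then [(0, 2), (3, 5), (6, 8), (9, 11), (1, 4), (7, 10)]
  else [(0, 1), (3, 4), (6, 7), (9, 10), (2, 5), (8, 11)]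

lemma lab0_match : ∀ r s : Fin 12, r ≠ s → lab0 r = lab0 s → (r, s) ∈ mtab 0 ∨ (s, r) ∈ mtab 0 := by
  decide

lemma lab1_match : ∀ r s : Fin 12, r ≠ s → lab1 r = lab1 s → (r, s) ∈ mtab 1 ∨ (s, r) ∈ mtab 1 := by
  decide

lemma lab2_match : ∀ r s : Fin 12, r ≠ s → lab2 r = lab2 s → (r, s) ∈ mtab 2 ∨ (s, r) ∈ mtab 2 := by
  decide

variable {a b t : ℝ}

/-- generic parameter for a coupler: distinctness inside -/
structure GenIn (a b t τ : ℝ) : Prop where
  i0 : ∀ i j, i ≠ j → v0 a b t τ i ≠ v0 a b t τ j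
  i1 : ∀ i j, i ≠ j → v1 a b t τ i ≠ v1 a b t τ j
  i2 : ∀ i j, i ≠ j → v2 a b t τ i ≠ v2 a b t τ j
  ip : ∀ i j, i ≠ j → ¬ Par (tv a b τ i) (tv a b τ j)

lemma genIn_fin (ha : a ≠ 0) (hb : b ≠ 0) (ht0 : t ≠ 0) (ht1 : t ≠ 1) (hab : a ≠ b)
    (h1 : t * a ≠ a) (h2 : t * a ≠ b) (h3 : t * b ≠ a) (h4 : t * b ≠ b) :
    {τ | ¬ GenIn a b t τ}.Finite := by
  have f0 : (⋃ x : Fin 8 × Fin 8, {τ | x.1 ≠ x.2 ∧ v0 a b t τ x.1 = v0 a b t τ x.2}).Finite := by
    apply Set.finite_iUnion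
    rintro ⟨i, j⟩
    by_cases hij : i = j
    · simp [hij]
    · exact (v0_fin ht0 ht1 hab h1 h2 h3 h4 i j hij).subset fun τ hτ => hτ.2
  have f1 : (⋃ x : Fin 6 × Fin 6, {τ | x.1 ≠ x.2 ∧ v1 a b t τ x.1 = v1 a b t τ x.2}).Finite := by
    apply Set.finite_iUnion
    rintro ⟨i, j⟩
    by_cases hij : i = j
    · simp [hij]
    · exact (v1_fin ht0 ht1 hab i j hij).subset fun τ hτ => hτ.2
  have f2 : (⋃ x : Fin 6 × Fin 6, {τ | x.1 ≠ x.2 ∧ v2 a b t τ x.1 = v2 a b t τ x.2}).Finite := by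
    apply Set.finite_iUnion
    rintro ⟨i, j⟩
    by_cases hij : i = j
    · simp [hij]
    · exact (v2_fin ht0 ht1 hab i j hij).subset fun τ hτ => hτ.2
  have f3 : (⋃ x : Fin 6 × Fin 6, {τ | x.1 ≠ x.2 ∧ Par (tv a b τ x.1) (tv a b τ x.2)}).Finite := by
    apply Set.finite_iUnion
    rintro ⟨i, j⟩
    by_cases hij : i = j
    · simp [hij]
    · exact (tv_par_fin ha hb hab i j hij).subset fun τ hτ => hτ.2
  refine (((f0.union f1).union f2).union f3).subset ?_
  intro τ hτ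
  by_contra hcon
  apply hτ
  simp only [Set.mem_union, Set.mem_iUnion, not_or, not_exists] at hcon
  obtain ⟨⟨⟨c0, c1⟩, c2⟩, c3⟩ := hcon
  exact ⟨fun i j hij h => c0 (i, j) ⟨hij, h⟩, fun i j hij h => c1 (i, j) ⟨hij, h⟩,
    fun i j hij h => c2 (i, j) ⟨hij, h⟩, fun i j hij h => c3 (i, j) ⟨hij, h⟩⟩

/-- internal lines avoid a value -/
lemma rval_fin (ht0 : t ≠ 0) {ρ : ℕ} (hρ : ρ < 3) (r : Fin 12) (hr : ¬ bdry ρ r) (K : ℝ) :
    {τ | rval a b t τ ρ r = K}.Finite := by
  interval_cases ρ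
  · simp only [rval, if_true]
    apply v0_fin_K ht0
    revert r; decide
  · simp only [rval, one_ne_zero, if_false, if_true]
    exact v1_fin_K ht0 _ K
  · simp only [rval, OfNat.ofNat_ne_zero, OfNat.ofNat_ne_one, if_false]
    exact v2_fin_K ht0 _ K

/-- classes avoid a class -/
lemma uv_par_fin (ha : a ≠ 0) (hb : b ≠ 0) (ht0 : t ≠ 0) (r : Fin 12) {u : V3} (h1 : u.1 ≠ 0)
    (h2 : u.2.1 ≠ 0) (h3 : u.2.2 ≠ 0) (hs : sum3 u = 0) :
    {τ | Par (uv a b t τ r) u}.Finite := by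
  have h4 : u.1 + u.2.1 ≠ 0 := by
    intro h0; apply h3; unfold sum3 at hs; linarith
  unfold uv
  split
  · exact tv_par_fin_K ha hb _ h1 h2 h4
  · split
    · simp only [par_smul_left ht0]
      exact tv_par_fin_K ha hb _ h1 h2 h4
    · omega

/-- equal values inside a coupler -/
lemma rval_match {τ : ℝ} (h : GenIn a b t τ) {ρ : ℕ} (hρ : ρ < 3) {r s : Fin 12} (hrs : r ≠ s)
    (he : rval a b t τ ρ r = rval a b t τ ρ s) : (r, s) ∈ mtab ρ ∨ (s, r) ∈ mtab ρ := by
  interval_cases ρ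
  · simp only [rval, if_true] at he
    apply lab0_match r s hrs
    by_contra hne
    exact h.i0 _ _ hne he
  · simp only [rval, one_ne_zero, if_false, if_true] at he
    apply lab1_match r s hrs
    by_contra hne
    exact h.i1 _ _ hne he
  · simp only [rval, OfNat.ofNat_ne_zero, OfNat.ofNat_ne_one, if_false] at he
    apply lab2_match r s hrs
    by_contra hne
    exact h.i2 _ _ hne he

/-- proportional vectors inside a coupler -/
lemma par_match {τ : ℝ} (h : GenIn a b t τ) (ht0 : t ≠ 0) {r s : ℕ} (hr : r < 12) (hs : s < 12)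
    (hrs : r ≠ s) (hp : Par (uv a b t τ r) (uv a b t τ s)) : s = r + 6 ∨ r = s + 6 := by
  unfold uv at hp
  by_contra hcon
  push Not at hcon
  by_cases h1 : r < 6 <;> by_cases h2 : s < 6
  · rw [dif_pos h1, dif_pos h2] at hp
    exact h.ip _ _ (by simpa using hrs) hp
  · rw [dif_pos h1, dif_neg h2, dif_pos (by omega), par_smul_right ht0] at hp
    exact h.ip _ _ (by simp; omega) hp
  · rw [dif_neg h1, dif_pos h2, dif_pos (by omega), par_smul_left ht0] at hp
    exact h.ip _ _ (by simp; omega) hp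
  · rw [dif_neg h1, dif_neg h2, dif_pos (by omega), dif_pos (by omega), par_smul_left ht0,
      par_smul_right ht0] at hp
    exact h.ip _ _ (by simp; omega) hp

end Pool.Agent.Work.MP_8aa36a_lc
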