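import Pool.Agent.Work.MP_8aa36a_lc.Four.NetComplete

/-!
Networks: completeness, main theorem.
-/

set_option autoImplicit false

namespace Pool.Agent.Work.MP_8aa36a_lc

open Pool.Agent.Work.MP_8c8e41_lc

variable {N : ℕ} {R : List (ℕ × ℕ)} {L : List Cpl}

/-- data of the couplers -/
structure CData (K : ℕ) (c : ℕ → ℕ) (A B T : ℕ → ℝ) : Prop where
  c3 : ∀ i < K, c i < 3
  A0 : ∀ i < K, A i ≠ 0
  B0 : ∀ i < K, B i ≠ 0
  T0 : ∀ i < K, T i ≠ 0
  T1 : ∀ i < K, T i ≠ 1
  AB : ∀ i < K, A i ≠ B i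
  h1 : ∀ i < K, T i * A i ≠ A i
  h2 : ∀ i < K, T i * A i ≠ B i
  h3 : ∀ i < K, T i * B i ≠ A i
  h4 : ∀ i < K, T i * B i ≠ B i

/-- parameters of the couplers -/
lemma exists_taus {K : ℕ} {c : ℕ → ℕ} {A B T : ℕ → ℝ} (hC : CData K c A B T) (M : ℕ) (G : ℕ → V3)
    (hG : ∀ x < M, ∀ d < 3, co d (G x) ≠ 0) (hGs : ∀ x < M, sum3 (G x) = 0) :
    ∃ τ : ℕ → ℝ,
      (∀ n, ∀ i < K, GenIn (A i) (B i) (T i) (τ n) ∧
        (∀ ρ < 3, ∀ r, ¬ bdry ρ r → rval (A i) (B i) (T i) (τ n) ρ r ≠ 0 ∧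
          ∀ x < M, ∀ d < 3, rval (A i) (B i) (T i) (τ n) ρ r ≠ co d (G x)) ∧
        (∀ r : Fin 12, ∀ x < M, ¬ Par (rot (c i) (uv (A i) (B i) (T i) (τ n) r)) (G x))) ∧
      (∀ m n, m < n → ∀ i < K, ∀ j < K,
        (∀ ρ < 3, ∀ r : Fin 12, ∀ ρ' < 3, ∀ r' : Fin 12, ¬ bdry ρ' r' →
          rval (A i) (B i) (T i) (τ m) ρ r ≠ rval (A j) (B j) (T j) (τ n) ρ' r') ∧
        (∀ r r' : Fin 12, ¬ Par (rot (c i) (uv (A i) (B i) (T i) (τ m) r))
          (rot (c j) (uv (A j) (B j) (T j) (τ n) r')))) := by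
  classical
  -- coordinates of a generic coupler are not zero
  have nz : ∀ i < K, ∀ t : ℝ, (∀ ρ < 3, ∀ r, ¬ bdry ρ r → rval (A i) (B i) (T i) t ρ r ≠ 0) →
      ∀ ρ < 3, ∀ r, rval (A i) (B i) (T i) t ρ r ≠ 0 := by
    intro i hi t h ρ hρ r
    by_cases hb : bdry ρ r
    · obtain ⟨rfl, hr⟩ := hb
      rcases hr with rfl | rfl | rfl | rfl
      · exact hC.A0 i hi
      · exact hC.B0 i hi
      · exact mul_ne_zero (hC.T0 i hi) (hC.A0 i hi)
      · exact mul_ne_zero (hC.T0 i hi) (hC.B0 i hi)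
    · exact h ρ hρ r hb
  apply exists_seq_of_forall_finset_exists
    (fun t : ℝ => ∀ i < K, GenIn (A i) (B i) (T i) t ∧
        (∀ ρ < 3, ∀ r, ¬ bdry ρ r → rval (A i) (B i) (T i) t ρ r ≠ 0 ∧
          ∀ x < M, ∀ d < 3, rval (A i) (B i) (T i) t ρ r ≠ co d (G x)) ∧
        (∀ r : Fin 12, ∀ x < M, ¬ Par (rot (c i) (uv (A i) (B i) (T i) t r)) (G x)))
    (fun t t' => ∀ i < K, ∀ j < K,
        (∀ ρ < 3, ∀ r : Fin 12, ∀ ρ' < 3, ∀ r' : Fin 12, ¬ bdry ρ' r' →
          rval (A i) (B i) (T i) t ρ r ≠ rval (A j) (B j) (T j) t' ρ' r') ∧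
        (∀ r r' : Fin 12, ¬ Par (rot (c i) (uv (A i) (B i) (T i) t r))
          (rot (c j) (uv (A j) (B j) (T j) t' r'))))
  intro S hS
  have f1 : (⋃ i ∈ Finset.range K, {t | ¬ GenIn (A i) (B i) (T i) t}).Finite := by
    apply Set.Finite.biUnion (Finset.range K).finite_toSet
    intro i hi
    simp only [Finset.mem_coe, Finset.mem_range] at hi
    exact genIn_fin (hC.A0 i hi) (hC.B0 i hi) (hC.T0 i hi) (hC.T1 i hi) (hC.AB i hi)
      (hC.h1 i hi) (hC.h2 i hi) (hC.h3 i hi) (hC.h4 i hi)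
  have f2 : (⋃ z ∈ (Finset.range K ×ˢ Finset.range 3 ×ˢ (Finset.univ : Finset (Fin 12))),
      {t | ¬ bdry z.2.1 z.2.2 ∧ rval (A z.1) (B z.1) (T z.1) t z.2.1 z.2.2 = 0}).Finite := by
    apply Set.Finite.biUnion (Finset.finite_toSet _)
    rintro ⟨i, ρ, r⟩ hz
    simp only [Finset.mem_coe, Finset.mem_product, Finset.mem_range] at hz
    by_cases hb : bdry ρ r
    · simp [hb]
    · exact (rval_fin (hC.T0 i hz.1) hz.2.1 r hb 0).subset fun t ht => ht.2
  have f3 : (⋃ z ∈ (Finset.range K ×ˢ Finset.range 3 ×ˢ (Finset.univ : Finset (Fin 12)) ×ˢ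
      Finset.range M ×ˢ Finset.range 3),
      {t | ¬ bdry z.2.1 z.2.2.1 ∧ rval (A z.1) (B z.1) (T z.1) t z.2.1 z.2.2.1 =
        co z.2.2.2.2 (G z.2.2.2.1)}).Finite := by
    apply Set.Finite.biUnion (Finset.finite_toSet _)
    rintro ⟨i, ρ, r, x, d⟩ hz
    simp only [Finset.mem_coe, Finset.mem_product, Finset.mem_range] at hz
    by_cases hb : bdry ρ r
    · simp [hb]
    · exact (rval_fin (hC.T0 i hz.1) hz.2.1 r hb _).subset fun t ht => ht.2
  have f4 : (⋃ z ∈ (Finset.range K ×ˢ (Finset.univ : Finset (Fin 12)) ×ˢ Finset.range M),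
      {t | Par (rot (c z.1) (uv (A z.1) (B z.1) (T z.1) t z.2.1)) (G z.2.2)}).Finite := by
    apply Set.Finite.biUnion (Finset.finite_toSet _)
    rintro ⟨i, r, x⟩ hz
    simp only [Finset.mem_coe, Finset.mem_product, Finset.mem_range, Finset.mem_univ,
      true_and] at hz
    exact uv_par_fin' (hC.A0 i hz.1) (hC.B0 i hz.1) (hC.T0 i hz.1) (hC.c3 i hz.1) r
      (hG x hz.2) (hGs x hz.2)
  have f5 : (⋃ z ∈ (S ×ˢ Finset.range K ×ˢ Finset.range K ×ˢ Finset.range 3 ×ˢ Finset.range 3 ×ˢ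
      (Finset.univ : Finset (Fin 12)) ×ˢ (Finset.univ : Finset (Fin 12))),
      {t | ¬ bdry z.2.2.2.2.1 z.2.2.2.2.2.2 ∧
        rval (A z.2.2.1) (B z.2.2.1) (T z.2.2.1) t z.2.2.2.2.1 z.2.2.2.2.2.2 =
        rval (A z.2.1) (B z.2.1) (T z.2.1) z.1 z.2.2.2.1 z.2.2.2.2.2.1}).Finite := by
    apply Set.Finite.biUnion (Finset.finite_toSet _)
    rintro ⟨s, i, j, ρ, ρ', r, r'⟩ hz
    simp only [Finset.mem_coe, Finset.mem_product, Finset.mem_range] at hz
    by_cases hb : bdry ρ' r'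
    · simp [hb]
    · exact (rval_fin (hC.T0 j hz.2.2.1) hz.2.2.2.2.1 r' hb _).subset fun t ht => ht.2
  have f6 : (⋃ z ∈ (S ×ˢ Finset.range K ×ˢ Finset.range K ×ˢ
      (Finset.univ : Finset (Fin 12)) ×ˢ (Finset.univ : Finset (Fin 12))),
      {t | Par (rot (c z.2.2.1) (uv (A z.2.2.1) (B z.2.2.1) (T z.2.2.1) t z.2.2.2.2))
        (rot (c z.2.1) (uv (A z.2.1) (B z.2.1) (T z.2.1) z.1 z.2.2.2.1))}).Finite := by
    apply Set.Finite.biUnion (Finset.finite_toSet _)
    rintro ⟨s, i, j, r, r'⟩ hz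
    simp only [Finset.mem_coe, Finset.mem_product, Finset.mem_range, Finset.mem_univ,
      and_true] at hz
    obtain ⟨hs, hi, hj⟩ := hz
    apply uv_par_fin' (hC.A0 j hj) (hC.B0 j hj) (hC.T0 j hj) (hC.c3 j hj) r'
    · intro d hd
      rw [co_rot (hC.c3 i hi) hd, uv_co _ _ _ _ (role_lt _ _)]
      exact nz i hi s (fun ρ hρ r hb => ((hS s hs i hi).2.1 ρ hρ r hb).1) _ (role_lt _ _) _
    · rw [sum_rot]; exact uv_sum _ _ _ _ _
  obtain ⟨y, hy⟩ := ((((((f1.union f2).union f3).union f4).union f5).union f6)).exists_notMem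
  simp only [Set.mem_union, Set.mem_iUnion, not_or, not_exists] at hy
  obtain ⟨⟨⟨⟨⟨g1, g2⟩, g3⟩, g4⟩, g5⟩, g6⟩ := hy
  refine ⟨y, ?_, ?_⟩
  · intro i hi
    refine ⟨?_, ?_, ?_⟩
    · by_contra hcon
      exact g1 i (Finset.mem_range.mpr hi) hcon
    · intro ρ hρ r hb
      refine ⟨fun h0 => g2 (i, ρ, r) (by simp [hi, hρ]) ⟨hb, h0⟩, ?_⟩
      intro x hx d hd h0
      exact g3 (i, ρ, r, x, d) (by simp [hi, hρ, hx, hd]) ⟨hb, h0⟩
    · intro r x hx h0
      exact g4 (i, r, x) (by simp [hi, hx]) h0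
  · intro s hs i hi j hj
    refine ⟨?_, ?_⟩
    · intro ρ hρ r ρ' hρ' r' hb h0
      exact g5 (s, i, j, ρ, ρ', r, r') (by simp [hs, hi, hj, hρ, hρ']) ⟨hb, h0.symm⟩
    · intro r r' h0
      exact g6 (s, i, j, r, r') (by simp [hs, hi, hj]) (par_symm h0)

/-- the colour with a given role -/
def rc (c ρ : ℕ) : ℕ := if ρ = 0 then c else if ρ = 1 then nc c else nc (nc c)

lemma rc_role {c d : ℕ} (hc : c < 3) (hd : d < 3) : rc c (role c d) = d := by
  interval_cases c <;> interval_cases d <;> rfl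

lemma role_rc {c ρ : ℕ} (hc : c < 3) (hρ : ρ < 3) : role c (rc c ρ) = ρ := by
  interval_cases c <;> interval_cases ρ <;> rfl

lemma rc_lt {c ρ : ℕ} (hc : c < 3) : rc c ρ < 3 := by
  unfold rc; split <;> [exact hc; (split <;> exact nc_lt)]

lemma mtab_edge {ρ : ℕ} (hρ : ρ < 3) (C : Cpl) (i : ℕ) {r s : Fin 12} (h : (r, s) ∈ mtab ρ) :
    (cv N i r, cv N i s, rc C.1 ρ) ∈ cplE N C i := by
  interval_cases ρ
  · simp only [mtab, if_true, List.mem_cons, List.not_mem_nil, or_false, Prod.mk.injEq] at h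
    rcases h with ⟨rfl, rfl⟩ | ⟨rfl, rfl⟩ | ⟨rfl, rfl⟩ | ⟨rfl, rfl⟩ <;> simp [cplE, rc]
  · simp only [mtab, if_true, one_ne_zero, if_false, List.mem_cons, List.not_mem_nil, or_false,
      Prod.mk.injEq] at h
    rcases h with ⟨rfl, rfl⟩ | ⟨rfl, rfl⟩ | ⟨rfl, rfl⟩ | ⟨rfl, rfl⟩ | ⟨rfl, rfl⟩ | ⟨rfl, rfl⟩ <;>
      simp [cplE, rc]
  · simp only [mtab, OfNat.ofNat_ne_zero, OfNat.ofNat_ne_one, if_false, List.mem_cons,
      List.not_mem_nil, or_false, Prod.mk.injEq] at h
    rcases h with ⟨rfl, rfl⟩ | ⟨rfl, rfl⟩ | ⟨rfl, rfl⟩ | ⟨rfl, rfl⟩ | ⟨rfl, rfl⟩ | ⟨rfl, rfl⟩ <;>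
      simp [cplE, rc]

lemma mtab_rval {a b t τ : ℝ} {ρ : ℕ} (hρ : ρ < 3) {r s : Fin 12} (h : (r, s) ∈ mtab ρ) :
    rval a b t τ ρ r = rval a b t τ ρ s := by
  interval_cases ρ
  · simp only [rval, if_true]
    congr 1
    revert r s; decide
  · simp only [rval, one_ne_zero, if_false, if_true]
    congr 1
    revert r s; decide
  · simp only [rval, OfNat.ofNat_ne_zero, OfNat.ofNat_ne_one, if_false]
    congr 1
    revert r s; decide

lemma cplE_class {C : Cpl} {i : ℕ} {e : CEdge} (he : e ∈ cplE N C i) :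
    e ∈ [(2 * C.2.1, cv N i 0, C.1), (2 * C.2.1 + 1, cv N i 6, C.1),
      (2 * C.2.2, cv N i 3, C.1), (2 * C.2.2 + 1, cv N i 9, C.1)] ∨
    (∃ ρ < 3, ∃ r s : Fin 12, (r, s) ∈ mtab ρ ∧ e = (cv N i r, cv N i s, rc C.1 ρ)) ∨
    (∃ r < 6, e = (cv N i r, cv N i (r + 6), 3)) := by
  simp only [cplE, List.mem_cons, List.not_mem_nil, or_false] at he
  rcases he with rfl | rfl | rfl | rfl | rfl | rfl | rfl | rfl | rfl | rfl | rfl | rfl | rfl |
    rfl | rfl | rfl | rfl | rfl | rfl | rfl | rfl | rfl | rfl | rfl | rfl | rfl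
  iterate 4 exact Or.inl (by simp)
  · exact Or.inr (Or.inl ⟨2, by norm_num, 0, 1, by decide, rfl⟩)
  · exact Or.inr (Or.inl ⟨0, by norm_num, 1, 2, by decide, rfl⟩)
  · exact Or.inr (Or.inl ⟨1, by norm_num, 0, 2, by decide, rfl⟩)
  · exact Or.inr (Or.inl ⟨2, by norm_num, 3, 4, by decide, rfl⟩)
  · exact Or.inr (Or.inl ⟨0, by norm_num, 4, 5, by decide, rfl⟩)
  · exact Or.inr (Or.inl ⟨1, by norm_num, 3, 5, by decide, rfl⟩)
  · exact Or.inr (Or.inl ⟨2, by norm_num, 6, 7, by decide, rfl⟩)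
  · exact Or.inr (Or.inl ⟨0, by norm_num, 7, 8, by decide, rfl⟩)
  · exact Or.inr (Or.inl ⟨1, by norm_num, 6, 8, by decide, rfl⟩)
  · exact Or.inr (Or.inl ⟨2, by norm_num, 9, 10, by decide, rfl⟩)
  · exact Or.inr (Or.inl ⟨0, by norm_num, 10, 11, by decide, rfl⟩)
  · exact Or.inr (Or.inl ⟨1, by norm_num, 9, 11, by decide, rfl⟩)
  · exact Or.inr (Or.inl ⟨1, by norm_num, 1, 4, by decide, rfl⟩)
  · exact Or.inr (Or.inl ⟨1, by norm_num, 7, 10, by decide, rfl⟩)
  · exact Or.inr (Or.inl ⟨2, by norm_num, 2, 5, by decide, rfl⟩)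
  · exact Or.inr (Or.inl ⟨2, by norm_num, 8, 11, by decide, rfl⟩)
  · exact Or.inr (Or.inr ⟨0, by norm_num, rfl⟩)
  · exact Or.inr (Or.inr ⟨1, by norm_num, rfl⟩)
  · exact Or.inr (Or.inr ⟨2, by norm_num, rfl⟩)
  · exact Or.inr (Or.inr ⟨3, by norm_num, rfl⟩)
  · exact Or.inr (Or.inr ⟨4, by norm_num, rfl⟩)
  · exact Or.inr (Or.inr ⟨5, by norm_num, rfl⟩)

lemma frame_match {x y d : ℕ} (hx : x < 4) (hy : y < 4) (hxy : x ≠ y) (hd : d < 2)
    (h : co d (fv x) = co d (fv y)) : Match (netE N R L) d x y := by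
  have hf : ∀ e ∈ frameE, e ∈ netE N R L := fun e he => List.mem_append_left _ he
  have m1 : Match (netE N R L) 0 0 1 := ⟨(0, 1, 0), hf _ (by simp [frameE]), rfl, Or.inl rfl, Or.inr rfl⟩
  have m2 : Match (netE N R L) 0 2 3 := ⟨(2, 3, 0), hf _ (by simp [frameE]), rfl, Or.inl rfl, Or.inr rfl⟩
  have m3 : Match (netE N R L) 1 2 1 := ⟨(2, 1, 1), hf _ (by simp [frameE]), rfl, Or.inl rfl, Or.inr rfl⟩
  have m4 : Match (netE N R L) 1 3 0 := ⟨(3, 0, 1), hf _ (by simp [frameE]), rfl, Or.inl rfl, Or.inr rfl⟩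
  interval_cases d <;> interval_cases x <;> interval_cases y <;>
    first
    | exact absurd rfl hxy
    | exact m1
    | exact m1.symm
    | exact m2
    | exact m2.symm
    | exact m3
    | exact m3.symm
    | exact m4
    | exact m4.symm
    | (exfalso; simp [fv] at h; try norm_num at h)

lemma frame_par {x y : ℕ} (hx : x < 4) (hy : y < 4) (hxy : x ≠ y)
    (h : Par (fv x) (fv y)) : Match (netE N R L) 3 x y := by
  have hf : ∀ e ∈ frameE, e ∈ netE N R L := fun e he => List.mem_append_left _ he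
  have m1 : Match (netE N R L) 3 0 2 := ⟨(0, 2, 3), hf _ (by simp [frameE]), rfl, Or.inl rfl, Or.inr rfl⟩
  have m2 : Match (netE N R L) 3 1 3 := ⟨(1, 3, 3), hf _ (by simp [frameE]), rfl, Or.inl rfl, Or.inr rfl⟩
  interval_cases x <;> interval_cases y <;>
    first
    | exact absurd rfl hxy
    | exact m1
    | exact m1.symm
    | exact m2
    | exact m2.symm
    | (exfalso; simp [fv, Par] at h; try norm_num at h)

/-- **completeness of networks** -/
theorem net_complete (h : NetOK N R L) (u : ℕ → V3)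
    (hsum : ∀ x, 4 ≤ x → x < 2 * N → sum3 (u x) = 0)
    (hnz : ∀ x, 4 ≤ x → x < 2 * N → ∀ c < 3, co c (u x) ≠ 0)
    (hratio : ∀ n, 2 ≤ n → n < N → ∀ c < 3, co c (u (2 * n)) ≠ co c (u (2 * n + 1)))
    (hcpl : ∀ C ∈ L, 2 ≤ C.2.1 → 2 ≤ C.2.2 →
      co C.1 (u (2 * C.2.1 + 1)) * co C.1 (u (2 * C.2.2)) =
      co C.1 (u (2 * C.2.2 + 1)) * co C.1 (u (2 * C.2.1)))
    (hpar : ∀ ab ∈ R, Par (u ab.1) (u ab.2))
    (hcl : ∀ x y, 4 ≤ x → x < 2 * N → 4 ≤ y → y < 2 * N → x ≠ y → Par (u x) (u y) →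
      (x, y) ∈ R ∨ (y, x) ∈ R)
    (hfr : ∀ x, 4 ≤ x → x < 2 * N → ∀ y < 4, ¬ Par (u x) (fv y)) :
    ∃ g, VDraw (netE N R L) g := by
  have h2 := h.two
  obtain ⟨s, hs1, hs2⟩ := exists_scales (N := N) u hnz
  let G : ℕ → V3 := fun x => if x < 4 then fv x else s (x / 2) • u x
  have G4 : ∀ x, 4 ≤ x → G x = s (x / 2) • u x := fun x hx => if_neg (by omega)
  have G0 : ∀ x, x < 4 → G x = fv x := fun x hx => if_pos hx
  have Gsum : ∀ x < 2 * N, sum3 (G x) = 0 := by
    intro x hx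
    by_cases h4 : x < 4
    · rw [G0 x h4]; exact fv_sum x
    · rw [G4 x (by omega)]
      have := hsum x (by omega) hx
      unfold sum3 at *
      simp only [Prod.smul_fst, Prod.smul_snd, smul_eq_mul]
      rw [← mul_add, ← mul_add, this, mul_zero]
  have Gnz : ∀ x < 2 * N, ∀ c < 3, co c (G x) ≠ 0 := by
    intro x hx c hc
    by_cases h4 : x < 4
    · rw [G0 x h4]; exact fv_nz hc
    · rw [G4 x (by omega), co_smul]
      exact mul_ne_zero (hs1 _).1 (hnz x (by omega) hx c hc)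
  -- values at nodes
  have NL4 : ∀ x y, 4 ≤ y → x < 2 * N → y < 2 * N → x ≠ y → ∀ c < 3, co c (G x) ≠ co c (G y) := by
    intro x y hy4 hx hy hxy c hc h0
    rw [G4 y hy4, co_smul] at h0
    by_cases h4 : x < 4
    · rw [G0 x h4] at h0
      apply (hs1 (y / 2)).2 y hy4 hy c hc
      rw [← h0]; exact fv_mem hc
    · rw [G4 x (by omega), co_smul] at h0
      rcases lt_trichotomy (x / 2) (y / 2) with hlt | heq | hgt
      · exact hs2 _ _ hlt x (by omega) hx y hy4 hy c hc h0
      · rw [heq] at h0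
        have h1 := mul_left_cancel₀ (hs1 _).1 h0
        have hr := hratio (y / 2) (by omega) (by omega) c hc
        have hcase : (x = 2 * (y / 2) ∧ y = 2 * (y / 2) + 1) ∨
            (y = 2 * (y / 2) ∧ x = 2 * (y / 2) + 1) := by omega
        rcases hcase with ⟨e1, e2⟩ | ⟨e1, e2⟩
        · apply hr; rw [← e2, ← e1]; exact h1
        · apply hr; rw [← e2, ← e1]; exact h1.symm
      · exact hs2 _ _ hgt y hy4 hy x (by omega) hx c hc h0.symm
  have NL : ∀ x y, x < 2 * N → y < 2 * N → x ≠ y → ∀ c < 3, (c = 2 ∨ 4 ≤ x ∨ 4 ≤ y) →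
      co c (G x) ≠ co c (G y) := by
    intro x y hx hy hxy c hc hor
    by_cases hy4 : 4 ≤ y
    · exact NL4 x y hy4 hx hy hxy c hc
    · by_cases hx4 : 4 ≤ x
      · exact (NL4 y x hx4 hy hx hxy.symm c hc).symm
      · have : c = 2 := by omega
        subst this
        rw [G0 x (by omega), G0 y (by omega)]
        have a1 : x < 4 := by omega
        have a2 : y < 4 := by omega
        interval_cases x <;> interval_cases y <;> simp [fv] at hxy ⊢ <;> norm_num
  -- data of couplers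
  have wire : ∀ i (hi : i < L.length), (∀ x ∈ [2 * L[i].2.1, 2 * L[i].2.1 + 1, 2 * L[i].2.2,
      2 * L[i].2.2 + 1], x < 2 * N ∧ (L[i].1 = 2 ∨ 4 ≤ x)) := by
    intro i hi
    obtain ⟨c1, c2, c3⟩ := h.cpl_mem (List.getElem_mem hi)
    rcases h.cases (List.getElem_mem hi) with hC | hC
    · rw [hC] at c1 c2 c3 ⊢
      simp only at c1 c2 c3
      simp
      omega
    · simp
      omega
  have nee : ∀ i (hi : i < L.length), L[i].2.1 ≠ L[i].2.2 := fun i hi =>
    h.c_ne _ (List.getElem_mem hi)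
  have ratio : ∀ i (hi : i < L.length), co L[i].1 (G (2 * L[i].2.1 + 1)) * co L[i].1 (G (2 * L[i].2.2))
      = co L[i].1 (G (2 * L[i].2.2 + 1)) * co L[i].1 (G (2 * L[i].2.1)) := by
    intro i hi
    rcases h.cases (List.getElem_mem hi) with hC | hC
    · rw [hC]
      simp only
      rw [G0 _ (by norm_num), G0 _ (by norm_num), G0 _ (by norm_num), G0 _ (by norm_num)]
      simp [fv]
    · have e1 : (2 * L[i].2.1 + 1) / 2 = L[i].2.1 := by omega
      have e2 : (2 * L[i].2.1) / 2 = L[i].2.1 := by omega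
      have e3 : (2 * L[i].2.2 + 1) / 2 = L[i].2.2 := by omega
      have e4 : (2 * L[i].2.2) / 2 = L[i].2.2 := by omega
      rw [G4 _ (by omega), G4 _ (by omega), G4 _ (by omega), G4 _ (by omega), e1, e2, e3, e4,
        co_smul, co_smul, co_smul, co_smul]
      have := hcpl _ (List.getElem_mem hi) hC.1 hC.2
      linear_combination (s L[i].2.1 * s L[i].2.2) * this
  let c : ℕ → ℕ := fun i => (L.getD i (0, 0, 0)).1
  let nn : ℕ → ℕ := fun i => (L.getD i (0, 0, 0)).2.1
  let mm : ℕ → ℕ := fun i => (L.getD i (0, 0, 0)).2.2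
  let A : ℕ → ℝ := fun i => co (c i) (G (2 * nn i))
  let B : ℕ → ℝ := fun i => co (c i) (G (2 * mm i))
  let T : ℕ → ℝ := fun i => co (c i) (G (2 * nn i + 1)) / A i
  have hget : ∀ i (hi : i < L.length), L.getD i (0, 0, 0) = L[i] := fun i hi => by
    simp [hi]
  have hcc : ∀ i < L.length, c i < 3 ∧ nn i < N ∧ mm i < N := by
    intro i hi
    simp only [c, nn, mm, hget i hi]
    exact h.cpl_mem (List.getElem_mem hi)
  have wire' : ∀ i < L.length, (∀ x ∈ [2 * nn i, 2 * nn i + 1, 2 * mm i, 2 * mm i + 1],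
      x < 2 * N ∧ (c i = 2 ∨ 4 ≤ x)) := by
    intro i hi
    simp only [c, nn, mm, hget i hi]
    exact wire i hi
  have nee' : ∀ i < L.length, nn i ≠ mm i := by
    intro i hi
    simp only [nn, mm, hget i hi]
    exact nee i hi
  have A0 : ∀ i < L.length, A i ≠ 0 := fun i hi =>
    Gnz _ (wire' i hi (2 * nn i) (by simp)).1 _ (hcc i hi).1
  have B0 : ∀ i < L.length, B i ≠ 0 := fun i hi =>
    Gnz _ (wire' i hi (2 * mm i) (by simp)).1 _ (hcc i hi).1
  have TA : ∀ i < L.length, T i * A i = co (c i) (G (2 * nn i + 1)) := fun i hi =>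
    div_mul_cancel₀ _ (A0 i hi)
  have TB : ∀ i < L.length, T i * B i = co (c i) (G (2 * mm i + 1)) := by
    intro i hi
    have := ratio i hi
    have e : co (c i) (G (2 * nn i + 1)) * co (c i) (G (2 * mm i)) =
        co (c i) (G (2 * mm i + 1)) * co (c i) (G (2 * nn i)) := by
      simp only [c, nn, mm, hget i hi]; exact this
    have hA := A0 i hi
    simp only [T, B]
    rw [div_mul_eq_mul_div, e, mul_div_assoc, div_self hA, mul_one]
  have NLw : ∀ i < L.length, ∀ x ∈ [2 * nn i, 2 * nn i + 1, 2 * mm i, 2 * mm i + 1],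
      ∀ y < 2 * N, x ≠ y → co (c i) (G x) ≠ co (c i) (G y) := by
    intro i hi x hx y hy hxy
    obtain ⟨w1, w2⟩ := wire' i hi x hx
    exact NL x y w1 hy hxy _ (hcc i hi).1 (by omega)
  have hCD : CData L.length c A B T := by
    refine ⟨fun i hi => (hcc i hi).1, A0, B0, ?_, ?_, ?_, ?_, ?_, ?_, ?_⟩
    · intro i hi
      exact div_ne_zero (Gnz _ (wire' i hi (2 * nn i + 1) (by simp)).1 _ (hcc i hi).1) (A0 i hi)
    · intro i hi h0
      have := TA i hi
      rw [h0, one_mul] at this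
      exact NLw i hi (2 * nn i) (by simp) (2 * nn i + 1) (wire' i hi _ (by simp)).1 (by omega) this
    · intro i hi
      have := nee' i hi
      exact NLw i hi (2 * nn i) (by simp) (2 * mm i) (wire' i hi _ (by simp)).1 (by omega)
    · intro i hi
      rw [TA i hi]
      exact NLw i hi (2 * nn i + 1) (by simp) (2 * nn i) (wire' i hi _ (by simp)).1 (by omega)
    · intro i hi
      have := nee' i hi
      rw [TA i hi]
      exact NLw i hi (2 * nn i + 1) (by simp) (2 * mm i) (wire' i hi _ (by simp)).1 (by omega)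
    · intro i hi
      have := nee' i hi
      rw [TB i hi]
      exact NLw i hi (2 * mm i + 1) (by simp) (2 * nn i) (wire' i hi _ (by simp)).1 (by omega)
    · intro i hi
      rw [TB i hi]
      exact NLw i hi (2 * mm i + 1) (by simp) (2 * mm i) (wire' i hi _ (by simp)).1 (by omega)
  obtain ⟨τ, hτ1, hτ2⟩ := exists_taus hCD (2 * N) G Gnz Gsum
  let P : ℕ → ℕ → V3 := fun i r => rot (c i) (uv (A i) (B i) (T i) (τ i) r)
  let g : ℕ → V3 := fun x => if x < 2 * N then G x else P ((x - 2 * N) / 12) ((x - 2 * N) % 12)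
  have gN : ∀ x, x < 2 * N → g x = G x := fun x hx => if_pos hx
  have gC : ∀ i r, r < 12 → g (cv N i r) = P i r := by
    intro i r hr
    have e1 : ¬ (cv N i r < 2 * N) := by simp only [cv]; omega
    have e2 : (cv N i r - 2 * N) / 12 = i := by simp only [cv]; omega
    have e3 : (cv N i r - 2 * N) % 12 = r := by simp only [cv]; omega
    simp only [g, e1, if_false, e2, e3]
  have split : ∀ x < netM N L, x < 2 * N ∨ ∃ i < L.length, ∃ r : Fin 12, x = cv N i r := by
    intro x hx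
    by_cases h1 : x < 2 * N
    · exact Or.inl h1
    · right
      unfold netM at hx
      exact ⟨(x - 2 * N) / 12, by omega, ⟨(x - 2 * N) % 12, by omega⟩, by simp only [cv]; omega⟩
  have Pco : ∀ i < L.length, ∀ r : Fin 12, ∀ d < 3, co d (P i r) =
      rval (A i) (B i) (T i) (τ i) (role (c i) d) r := by
    intro i hi r d hd
    simp only [P]
    rw [co_rot (hcc i hi).1 hd, uv_co _ _ _ _ (role_lt _ _)]
  have Pb : ∀ i < L.length, ∀ r : Fin 12, ∀ d < 3, bdry (role (c i) d) r → d = c i ∧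
      ∃ x, x < 2 * N ∧ co d (P i r) = co d (G x) ∧ Match (netE N R L) d x (cv N i r) ∧
        (c i = 2 ∨ 4 ≤ x) ∧ ((d, x / 2) = (c i, nn i) ∨ (d, x / 2) = (c i, mm i)) ∧
        (r = 0 ∧ x = 2 * nn i ∨ r = 3 ∧ x = 2 * mm i ∨ r = 6 ∧ x = 2 * nn i + 1 ∨
          r = 9 ∧ x = 2 * mm i + 1) := by
    intro i hi r d hd hb
    obtain ⟨h0, hr⟩ := hb
    have hdc := role_eq_zero h0
    refine ⟨hdc, ?_⟩
    subst hdc
    have hm : ∀ e ∈ cplE N L[i] i, e ∈ netE N R L := by
      intro e he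
      apply List.mem_append_right
      apply List.mem_append_right
      refine List.mem_flatMap.mpr ⟨(L[i], i), ?_, he⟩
      rw [List.mem_zipIdx_iff_getElem?]
      simp [hi]
    have en : L[i].2.1 = nn i := by simp only [nn, hget i hi]
    have em : L[i].2.2 = mm i := by simp only [mm, hget i hi]
    have ec : L[i].1 = c i := by simp only [c, hget i hi]
    have hco : ∀ r : Fin 12, co (c i) (P i r) = v0 (A i) (B i) (T i) (τ i) (lab0 r) := by
      intro r
      rw [Pco i hi r _ hd, role_self]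
      rfl
    rcases hr with rfl | rfl | rfl | rfl
    · refine ⟨2 * nn i, (wire' i hi _ (by simp)).1, ?_, ⟨(2 * nn i, cv N i 0, c i), hm _ ?_, rfl,
        Or.inl rfl, Or.inr rfl⟩, (wire' i hi _ (by simp)).2, Or.inl ?_, by simp⟩
      · rw [hco]; rfl
      · simp [cplE, en, ec]
      · congr 1; omega
    · refine ⟨2 * mm i, (wire' i hi _ (by simp)).1, ?_, ⟨(2 * mm i, cv N i 3, c i), hm _ ?_, rfl,
        Or.inl rfl, Or.inr rfl⟩, (wire' i hi _ (by simp)).2, Or.inr ?_, by simp⟩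
      · rw [hco]; rfl
      · simp [cplE, em, ec]
      · congr 1; omega
    · refine ⟨2 * nn i + 1, (wire' i hi _ (by simp)).1, ?_, ⟨(2 * nn i + 1, cv N i 6, c i), hm _ ?_,
        rfl, Or.inl rfl, Or.inr rfl⟩, (wire' i hi _ (by simp)).2, Or.inl ?_, by simp⟩
      · rw [hco, ← TA i hi]; rfl
      · simp [cplE, en, ec]
      · congr 1; omega
    · refine ⟨2 * mm i + 1, (wire' i hi _ (by simp)).1, ?_, ⟨(2 * mm i + 1, cv N i 9, c i), hm _ ?_,
        rfl, Or.inl rfl, Or.inr rfl⟩, (wire' i hi _ (by simp)).2, Or.inr ?_, by simp⟩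
      · rw [hco, ← TB i hi]; rfl
      · simp [cplE, em, ec]
      · congr 1; omega
  have hmem : ∀ i (hi : i < L.length), ∀ e ∈ cplE N L[i] i, e ∈ netE N R L := by
    intro i hi e he
    apply List.mem_append_right
    apply List.mem_append_right
    refine List.mem_flatMap.mpr ⟨(L[i], i), ?_, he⟩
    rw [List.mem_zipIdx_iff_getElem?]
    simp [hi]
  have ec : ∀ i (hi : i < L.length), L[i].1 = c i := fun i hi => by simp only [c, hget i hi]
  -- node and coupler
  have NC : ∀ x < 2 * N, ∀ i < L.length, ∀ r : Fin 12, ∀ d < 3, co d (G x) = co d (P i r) →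
      Match (netE N R L) d x (cv N i r) := by
    intro x hx i hi r d hd he
    by_cases hb : bdry (role (c i) d) r
    · obtain ⟨hdc, x0, hx0, h1, h2, h3, -⟩ := Pb i hi r d hd hb
      by_cases hxx : x = x0
      · rw [hxx]; exact h2
      · exact absurd (he.trans h1) (NL x x0 hx hx0 hxx d hd (by omega))
    · exfalso
      apply ((hτ1 i i hi).2.1 (role (c i) d) (role_lt _ _) r hb).2 x hx d hd
      rw [← Pco i hi r d hd]; exact he.symm
  -- two couplers
  have CC : ∀ i j, i < j → j < L.length → ∀ r s : Fin 12, ∀ d < 3, co d (P i r) ≠ co d (P j s) := by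
    intro i j hij hj r s d hd he
    have hi : i < L.length := by omega
    by_cases hb : bdry (role (c j) d) s
    · obtain ⟨hdc, x0, hx0, h1, -, h3, h4, -⟩ := Pb j hj s d hd hb
      by_cases hb' : bdry (role (c i) d) r
      · obtain ⟨hdc', x1, hx1, h1', -, h3', h4', -⟩ := Pb i hi r d hd hb'
        by_cases hxx : x0 = x1
        · rw [← hxx] at h4'
          have : i = j := by
            apply h.uniq hi hj (d := d) (n := x0 / 2)
            · simp only [List.mem_cons, List.not_mem_nil, or_false]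
              simp only [c, nn, mm, hget i hi] at h4'; exact h4'
            · simp only [List.mem_cons, List.not_mem_nil, or_false]
              simp only [c, nn, mm, hget j hj] at h4; exact h4
          omega
        · exact NL x0 x1 hx0 hx1 hxx d hd (by omega) (h1.symm.trans (he.symm.trans h1'))
      · apply ((hτ1 i i hi).2.1 (role (c i) d) (role_lt _ _) r hb').2 x0 hx0 d hd
        rw [← Pco i hi r d hd, he, h1]
    · apply (hτ2 i j hij i hi j hj).1 (role (c i) d) (role_lt _ _) r (role (c j) d) (role_lt _ _) s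
        hb
      rw [← Pco i hi r d hd, ← Pco j hj s d hd]; exact he
  have C1 : ∀ i < L.length, ∀ r s : Fin 12, r ≠ s → ∀ d < 3, co d (P i r) = co d (P i s) →
      Match (netE N R L) d (cv N i r) (cv N i s) := by
    intro i hi r s hrs d hd he
    rw [Pco i hi r d hd, Pco i hi s d hd] at he
    have hrc := rc_role (hcc i hi).1 hd
    rcases rval_match (hτ1 i i hi).1 (role_lt _ _) hrs he with h1 | h1
    · refine ⟨_, hmem i hi _ (mtab_edge (role_lt _ _) L[i] i h1), ?_, Or.inl rfl, Or.inr rfl⟩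
      simp only [ec i hi]; exact hrc
    · refine ⟨_, hmem i hi _ (mtab_edge (role_lt _ _) L[i] i h1), ?_, Or.inr rfl, Or.inl rfl⟩
      simp only [ec i hi]; exact hrc
  have Psum : ∀ i < L.length, ∀ r, sum3 (P i r) = 0 := by
    intro i _ r
    simp only [P]; rw [sum_rot]; exact uv_sum _ _ _ _ _
  have Pnz : ∀ i < L.length, ∀ r : Fin 12, ∀ d < 3, co d (P i r) ≠ 0 := by
    intro i hi r d hd
    by_cases hb : bdry (role (c i) d) r
    · obtain ⟨hdc, x0, hx0, h1, -⟩ := Pb i hi r d hd hb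
      rw [h1]; exact Gnz x0 hx0 d hd
    · rw [Pco i hi r d hd]
      exact ((hτ1 i i hi).2.1 _ (role_lt _ _) r hb).1
  have Ppar : ∀ i < L.length, ∀ r s : Fin 12, (r : ℕ) ≠ s → Par (P i r) (P i s) →
      Match (netE N R L) 3 (cv N i r) (cv N i s) := by
    intro i hi r s hrs hp
    simp only [P] at hp
    rw [par_rot (uv_sum _ _ _ _ _) (uv_sum _ _ _ _ _)] at hp
    have key : ∀ a < 6, (cv N i a, cv N i (a + 6), 3) ∈ cplE N L[i] i := by
      intro a ha
      interval_cases a <;> simp [cplE]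
    rcases par_match (hτ1 i i hi).1 (hCD.T0 i hi) r.2 s.2 hrs hp with h1 | h1
    · have := key r (by omega)
      rw [← h1] at this
      exact ⟨_, hmem i hi _ this, rfl, Or.inl rfl, Or.inr rfl⟩
    · have := key s (by omega)
      rw [← h1] at this
      exact ⟨_, hmem i hi _ this, rfl, Or.inr rfl, Or.inl rfl⟩
  refine ⟨g, vdraw_of_match h ?_ ?_ ?_ ?_ ?_⟩
  · intro x hx
    rcases split x hx with hx | ⟨i, hi, r, rfl⟩
    · rw [gN x hx]; exact Gsum x hx
    · rw [gC i r r.2]; exact Psum i hi r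
  · intro x hx d hd
    rcases split x hx with hx | ⟨i, hi, r, rfl⟩
    · rw [gN x hx]; exact Gnz x hx d hd
    · rw [gC i r r.2]; exact Pnz i hi r d hd
  · intro e he
    simp only [netE, List.mem_append] at he
    rcases he with he | he | he
    · have e4 : e.1 < 4 ∧ e.2.1 < 4 := by
        simp only [frameE, List.mem_cons, List.not_mem_nil, or_false] at he
        rcases he with rfl | rfl | rfl | rfl | rfl | rfl <;> norm_num
      rw [gN _ (by omega), gN _ (by omega), G0 _ e4.1, G0 _ e4.2]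
      simp only [frameE, List.mem_cons, List.not_mem_nil, or_false] at he
      rcases he with rfl | rfl | rfl | rfl | rfl | rfl <;> simp [fv, Par]
    · obtain ⟨ab, hab, rfl⟩ := List.mem_map.mp he
      have h4 := h.r_mem hab
      refine ⟨fun h0 => absurd h0 (by norm_num), fun _ => ?_⟩
      show Par (g ab.1) (g ab.2)
      rw [gN _ (by omega), gN _ (by omega), G4 _ (by omega), G4 _ (by omega),
        par_smul_left (hs1 _).1, par_smul_right (hs1 _).1]
      exact hpar ab hab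
    · obtain ⟨⟨C, i⟩, hm, he⟩ := List.mem_flatMap.mp he
      rw [List.mem_zipIdx_iff_getElem?] at hm
      obtain ⟨hi, hC⟩ := List.getElem?_eq_some_iff.mp hm
      simp only at hi hC he
      subst hC
      have c3 := (hcc i hi).1
      rcases cplE_class he with he | ⟨ρ, hρ, r, s, hrs, rfl⟩ | ⟨r, hr, rfl⟩
      · have en : L[i].2.1 = nn i := by simp only [nn, hget i hi]
        have em : L[i].2.2 = mm i := by simp only [mm, hget i hi]
        rw [ec i hi, en, em] at he
        have hco : ∀ r : Fin 12, co (c i) (g (cv N i r)) =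
            v0 (A i) (B i) (T i) (τ i) (lab0 r) := by
          intro r
          rw [gC i r r.2, Pco i hi r _ c3, role_self]
          rfl
        simp only [List.mem_cons, List.not_mem_nil, or_false] at he
        rcases he with rfl | rfl | rfl | rfl
        · refine ⟨fun _ => ?_, fun h0 => absurd h0 (by simp only; omega)⟩
          have := hco 0
          simp only
          rw [gN _ (wire' i hi _ (by simp)).1]
          exact this.symm
        · refine ⟨fun _ => ?_, fun h0 => absurd h0 (by simp only; omega)⟩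
          have := hco 6
          simp only
          rw [gN _ (wire' i hi _ (by simp)).1, ← TA i hi]
          exact this.symm
        · refine ⟨fun _ => ?_, fun h0 => absurd h0 (by simp only; omega)⟩
          have := hco 3
          simp only
          rw [gN _ (wire' i hi _ (by simp)).1]
          exact this.symm
        · refine ⟨fun _ => ?_, fun h0 => absurd h0 (by simp only; omega)⟩
          have := hco 9
          simp only
          rw [gN _ (wire' i hi _ (by simp)).1, ← TB i hi]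
          exact this.symm
      · rw [ec i hi]
        have hlt := rc_lt (ρ := ρ) c3
        refine ⟨fun _ => ?_, fun h0 => absurd h0 (by simp only; omega)⟩
        simp only
        rw [gC i r r.2, gC i s s.2, Pco i hi r _ hlt, Pco i hi s _ hlt, role_rc c3 hρ]
        exact mtab_rval hρ hrs
      · refine ⟨fun h0 => absurd h0 (by norm_num), fun _ => ?_⟩
        simp only
        rw [gC i r (by omega), gC i (r + 6) (by omega)]
        simp only [P]
        rw [par_rot (uv_sum _ _ _ _ _) (uv_sum _ _ _ _ _)]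
        have e1 : uv (A i) (B i) (T i) (τ i) (r + 6) = T i • uv (A i) (B i) (T i) (τ i) r := by
          unfold uv
          rw [dif_neg (by omega), dif_pos (by omega), dif_pos hr]
          rfl
        rw [e1]
        unfold Par
        simp only [Prod.smul_fst, Prod.smul_snd, smul_eq_mul]; ring
  · intro x hx y hy hxy d hd he
    rcases split x hx with hx | ⟨i, hi, r, rfl⟩ <;> rcases split y hy with hy | ⟨j, hj, s, rfl⟩
    · rw [gN x hx, gN y hy] at he
      by_cases hor : d = 2 ∨ 4 ≤ x ∨ 4 ≤ y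
      · exact absurd he (NL x y hx hy hxy d hd hor)
      · push Not at hor
        rw [G0 x (by omega), G0 y (by omega)] at he
        exact frame_match (by omega) (by omega) hxy (by omega) he
    · rw [gN x hx, gC j s s.2] at he
      exact NC x hx j hj s d hd he
    · rw [gN y hy, gC i r r.2] at he
      exact (NC y hy i hi r d hd he.symm).symm
    · rw [gC i r r.2, gC j s s.2] at he
      rcases lt_trichotomy i j with hij | hij | hij
      · exact absurd he (CC i j hij hj r s d hd)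
      · subst hij
        exact C1 i hi r s (by rintro rfl; exact hxy rfl) d hd he
      · exact absurd he.symm (CC j i hij hi s r d hd)
  · intro x hx y hy hxy hp
    rcases split x hx with hx | ⟨i, hi, r, rfl⟩ <;> rcases split y hy with hy | ⟨j, hj, s, rfl⟩
    · rw [gN x hx, gN y hy] at hp
      by_cases hx4 : x < 4 <;> by_cases hy4 : y < 4
      · rw [G0 x hx4, G0 y hy4] at hp
        exact frame_par hx4 hy4 hxy hp
      · rw [G0 x hx4, G4 y (by omega), par_smul_right (hs1 _).1] at hp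
        exact absurd (par_symm hp) (hfr y (by omega) hy x hx4)
      · rw [G4 x (by omega), G0 y hy4, par_smul_left (hs1 _).1] at hp
        exact absurd hp (hfr x (by omega) hx y hy4)
      · rw [G4 x (by omega), G4 y (by omega), par_smul_left (hs1 _).1,
          par_smul_right (hs1 _).1] at hp
        have hR : ∀ ab ∈ R, (ab.1, ab.2, 3) ∈ netE N R L := by
          intro ab hab
          apply List.mem_append_right
          apply List.mem_append_left
          exact List.mem_map_of_mem hab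
        rcases hcl x y (by omega) hx (by omega) hy hxy hp with h1 | h1
        · exact ⟨_, hR _ h1, rfl, Or.inl rfl, Or.inr rfl⟩
        · exact ⟨_, hR _ h1, rfl, Or.inr rfl, Or.inl rfl⟩
    · rw [gN x hx, gC j s s.2] at hp
      exact absurd (par_symm hp) ((hτ1 j j hj).2.2 s x hx)
    · rw [gN y hy, gC i r r.2] at hp
      exact absurd hp ((hτ1 i i hi).2.2 r y hy)
    · rw [gC i r r.2, gC j s s.2] at hp
      rcases lt_trichotomy i j with hij | hij | hij
      · exact absurd hp ((hτ2 i j hij i hi j hj).2 r s)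
      · subst hij
        exact Ppar i hi r s (by rintro h0; exact hxy (by rw [h0])) hp
      · exact absurd (par_symm hp) ((hτ2 j i hij j hj i hi).2 s r)

end Pool.Agent.Work.MP_8aa36a_lc
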