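import Pool.Agent.Work.MP_8aa36a_lc.Four.GateSound
import Pool.Agent.Work.MP_8aa36a_lc.Four.NetComplete2

/-!
Vector drawings of the graph of a list of gates.
-/

set_option autoImplicit false

namespace Pool.Agent.Work.MP_8aa36a_lc

open Pool.Agent.Work.MP_8c8e41_lc

/-- class of the vertex `s` of a node of the cluster `m` -/
def clk (m s : ℕ) : ℕ := if m = 0 then s else if m = 1 then 2 * s else 1 + s

/-- class identifier of a vertex of the template -/
def cid (z : ℕ) : ℕ :=
  if z < 22 then 3 * clk ((z / 2 - 2) / 3) (z % 2) + (z / 2 - 2) % 3 else z / 2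

/-- index of the name of the wire of colour `d` of the node `y` of the template -/
def ridx (d y : ℕ) : ℕ :=
  if y < 11 then 3 * ((y - 2) / 3) + role ((y - 2) % 3) d else (y - 11) / 9 * 3 + (y - 11) / 3 % 3

lemma ridx_tL : ∀ C ∈ tL, 2 ≤ C.2.1 ∧ C.2.1 < 38 ∧ 2 ≤ C.2.2 ∧ C.2.2 < 38 ∧ C.1 < 3 ∧
    ridx C.1 C.2.1 = ridx C.1 C.2.2 := by decide +kernel

lemma cid_tR : ∀ ab ∈ tR, 4 ≤ ab.1 ∧ ab.1 < 76 ∧ 4 ≤ ab.2 ∧ ab.2 < 76 ∧ cid ab.1 = cid ab.2 := by
  decide +kernel

lemma cid_match' : ((List.range 76).all fun z => (List.range 76).all fun z' =>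
    decide (z < 4) || decide (z' < 4) || decide (z = z') || decide (cid z ≠ cid z') ||
    decide ((z, z') ∈ tR) || decide ((z', z) ∈ tR)) = true := by
  decide +kernel

lemma cid_match (z : ℕ) (hz : z < 76) (z' : ℕ) (hz' : z' < 76) (h1 : 4 ≤ z) (h2 : 4 ≤ z')
    (hne : z ≠ z') (hc : cid z = cid z') : (z, z') ∈ tR ∨ (z', z) ∈ tR := by
  have h := cid_match'
  rw [List.all_eq_true] at h
  have h3 := h z (List.mem_range.mpr hz)
  rw [List.all_eq_true] at h3
  have h4 := h3 z' (List.mem_range.mpr hz')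
  simp only [Bool.or_eq_true, decide_eq_true_eq] at h4
  rcases h4 with ((((h4 | h4) | h4) | h4) | h4) | h4
  · omega
  · omega
  · exact absurd h4 hne
  · exact absurd hc h4
  · exact Or.inl h4
  · exact Or.inr h4

lemma rot_nz {v : V3} (h : ∀ c < 3, co c v ≠ 0) {i c : ℕ} (hi : i < 3) (hc : c < 3) :
    co c (rot i v) ≠ 0 := by
  rw [co_rot hi hc]
  exact h _ (role_lt i c)

/-- data for the completeness of gates -/
structure GSol (gs : List (List ℕ)) (t : ℕ → ℝ) (cl : ℕ → ℕ → V3) : Prop where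
  tn : ∀ k < gs.length, ∀ e < 9, t (nm gs k e) ≠ 0 ∧ t (nm gs k e) ≠ 1
  r1 : ∀ k < gs.length, ∀ c < 3, co c (cl k 1) = t (nm gs k c) * co c (cl k 0)
  r2 : ∀ k < gs.length, ∀ c < 3, co c (cl k 2) = t (nm gs k (3 + c)) * co c (cl k 0)
  r3 : ∀ k < gs.length, ∀ c < 3, co c (cl k 2) = t (nm gs k (6 + c)) * co c (cl k 1)
  sum : ∀ k < gs.length, ∀ q < 3, sum3 (cl k q) = 0
  nz : ∀ k < gs.length, ∀ q < 3, ∀ c < 3, co c (cl k q) ≠ 0
  dist : ∀ k < gs.length, ∀ k' < gs.length, ∀ q < 3, ∀ q' < 3, ∀ i < 3, ∀ i' < 3,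
    Par (rot i (cl k q)) (rot i' (cl k' q')) → k = k' ∧ q = q' ∧ i = i'
  frame : ∀ k < gs.length, ∀ q < 3, ∀ i < 3, ∀ y < 4, ¬ Par (rot i (cl k q)) (fv y)

/-- vectors of the vertices of gate `k` -/
noncomputable def gU (gs : List (List ℕ)) (t : ℕ → ℝ) (cl : ℕ → ℕ → V3) (η : ℕ → ℝ) (k z : ℕ) : V3 :=
  if z < 22 then rot ((z / 2 - 2) % 3) (cl k (clk ((z / 2 - 2) / 3) (z % 2)))
  else (if z % 2 = 0 then (1 : ℝ) else t (nm gs k ((z / 2 - 11) / 3))) •
    ((1, η (z / 2 + 36 * k), -1 - η (z / 2 + 36 * k)) : V3)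

lemma clk_lt {m s : ℕ} (hm : m < 3) (hs : s < 2) : clk m s < 3 := by
  interval_cases m <;> interval_cases s <;> decide

lemma ridx_lt {d y : ℕ} (hy : y < 38) (h2 : 2 ≤ y) (hd : d < 3) : ridx d y < 9 := by
  unfold ridx
  have := role_lt ((y - 2) % 3) d
  split <;> omega

variable {gs : List (List ℕ)} {t : ℕ → ℝ} {cl : ℕ → ℕ → V3} {η : ℕ → ℝ}

lemma gU_par_cid {k z z' : ℕ} (hz : 4 ≤ z) (hz' : 4 ≤ z') (h : cid z = cid z')
    (h1 : z < 76) (h2 : z' < 76) : Par (gU gs t cl η k z) (gU gs t cl η k z') := by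
  unfold cid at h
  unfold gU
  by_cases a : z < 22
  · rw [if_pos a] at h ⊢
    have hc := clk_lt (m := (z / 2 - 2) / 3) (s := z % 2) (by omega) (by omega)
    by_cases b : z' < 22
    · rw [if_pos b] at h ⊢
      have hc' := clk_lt (m := (z' / 2 - 2) / 3) (s := z' % 2) (by omega) (by omega)
      have e1 : (z / 2 - 2) % 3 = (z' / 2 - 2) % 3 := by omega
      have e2 : clk ((z / 2 - 2) / 3) (z % 2) = clk ((z' / 2 - 2) / 3) (z' % 2) := by omega
      rw [e1, e2]
      unfold Par; ring
    · rw [if_neg b] at h; omega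
  · rw [if_neg a] at h ⊢
    by_cases b : z' < 22
    · rw [if_pos b] at h
      have hc' := clk_lt (m := (z' / 2 - 2) / 3) (s := z' % 2) (by omega) (by omega)
      omega
    · rw [if_neg b] at h ⊢
      rw [h]
      simp only [Par, Prod.smul_mk, smul_eq_mul]
      ring

lemma gU_ratio (hG : GSol gs t cl) {k y d : ℕ} (hk : k < gs.length) (hy : 2 ≤ y) (hy2 : y < 38)
    (hd : d < 3) : co d (gU gs t cl η k (2 * y + 1)) =
      t (nm gs k (ridx d y)) * co d (gU gs t cl η k (2 * y)) := by
  have e1 : (2 * y + 1) / 2 = y := by omega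
  have e2 : (2 * y) / 2 = y := by omega
  have e3 : (2 * y + 1) % 2 = 1 := by omega
  have e4 : (2 * y) % 2 = 0 := by omega
  unfold gU ridx
  rw [e1, e2, e3, e4]
  by_cases a : y < 11
  · rw [if_pos (show 2 * y + 1 < 22 by omega), if_pos (show 2 * y < 22 by omega), if_pos a]
    obtain ⟨i, hi⟩ : ∃ i, i = (y - 2) % 3 := ⟨_, rfl⟩
    obtain ⟨m, hm⟩ : ∃ m, m = (y - 2) / 3 := ⟨_, rfl⟩
    rw [← hi, ← hm]
    have hi3 : i < 3 := by omega
    have hm3 : m < 3 := by omega
    rw [co_rot hi3 hd, co_rot hi3 hd]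
    have hr := role_lt i d
    generalize role i d = r at *
    interval_cases m
    · have := hG.r1 k hk r hr
      simpa [clk] using this
    · have := hG.r2 k hk r hr
      simpa [clk] using this
    · have := hG.r3 k hk r hr
      simpa [clk] using this
  · rw [if_neg (show ¬ 2 * y + 1 < 22 by omega), if_neg (show ¬ 2 * y < 22 by omega), if_neg a,
      if_neg (by norm_num), if_pos rfl, co_smul, co_smul, one_mul]
    congr 3
    omega

theorem gate_complete {B : ℕ} (hlen : ∀ g ∈ gs, g.length = 9) (hB : ∀ g ∈ gs, ∀ n ∈ g, n < B)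
    (hG : GSol gs t cl) : ∃ g, VDraw (gateE gs B) g := by
  classical
  have hok := gateE_ok hlen hB
  obtain ⟨K, hK⟩ : ∃ K, K = gs.length := ⟨_, rfl⟩
  have hN : gN gs.length = 2 + 36 * K := by rw [hK]; rfl
  -- generic values for the blocks
  let bad : Finset ℝ := {0, -1} ∪
    (((Finset.range K ×ˢ (Finset.range 3 ×ˢ Finset.range 3)).image fun x =>
      (rot x.2.2 (cl x.1 x.2.1)).2.1 / (rot x.2.2 (cl x.1 x.2.1)).1) ∪
    (Finset.range 4).image fun y => (fv y).2.1 / (fv y).1)
  have hinf : (↑bad : Set ℝ)ᶜ.Infinite := Set.Finite.infinite_compl (Finset.finite_toSet bad)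
  obtain ⟨η, hη⟩ : ∃ η : ℕ → ℝ, η = fun n => (hinf.natEmbedding _ n : ℝ) := ⟨_, rfl⟩
  have hinj : ∀ a b, η a = η b → a = b := by
    intro a b h
    rw [hη] at h
    exact (hinf.natEmbedding _).injective (Subtype.ext h)
  have hbad : ∀ n, η n ∉ bad := by
    intro n
    rw [hη]
    exact (hinf.natEmbedding _ n).2
  have η0 : ∀ n, η n ≠ 0 := fun n h => hbad n (by rw [h]; simp [bad])
  have η1 : ∀ n, η n ≠ -1 := fun n h => hbad n (by rw [h]; simp [bad])
  have ηcl : ∀ n, ∀ k < K, ∀ q < 3, ∀ i < 3, η n * (rot i (cl k q)).1 ≠ (rot i (cl k q)).2.1 := by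
    intro n k hk q hq i hi h
    apply hbad n
    have h0 : (rot i (cl k q)).1 ≠ 0 := by
      exact rot_nz (c := 0) (hG.nz k (by omega) q hq) hi (by norm_num)
    simp only [bad, Finset.mem_union, Finset.mem_image]
    right; left
    refine ⟨(k, q, i), ?_, ?_⟩
    · simp only [Finset.mem_product, Finset.mem_range]
      exact ⟨hk, hq, hi⟩
    · simp only
      rw [div_eq_iff h0, h]
  have ηfv : ∀ n, ∀ y < 4, η n * (fv y).1 ≠ (fv y).2.1 := by
    intro n y hy h
    apply hbad n
    have h0 : (fv y).1 ≠ 0 := fv_nz (x := y) (c := 0) (by norm_num)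
    simp only [bad, Finset.mem_union, Finset.mem_image]
    right; right
    refine ⟨y, Finset.mem_range.mpr hy, ?_⟩
    rw [div_eq_iff h0, h]
  obtain ⟨U, hU⟩ : ∃ U : ℕ → ℕ → V3, U = gU gs t cl η := ⟨_, rfl⟩
  let u : ℕ → V3 := fun x => U ((x - 4) / 72) (4 + (x - 4) % 72)
  have hu : ∀ k z, 4 ≤ z → z < 76 → u (z + 72 * k) = U k z := by
    intro k z h1 h2
    simp only [u]
    congr 1 <;> omega
  have hx : ∀ x, 4 ≤ x → x < 2 * gN gs.length → ∃ k < K, ∃ z, 4 ≤ z ∧ z < 76 ∧ x = z + 72 * k := by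
    intro x h1 h2
    exact ⟨(x - 4) / 72, by omega, 4 + (x - 4) % 72, by omega, by omega, by omega⟩
  have Usum : ∀ k < K, ∀ z, 4 ≤ z → z < 76 → sum3 (U k z) = 0 := by
    intro k hk z h1 h2
    rw [hU]; unfold gU
    split
    · rw [sum_rot]
      exact hG.sum k (by omega) _ (clk_lt (by omega) (by omega))
    · simp only [sum3, Prod.smul_mk, smul_eq_mul]; ring
  have Unz : ∀ k < K, ∀ z, 4 ≤ z → z < 76 → ∀ c < 3, co c (U k z) ≠ 0 := by
    intro k hk z h1 h2 c hc
    rw [hU]; unfold gU
    split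
    · exact rot_nz (hG.nz k (by omega) _ (clk_lt (by omega) (by omega))) (by omega) hc
    · rw [co_smul]
      apply mul_ne_zero
      · split
        · norm_num
        · exact (hG.tn k (by omega) _ (by omega)).1
      · have a1 := η0 (z / 2 + 36 * k)
        have a2 := η1 (z / 2 + 36 * k)
        interval_cases c
        · simp
        · simpa using a1
        · simp only [co_two]; intro h0; apply a2; linarith
  refine net_complete hok u ?_ ?_ ?_ ?_ ?_ ?_ ?_
  · intro x h1 h2
    obtain ⟨k, hk, z, hz1, hz2, rfl⟩ := hx x h1 h2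
    rw [hu k z hz1 hz2]; exact Usum k hk z hz1 hz2
  · intro x h1 h2
    obtain ⟨k, hk, z, hz1, hz2, rfl⟩ := hx x h1 h2
    rw [hu k z hz1 hz2]; exact Unz k hk z hz1 hz2
  · intro n h1 h2 c hc
    obtain ⟨k, hk, z, hz1, hz2, hz⟩ := hx (2 * n) (by omega) (by omega)
    have hy : z = 2 * (z / 2) := by omega
    obtain ⟨y, hy'⟩ : ∃ y, y = z / 2 := ⟨_, rfl⟩
    rw [← hy'] at hy
    subst hy
    rw [show 2 * n + 1 = (2 * y + 1) + 72 * k by omega, hz, hu k _ hz1 hz2,
      hu k _ (by omega) (by omega), hU, gU_ratio hG (by omega) (by omega) (by omega) hc]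
    intro h0
    have hne : co c (gU gs t cl η k (2 * y)) ≠ 0 := by rw [← hU]; exact Unz k hk _ hz1 hz2 c hc
    apply (hG.tn k (by omega) (ridx c y) (ridx_lt (by omega) (by omega) hc)).2
    have : (t (nm gs k (ridx c y)) - 1) * co c (gU gs t cl η k (2 * y)) = 0 := by linarith
    rcases mul_eq_zero.mp this with h3 | h3
    · linarith
    · exact absurd h3 hne
  · intro C hC h1 h2
    rcases List.mem_cons.mp hC with rfl | hC
    · simp at h1
    rcases List.mem_append.mp hC with hC | hC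
    · obtain ⟨k, hk, hC⟩ := List.mem_flatMap.mp hC
      rw [List.mem_range, ← hK] at hk
      obtain ⟨⟨c, a, b⟩, hC', rfl⟩ := List.mem_map.mp hC
      obtain ⟨a1, a2, b1, b2, hc, hr⟩ := ridx_tL _ hC'
      simp only at a1 a2 b1 b2 hc hr ⊢
      rw [show 2 * (a + 36 * k) + 1 = (2 * a + 1) + 72 * k by ring,
        show 2 * (b + 36 * k) + 1 = (2 * b + 1) + 72 * k by ring,
        show 2 * (b + 36 * k) = (2 * b) + 72 * k by ring,
        show 2 * (a + 36 * k) = (2 * a) + 72 * k by ring,
        hu k _ (by omega) (by omega), hu k _ (by omega) (by omega), hu k _ (by omega) (by omega),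
        hu k _ (by omega) (by omega), hU, gU_ratio hG (by omega) a1 a2 hc,
        gU_ratio hG (by omega) b1 b2 hc, hr]
      ring
    · obtain ⟨v, hv, hC⟩ := List.mem_flatMap.mp hC
      obtain ⟨p, hp, rfl⟩ := List.mem_map.mp hC
      have hp1 := (List.of_mem_zip hp).1
      have hp2 : p.2 ∈ ((gUs gs).filter fun x => x.1 = v).map fun x => x.2 := by
        have := (List.of_mem_zip hp).2
        rcases List.mem_append.mp this with h | h
        · exact List.mem_of_mem_tail h
        · exact List.mem_of_mem_take h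
      have hbs : ∀ b ∈ ((gUs gs).filter fun x => x.1 = v).map fun x => x.2,
          ∃ k < K, ∃ e < 9, v = nm gs k e ∧ b = 11 + 3 * e + 36 * k := by
        intro b hb
        obtain ⟨x, hx, rfl⟩ := List.mem_map.mp hb
        rw [List.mem_filter] at hx
        obtain ⟨hx1, hx2⟩ := hx
        obtain ⟨k, hk, e, he, rfl⟩ := (mem_gUs hlen).mp hx1
        refine ⟨k, by omega, e, he, ?_, ?_⟩
        · exact (by simpa using hx2 : nm gs k e = v).symm
        · simp only; omega
      obtain ⟨k, hk, e, he, hn1, h1⟩ := hbs _ hp1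
      obtain ⟨k', hk', e', he', hn2, h2⟩ := hbs _ hp2
      simp only
      rw [h1, h2, show 2 * (11 + 3 * e + 36 * k + 2) + 1 = (2 * (13 + 3 * e) + 1) + 72 * k by ring,
        show 2 * (11 + 3 * e' + 36 * k') + 1 = (2 * (11 + 3 * e') + 1) + 72 * k' by ring,
        show 2 * (11 + 3 * e' + 36 * k') = (2 * (11 + 3 * e')) + 72 * k' by ring,
        show 2 * (11 + 3 * e + 36 * k + 2) = (2 * (13 + 3 * e)) + 72 * k by ring,
        hu k _ (by omega) (by omega), hu k' _ (by omega) (by omega),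
        hu k' _ (by omega) (by omega), hu k _ (by omega) (by omega), hU,
        gU_ratio hG (by omega) (by omega) (by omega) (by norm_num),
        gU_ratio hG (by omega) (by omega) (by omega) (by norm_num)]
      have e1 : ridx 1 (13 + 3 * e) = e := by unfold ridx; rw [if_neg (by omega)]; omega
      have e2 : ridx 1 (11 + 3 * e') = e' := by unfold ridx; rw [if_neg (by omega)]; omega
      rw [e1, e2, ← hn1, ← hn2]
      ring
  · intro ab hab
    obtain ⟨k, hk, hab⟩ := List.mem_flatMap.mp hab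
    obtain ⟨⟨a, b⟩, hab', rfl⟩ := List.mem_map.mp hab
    obtain ⟨a1, a2, b1, b2, hc⟩ := cid_tR _ hab'
    simp only at a1 a2 b1 b2 hc ⊢
    rw [hu k _ a1 a2, hu k _ b1 b2, hU]
    exact gU_par_cid a1 b1 hc a2 b2
  · intro x y hx1 hx2 hy1 hy2 hxy hp
    obtain ⟨k, hk, z, z1, z2, rfl⟩ := hx x hx1 hx2
    obtain ⟨k', hk', z', z1', z2', rfl⟩ := hx y hy1 hy2
    rw [hu k z z1 z2, hu k' z' z1' z2', hU] at hp
    have key : k = k' ∧ cid z = cid z' := by
      unfold gU at hp
      by_cases a : z < 22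
      · rw [if_pos a] at hp
        have hc := clk_lt (m := (z / 2 - 2) / 3) (s := z % 2) (by omega) (by omega)
        by_cases b : z' < 22
        · rw [if_pos b] at hp
          have hc' := clk_lt (m := (z' / 2 - 2) / 3) (s := z' % 2) (by omega) (by omega)
          obtain ⟨d1, d2, d3⟩ := hG.dist k (by omega) k' (by omega) _ hc _ hc' _ (by omega) _
            (by omega) hp
          refine ⟨d1, ?_⟩
          unfold cid
          rw [if_pos a, if_pos b, d2, d3]
        · exfalso
          rw [if_neg b] at hp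
          have hs : (if z' % 2 = 0 then (1 : ℝ) else t (nm gs k' ((z' / 2 - 11) / 3))) ≠ 0 := by
            split
            · norm_num
            · exact (hG.tn k' (by omega) _ (by omega)).1
          apply ηcl (z' / 2 + 36 * k') k hk _ hc _ (show (z / 2 - 2) % 3 < 3 by omega)
          simp only [Par, Prod.smul_mk, smul_eq_mul, mul_one] at hp
          apply mul_left_cancel₀ hs
          linarith
      · rw [if_neg a] at hp
        have hs : (if z % 2 = 0 then (1 : ℝ) else t (nm gs k ((z / 2 - 11) / 3))) ≠ 0 := by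
          split
          · norm_num
          · exact (hG.tn k (by omega) _ (by omega)).1
        by_cases b : z' < 22
        · exfalso
          rw [if_pos b] at hp
          have hc' := clk_lt (m := (z' / 2 - 2) / 3) (s := z' % 2) (by omega) (by omega)
          apply ηcl (z / 2 + 36 * k) k' hk' _ hc' _ (show (z' / 2 - 2) % 3 < 3 by omega)
          simp only [Par, Prod.smul_mk, smul_eq_mul, mul_one] at hp
          apply mul_left_cancel₀ hs
          rw [hp]; ring
        · rw [if_neg b] at hp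
          have hs' : (if z' % 2 = 0 then (1 : ℝ) else t (nm gs k' ((z' / 2 - 11) / 3))) ≠ 0 := by
            split
            · norm_num
            · exact (hG.tn k' (by omega) _ (by omega)).1
          simp only [Par, Prod.smul_mk, smul_eq_mul, mul_one] at hp
          have h3 : η (z / 2 + 36 * k) = η (z' / 2 + 36 * k') := by
            apply mul_left_cancel₀ (mul_ne_zero hs hs')
            linarith
          have h4 := hinj _ _ h3
          have h5 : k = k' := by omega
          refine ⟨h5, ?_⟩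
          unfold cid
          rw [if_neg a, if_neg b]
          omega
    obtain ⟨rfl, hc⟩ := key
    rcases cid_match z z2 z' z2' z1 z1' (by omega) hc with h | h
    · left; exact gR_mem (by omega) h
    · right; exact gR_mem (by omega) h
  · intro x h1 h2 y hy hp
    obtain ⟨k, hk, z, z1, z2, rfl⟩ := hx x h1 h2
    rw [hu k z z1 z2, hU] at hp
    unfold gU at hp
    split at hp
    · exact hG.frame k (by omega) _ (clk_lt (by omega) (by omega)) _ (by omega) y hy hp
    · have hs : (if z % 2 = 0 then (1 : ℝ) else t (nm gs k ((z / 2 - 11) / 3))) ≠ 0 := by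
        split
        · norm_num
        · exact (hG.tn k (by omega) _ (by omega)).1
      apply ηfv (z / 2 + 36 * k) y hy
      simp only [Par, Prod.smul_mk, smul_eq_mul, mul_one] at hp
      apply mul_left_cancel₀ hs
      rw [hp]; ring

end Pool.Agent.Work.MP_8aa36a_lc
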