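import Pool.Agent.Work.MP_8aa36a_lc.Four.Points
import Pool.Agent.Work.MP_8aa36a_lc.Four.GateComplete
import Pool.Agent.Work.MP_8aa36a_lc.Four.Classes

/-!
The reduction to graphs with four colours, and its correctness.
-/

set_option autoImplicit false

namespace Pool.Agent.Work.MP_8aa36a_lc

open Pool.Agent.Work.MP_8c8e41_lc

/-! ### indices of the gates -/

lemma flat3 {α β : Type*} (F : α → List β) (g : α → ℕ → β)
    (hF : ∀ a, F a = [g a 0, g a 1, g a 2]) (l : List α) (k : ℕ) :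
    (l.flatMap F)[k]? = (l[k / 3]?).map (fun a => g a (k % 3)) := by
  induction l generalizing k with
  | nil => simp
  | cons a l ih =>
    rw [List.flatMap_cons, hF]
    by_cases hk : k < 3
    · have e : k / 3 = 0 := by omega
      rw [e]
      interval_cases k <;> simp
    · obtain ⟨m, rfl⟩ : ∃ m, k = m + 3 := ⟨k - 3, by omega⟩
      have e1 : (m + 3) / 3 = m / 3 + 1 := by omega
      have e2 : (m + 3) % 3 = m % 3 := by omega
      rw [e1, e2]
      have e3 : ([g a 0, g a 1, g a 2] ++ l.flatMap F)[m + 3]? = (l.flatMap F)[m]? := by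
        simp [List.getElem?_append_right]
      rw [e3, ih]
      simp

/-- the three pairs of a triple -/
def pr3 (t : Tri) (γ : ℕ) : ℕ × ℕ :=
  if γ = 0 then (t.1, t.2.1) else if γ = 1 then (t.1, t.2.2) else (t.2.1, t.2.2)

lemma gates3_get (T : List Tri) (k : ℕ) (hk : k < (gates3 T).length) :
    ∃ hj : k / 3 < T.length, (gates3 T)[k] =
      ((pr3 T[k / 3] (k % 3)).1, (pr3 T[k / 3] (k % 3)).2, 2 * (k / 3) + 1) := by
  have h := flat3 (fun tj : Tri × ℕ => [(tj.1.1, tj.1.2.1, 2 * tj.2 + 1),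
    (tj.1.1, tj.1.2.2, 2 * tj.2 + 1), (tj.1.2.1, tj.1.2.2, 2 * tj.2 + 1)])
    (fun tj γ => ((pr3 tj.1 γ).1, (pr3 tj.1 γ).2, 2 * tj.2 + 1)) (fun a => rfl) T.zipIdx k
  have h1 : (gates3 T)[k]? = some (gates3 T)[k] := List.getElem?_eq_getElem hk
  unfold gates3 at h1 ⊢
  rw [h] at h1
  rw [Option.map_eq_some_iff] at h1
  obtain ⟨⟨t, j⟩, h2, h3⟩ := h1
  rw [List.getElem?_zipIdx, Option.map_eq_some_iff] at h2
  obtain ⟨a, h4, h5⟩ := h2
  obtain ⟨hj, ha⟩ := List.getElem?_eq_some_iff.mp h4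
  refine ⟨hj, ?_⟩
  rw [← h3]
  simp only [Prod.mk.injEq, zero_add] at h5
  obtain ⟨rfl, rfl⟩ := h5
  simp only [ha]

/-- a point of a triple -/
def pt3 (g : Tri) (c : ℕ) : ℕ := if c = 0 then g.1 else if c = 1 then g.2.1 else g.2.2

lemma nm_g {G : List Tri} {k : ℕ} (hk : k < G.length) {c : ℕ} (hc : c < 3) :
    nm (gateNames G) k c = lam (pt3 G[k] c) ∧ nm (gateNames G) k (3 + c) = lam' (pt3 G[k] c) ∧
    nm (gateNames G) k (6 + c) = 9 * k + 3 * c + 2 := by
  rw [nm_gateNames hk, nm_gateNames hk, nm_gateNames hk]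
  interval_cases c
  · exact ⟨rfl, rfl, rfl⟩
  · exact ⟨rfl, rfl, rfl⟩
  · exact ⟨rfl, rfl, rfl⟩

/-- coefficients of the relation of a gate -/
noncomputable def cof (γ : ℕ) (ρ σ τ : ℝ) (c : ℕ) : ℝ :=
  if γ = 0 then (if c = 0 then 1 else if c = 1 then τ else -1)
  else if γ = 1 then (if c = 0 then σ - ρ * τ else if c = 1 then τ else -σ)
  else (if c = 0 then ρ * τ - σ else if c = 1 then 1 else -ρ)

/-- the coordinates of the class vectors -/
lemma cV_co {γ c : ℕ} (hγ : γ < 3) (hc : c < 3) (ρ σ a b τ : ℝ) :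
    co c (cV γ ρ σ a b τ) = cof γ ρ σ τ c *
      (if c = 2 then a + τ * b else if c = 0 then (if γ = 2 then b else a)
        else (if γ = 0 then b else ρ * a + σ * b)) := by
  interval_cases γ <;> interval_cases c <;> simp [cV, cA, cB, cof] <;> ring

lemma span_coef {P Q R : V3} (h : det3 P Q R = 0) (h1 : Indep P Q) (h2 : Indep P R)
    (h3 : Indep Q R) : ∃ ρ σ : ℝ, R = ρ • P + σ • Q ∧ ρ ≠ 0 ∧ σ ≠ 0 := by
  obtain ⟨s, t, hR⟩ := in_span h1 h
  refine ⟨s, t, hR, ?_, ?_⟩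
  · rintro rfl
    obtain ⟨X, hX⟩ := h3
    apply hX
    rw [hR, zero_smul, zero_add, det3_smul2, det3_self12, mul_zero]
  · rintro rfl
    obtain ⟨X, hX⟩ := h2
    apply hX
    rw [hR, zero_smul, add_zero, det3_smul2, det3_self12, mul_zero]

/-- completeness for points in general -/
theorem gsol_of_points {T : List Tri} {X : ℕ → V3} (heven : ∀ s ∈ T, s.1 % 2 = 0 ∧
      s.2.1 % 2 = 0 ∧ s.2.2 % 2 = 0)
    (hT : ∀ s ∈ T, DetZ X s ∧ Indep3 X s) {f : ℕ → V3 → ℝ}
    (hlin : ∀ q a b P Q, f q (a • P + b • Q) = a * f q P + b * f q Q)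
    (hf0 : ∀ s ∈ T, ∀ c < 3, ∀ q < 3, f q (X (pt3 s c)) ≠ 0)
    (hfd : ∀ s ∈ T, ∀ c < 3, f 0 (X (pt3 s c)) ≠ f 1 (X (pt3 s c)) ∧
      f 0 (X (pt3 s c)) ≠ f 2 (X (pt3 s c)) ∧ f 1 (X (pt3 s c)) ≠ f 2 (X (pt3 s c)))
    (hfl : ∀ s ∈ T, f 0 (X s.1) * f 1 (X s.2.1) ≠ f 1 (X s.1) * f 0 (X s.2.1) ∧
      f 0 (X s.1) * f 2 (X s.2.1) ≠ f 2 (X s.1) * f 0 (X s.2.1) ∧
      f 1 (X s.1) * f 2 (X s.2.1) ≠ f 2 (X s.1) * f 1 (X s.2.1))
    (h1 : f 1 (X 2) / f 0 (X 2) = f 1 (X 0) / f 0 (X 0))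
    (h2 : f 2 (X 14) / f 0 (X 14) = f 2 (X 0) / f 0 (X 0)) :
    ∃ (t : ℕ → ℝ) (cl : ℕ → ℕ → V3), GSol (gateNames (gates3 T)) t cl := by
  classical
  have hex : ∀ j : ℕ, ∃ rs : ℝ × ℝ, ∀ hj : j < T.length,
      X T[j].2.2 = rs.1 • X T[j].1 + rs.2 • X T[j].2.1 ∧ rs.1 ≠ 0 ∧ rs.2 ≠ 0 := by
    intro j
    by_cases hj : j < T.length
    · obtain ⟨hd, i1, i2, i3⟩ := hT _ (List.getElem_mem hj)
      obtain ⟨ρ, σ, hR, hρ, hσ⟩ := span_coef hd i1 i2 i3
      exact ⟨(ρ, σ), fun _ => ⟨hR, hρ, hσ⟩⟩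
    · exact ⟨(0, 0), fun h => absurd h hj⟩
  choose rs hrs using hex
  let A : ℕ → ℕ → ℝ := fun j q => f q (X (T.getD j (0, 0, 0)).1)
  let B : ℕ → ℕ → ℝ := fun j q => f q (X (T.getD j (0, 0, 0)).2.1)
  have hA : ∀ j (hj : j < T.length) q, A j q = f q (X T[j].1) := by
    intro j hj q; simp [A, hj]
  have hB : ∀ j (hj : j < T.length) q, B j q = f q (X T[j].2.1) := by
    intro j hj q; simp [B, hj]
  have hR : ∀ j (hj : j < T.length) q, (rs j).1 * A j q + (rs j).2 * B j q = f q (X T[j].2.2) := by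
    intro j hj q
    rw [hA j hj, hB j hj, (hrs j hj).1, hlin]
  have hOK : ∀ j < T.length, ClOK (rs j).1 (rs j).2 (A j) (B j) := by
    intro j hj
    have hm := List.getElem_mem hj
    obtain ⟨l1, l2, l3⟩ := hfl _ hm
    obtain ⟨d1, d2, d3⟩ := hfd _ hm 0 (by norm_num)
    refine ⟨(hrs j hj).2.1, (hrs j hj).2.2, ?_, ?_, ?_, ?_, ?_⟩
    · intro q hq; rw [hA j hj]; exact hf0 _ hm 0 (by norm_num) q hq
    · intro q hq; rw [hB j hj]; exact hf0 _ hm 1 (by norm_num) q hq
    · intro q hq; rw [hR j hj]; exact hf0 _ hm 2 (by norm_num) q hq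
    · intro q hq q' hq' hqq
      rw [hA j hj, hB j hj, hA j hj, hB j hj]
      interval_cases q <;> interval_cases q'
      · exact absurd rfl hqq
      · exact l1
      · exact l2
      · intro h; exact l1 (by linarith)
      · exact absurd rfl hqq
      · exact l3
      · intro h; exact l2 (by linarith)
      · intro h; exact l3 (by linarith)
      · exact absurd rfl hqq
    · intro q hq q' hq' hqq
      rw [hA j hj, hA j hj]
      interval_cases q <;> interval_cases q'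
      · exact absurd rfl hqq
      · exact d1
      · exact d2
      · exact d1.symm
      · exact absurd rfl hqq
      · exact d3
      · exact d2.symm
      · exact d3.symm
      · exact absurd rfl hqq
  let Z : Finset V3 := (Finset.range 4).image fv
  have hZ : ∀ K ∈ Z, sum3 K = 0 ∧ ∃ d < 3, co d K ≠ 0 := by
    intro K hK
    obtain ⟨y, -, rfl⟩ := Finset.mem_image.mp hK
    exact ⟨fv_sum y, 0, by norm_num, fv_nz (by norm_num)⟩
  obtain ⟨τ, hg, hgd⟩ := exists_generic Z hZ (fun j => (rs j).1) (fun j => (rs j).2) A B T.length hOK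
  -- all points
  let Y : ℕ → V3 := fun m => if m % 2 = 1 then
    (1 : ℝ) • X (T.getD (m / 2) (0, 0, 0)).1 + τ (m / 2) • X (T.getD (m / 2) (0, 0, 0)).2.1 else X m
  have hYe : ∀ m, m % 2 = 0 → Y m = X m := by
    intro m hm; simp only [Y]; rw [if_neg (by omega)]
  have hYo : ∀ j (hj : j < T.length) q, f q (Y (2 * j + 1)) = A j q + τ j * B j q := by
    intro j hj q
    have e1 : (2 * j + 1) % 2 = 1 := by omega
    have e2 : (2 * j + 1) / 2 = j := by omega
    simp only [Y, e1, e2, if_true]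
    rw [hlin, one_mul]
  obtain ⟨G, hG⟩ : ∃ G, G = gates3 T := ⟨_, rfl⟩
  let t : ℕ → ℝ := fun n => if n % 3 = 0 then f 1 (Y (n / 3)) / f 0 (Y (n / 3))
    else if n % 3 = 1 then f 2 (Y (n / 3)) / f 0 (Y (n / 3))
    else f 2 (Y (pt3 (G.getD (n / 9) (0, 0, 0)) (n / 3 % 3))) /
      f 1 (Y (pt3 (G.getD (n / 9) (0, 0, 0)) (n / 3 % 3)))
  have t1 : ∀ m, t (lam m) = f 1 (Y m) / f 0 (Y m) := by
    intro m
    unfold lam
    split
    · rename_i h; subst h
      rw [hYe 0 rfl, ← h1, ← hYe 2 rfl]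
      simp [t]
    · have e1 : (3 * m) % 3 = 0 := by omega
      have e2 : (3 * m) / 3 = m := by omega
      simp only [t, e1, e2, if_true]
  have t2 : ∀ m, t (lam' m) = f 2 (Y m) / f 0 (Y m) := by
    intro m
    unfold lam'
    split
    · rename_i h; subst h
      rw [hYe 0 rfl, ← h2, ← hYe 14 rfl]
      simp [t]
    · have e1 : (3 * m + 1) % 3 = 1 := by omega
      have e2 : (3 * m + 1) / 3 = m := by omega
      simp only [t, e1, e2, if_true, one_ne_zero, if_false]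
  have t3 : ∀ k (hk : k < G.length), ∀ c < 3, t (9 * k + 3 * c + 2) =
      f 2 (Y (pt3 G[k] c)) / f 1 (Y (pt3 G[k] c)) := by
    intro k hk c hc
    have e1 : (9 * k + 3 * c + 2) % 3 = 2 := by omega
    have e2 : (9 * k + 3 * c + 2) / 9 = k := by omega
    have e3 : (9 * k + 3 * c + 2) / 3 % 3 = c := by omega
    have e4 : G.getD k (0, 0, 0) = G[k] := by simp [hk]
    simp only [t, e1, e2, e3, e4]
    norm_num
  let cl : ℕ → ℕ → V3 := fun k q => cV (k % 3) (rs (k / 3)).1 (rs (k / 3)).2 (A (k / 3) q)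
    (B (k / 3) q) (τ (k / 3))
  have hKl : (gateNames (gates3 T)).length = G.length := by rw [gateNames_length, hG]
  have hj : ∀ k < G.length, k / 3 < T.length := by
    intro k hk
    subst hG
    exact (gates3_get T k hk).1
  -- values of the functionals at the points of the gates
  have hval : ∀ k (hk : k < G.length), ∀ c < 3, ∀ q, f q (Y (pt3 G[k] c)) =
      (if c = 2 then A (k / 3) q + τ (k / 3) * B (k / 3) q
        else if c = 0 then (if k % 3 = 2 then B (k / 3) q else A (k / 3) q)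
        else (if k % 3 = 0 then B (k / 3) q else (rs (k / 3)).1 * A (k / 3) q +
          (rs (k / 3)).2 * B (k / 3) q)) := by
    intro k hk c hc q
    subst hG
    obtain ⟨hj, hGk⟩ := gates3_get T k hk
    obtain ⟨v1, v2, v3⟩ := heven _ (List.getElem_mem hj)
    rw [hGk]
    have hγ : k % 3 < 3 := Nat.mod_lt _ (by norm_num)
    interval_cases c
    · simp only [pt3, if_true]
      rw [if_neg (by norm_num)]
      generalize k % 3 = γ at *
      interval_cases γ
      · simp only [pr3, if_true]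
        rw [if_neg (by norm_num), hYe _ v1, hA _ hj]
      · simp only [pr3, if_true, one_ne_zero, if_false]
        rw [if_neg (by norm_num), hYe _ v1, hA _ hj]
      · have e0 : ¬ (2 : ℕ) = 1 := by norm_num
        simp only [pr3, if_true, OfNat.ofNat_ne_zero, if_false, e0]
        rw [hYe _ v2, hB _ hj]
    · simp only [pt3, if_true, one_ne_zero, if_false]
      rw [if_neg (by norm_num)]
      generalize k % 3 = γ at *
      interval_cases γ
      · simp only [pr3, if_true]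
        rw [hYe _ v2, hB _ hj]
      · simp only [pr3, if_true, one_ne_zero, if_false]
        rw [hYe _ v3, hR _ hj]
      · have e0 : ¬ (2 : ℕ) = 1 := by norm_num
        simp only [pr3, OfNat.ofNat_ne_zero, if_false, e0]
        rw [hYe _ v3, hR _ hj]
    · have e0 : ¬ (2 : ℕ) = 1 := by norm_num
      simp only [pt3, if_true, OfNat.ofNat_ne_zero, if_false, e0]
      exact hYo _ hj q
  have hco : ∀ k (hk : k < G.length), ∀ c < 3, ∀ q, co c (cl k q) =
      cof (k % 3) (rs (k / 3)).1 (rs (k / 3)).2 (τ (k / 3)) c * f q (Y (pt3 G[k] c)) := by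
    intro k hk c hc q
    rw [hval k hk c hc]
    exact cV_co (Nat.mod_lt _ (by norm_num)) hc _ _ _ _ _
  have hnz : ∀ k (hk : k < G.length), ∀ c < 3, ∀ q < 3, f q (Y (pt3 G[k] c)) ≠ 0 := by
    intro k hk c hc q hq h0
    have h3 := (hg _ (hj k hk)).nz (k % 3) (Nat.mod_lt _ (by norm_num)) q hq c hc
    apply h3
    have h4 := hco k hk c hc q
    rw [h0, mul_zero] at h4
    exact h4
  have hne : ∀ k (hk : k < G.length), ∀ c < 3, f 0 (Y (pt3 G[k] c)) ≠ f 1 (Y (pt3 G[k] c)) ∧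
      f 0 (Y (pt3 G[k] c)) ≠ f 2 (Y (pt3 G[k] c)) ∧
      f 1 (Y (pt3 G[k] c)) ≠ f 2 (Y (pt3 G[k] c)) := by
    intro k hk c hc
    have hm := List.getElem_mem (hj k hk)
    rw [hval k hk c hc, hval k hk c hc, hval k hk c hc]
    interval_cases c
    · have e0 : ¬ (0 : ℕ) = 2 := by norm_num
      simp only [if_true, if_false, e0]
      split
      · rw [hB _ (hj k hk), hB _ (hj k hk), hB _ (hj k hk)]
        exact hfd _ hm 1 (by norm_num)
      · rw [hA _ (hj k hk), hA _ (hj k hk), hA _ (hj k hk)]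
        exact hfd _ hm 0 (by norm_num)
    · have e0 : ¬ (1 : ℕ) = 2 := by norm_num
      simp only [one_ne_zero, if_false, e0]
      split
      · rw [hB _ (hj k hk), hB _ (hj k hk), hB _ (hj k hk)]
        exact hfd _ hm 1 (by norm_num)
      · rw [hR _ (hj k hk), hR _ (hj k hk), hR _ (hj k hk)]
        exact hfd _ hm 2 (by norm_num)
    · simp only [if_true]
      have := (hg _ (hj k hk)).sd
      exact ⟨this 0 (by norm_num) 1 (by norm_num) (by norm_num),
        this 0 (by norm_num) 2 (by norm_num) (by norm_num),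
        this 1 (by norm_num) 2 (by norm_num) (by norm_num)⟩
  refine ⟨t, cl, ?_, ?_, ?_, ?_, ?_, ?_, ?_, ?_⟩
  · intro k hk e he
    rw [hKl] at hk
    have key : ∀ c < 3, (t (nm (gateNames (gates3 T)) k c) ≠ 0 ∧
        t (nm (gateNames (gates3 T)) k c) ≠ 1) ∧
        (t (nm (gateNames (gates3 T)) k (3 + c)) ≠ 0 ∧
        t (nm (gateNames (gates3 T)) k (3 + c)) ≠ 1) ∧
        (t (nm (gateNames (gates3 T)) k (6 + c)) ≠ 0 ∧
        t (nm (gateNames (gates3 T)) k (6 + c)) ≠ 1) := by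
      intro c hc
      subst hG
      obtain ⟨n1, n2, n3⟩ := nm_g hk hc
      obtain ⟨d1, d2, d3⟩ := hne k hk c hc
      have z0 := hnz k hk c hc 0 (by norm_num)
      have z1 := hnz k hk c hc 1 (by norm_num)
      have z2 := hnz k hk c hc 2 (by norm_num)
      rw [n1, n2, n3, t1, t2, t3 k hk c hc]
      refine ⟨⟨div_ne_zero z1 z0, ?_⟩, ⟨div_ne_zero z2 z0, ?_⟩, ⟨div_ne_zero z2 z1, ?_⟩⟩
      · rw [Ne, div_eq_one_iff_eq z0]; exact d1.symm
      · rw [Ne, div_eq_one_iff_eq z0]; exact d2.symm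
      · rw [Ne, div_eq_one_iff_eq z1]; exact d3.symm
    have h3 : e < 3 ∨ (3 ≤ e ∧ e < 6) ∨ (6 ≤ e ∧ e < 9) := by omega
    rcases h3 with h3 | ⟨h3, h4⟩ | ⟨h3, h4⟩
    · exact (key e h3).1
    · obtain ⟨c, rfl⟩ : ∃ c, e = 3 + c := ⟨e - 3, by omega⟩
      exact (key c (by omega)).2.1
    · obtain ⟨c, rfl⟩ : ∃ c, e = 6 + c := ⟨e - 6, by omega⟩
      exact (key c (by omega)).2.2
  · intro k hk c hc
    rw [hKl] at hk
    subst hG
    rw [(nm_g hk hc).1, t1, hco k hk c hc, hco k hk c hc]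
    have z0 := hnz k hk c hc 0 (by norm_num)
    field_simp
  · intro k hk c hc
    rw [hKl] at hk
    subst hG
    rw [(nm_g hk hc).2.1, t2, hco k hk c hc, hco k hk c hc]
    have z0 := hnz k hk c hc 0 (by norm_num)
    field_simp
  · intro k hk c hc
    rw [hKl] at hk
    subst hG
    rw [(nm_g hk hc).2.2, t3 k hk c hc, hco k hk c hc, hco k hk c hc]
    have z0 := hnz k hk c hc 1 (by norm_num)
    field_simp
  · intro k _ q _
    exact cV_sum _ _ _ _ _ _
  · intro k hk q hq c hc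
    rw [hKl] at hk
    exact (hg _ (hj k hk)).nz _ (Nat.mod_lt _ (by norm_num)) q hq c hc
  · intro k hk k' hk' q hq q' hq' i hi i' hi' hp
    rw [hKl] at hk hk'
    by_cases hjj : k / 3 = k' / 3
    · by_contra hne
      refine (hg _ (hj k hk)).own (k % 3) (Nat.mod_lt _ (by norm_num)) q hq i hi (k' % 3)
        (Nat.mod_lt _ (by norm_num)) q' hq' i' hi' ?_ ?_
      · rintro ⟨e1, e2, e3⟩
        exact hne ⟨by omega, e2, e3⟩
      · simp only [cl] at hp
        rw [← hjj] at hp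
        exact hp
    · exact absurd hp (hgd _ (hj k hk) _ (hj k' hk') hjj _ (Nat.mod_lt _ (by norm_num)) q hq i hi _
        (Nat.mod_lt _ (by norm_num)) q' hq' i' hi')
  · intro k hk q hq i hi y hy
    rw [hKl] at hk
    exact (hg _ (hj k hk)).av _ (Nat.mod_lt _ (by norm_num)) q hq i hi _
      (Finset.mem_image.mpr ⟨y, Finset.mem_range.mpr hy, rfl⟩)

end Pool.Agent.Work.MP_8aa36a_lc
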