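import Pool.Agent.Work.MP_8aa36a_lc.Four.NetSound

/-!
Generic choices: polynomial functions with finitely many zeros; the coupler family.
-/

set_option autoImplicit false

namespace Pool.Agent.Work.MP_8aa36a_lc

open Pool.Agent.Work.MP_8c8e41_lc

/-- polynomial functions -/
@[fun_prop]
def PF (F : ℝ → ℝ) : Prop := ∃ P : Polynomial ℝ, ∀ t, F t = P.eval t

@[fun_prop]
lemma PF.cst (c : ℝ) : PF (fun _ => c) := ⟨Polynomial.C c, fun t => by simp⟩

@[fun_prop]
lemma PF.id : PF (fun t => t) := ⟨Polynomial.X, fun t => by simp⟩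

@[fun_prop]
lemma PF.add {F G : ℝ → ℝ} (hF : PF F) (hG : PF G) : PF (fun t => F t + G t) := by
  obtain ⟨P, hP⟩ := hF
  obtain ⟨Q, hQ⟩ := hG
  exact ⟨P + Q, fun t => by simp only [hP, hQ, Polynomial.eval_add]⟩

@[fun_prop]
lemma PF.mul {F G : ℝ → ℝ} (hF : PF F) (hG : PF G) : PF (fun t => F t * G t) := by
  obtain ⟨P, hP⟩ := hF
  obtain ⟨Q, hQ⟩ := hG
  exact ⟨P * Q, fun t => by simp only [hP, hQ, Polynomial.eval_mul]⟩

@[fun_prop]
lemma PF.neg {F : ℝ → ℝ} (hF : PF F) : PF (fun t => - F t) := by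
  obtain ⟨P, hP⟩ := hF
  exact ⟨-P, fun t => by simp only [hP, Polynomial.eval_neg]⟩

@[fun_prop]
lemma PF.sub {F G : ℝ → ℝ} (hF : PF F) (hG : PF G) : PF (fun t => F t - G t) := by
  obtain ⟨P, hP⟩ := hF
  obtain ⟨Q, hQ⟩ := hG
  exact ⟨P - Q, fun t => by simp only [hP, hQ, Polynomial.eval_sub]⟩

@[fun_prop]
lemma PF.pow {F : ℝ → ℝ} (hF : PF F) (n : ℕ) : PF (fun t => F t ^ n) := by
  obtain ⟨P, hP⟩ := hF
  exact ⟨P ^ n, fun t => by simp only [hP, Polynomial.eval_pow]⟩

@[fun_prop]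
lemma PF.divc {F : ℝ → ℝ} (hF : PF F) (c : ℝ) : PF (fun t => F t / c) := by
  obtain ⟨P, hP⟩ := hF
  refine ⟨P * Polynomial.C c⁻¹, fun t => ?_⟩
  simp only [hP, Polynomial.eval_mul, Polynomial.eval_C, div_eq_mul_inv]

lemma PF.finite {F : ℝ → ℝ} (hF : PF F) (h : ¬ ∀ t, F t = 0) : {t | F t = 0}.Finite := by
  obtain ⟨P, hP⟩ := hF
  have hP0 : P ≠ 0 := by
    rintro rfl
    apply h
    intro t; rw [hP]; simp
  apply (P.roots.toFinset.finite_toSet).subset
  intro t ht
  have ht' : F t = 0 := ht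
  simp only [Finset.mem_coe, Multiset.mem_toFinset]
  rw [Polynomial.mem_roots hP0, Polynomial.IsRoot, ← hP]
  exact ht'

lemma PF.finite_eq {F G : ℝ → ℝ} (hF : PF F) (hG : PF G) (h : ¬ ∀ t, F t = G t) :
    {t | F t = G t}.Finite := by
  have := (hF.sub hG).finite (fun h0 => h fun t => sub_eq_zero.mp (h0 t))
  refine this.subset ?_
  intro t ht
  have ht' : F t = G t := ht
  show F t - G t = 0
  rw [ht', sub_self]

/-! ### the coupler family -/

noncomputable def lx (a τ : ℝ) : ℝ := (a - τ - τ ^ 2) / 2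
noncomputable def ly (a τ : ℝ) : ℝ := (τ - a - τ ^ 2) / 2
noncomputable def lz (a τ : ℝ) : ℝ := (τ ^ 2 - a - τ) / 2

@[fun_prop] lemma PF.lx (a : ℝ) : PF (fun τ => lx a τ) := by unfold MP_8aa36a_lc.lx; fun_prop
@[fun_prop] lemma PF.ly (a : ℝ) : PF (fun τ => ly a τ) := by unfold MP_8aa36a_lc.ly; fun_prop
@[fun_prop] lemma PF.lz (a : ℝ) : PF (fun τ => lz a τ) := by unfold MP_8aa36a_lc.lz; fun_prop

/-- line values in the role `0` -/
noncomputable def v0 (a b t τ : ℝ) : Fin 8 → ℝ :=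
  ![a, b, lx a τ, lx b τ, t * a, t * b, t * lx a τ, t * lx b τ]

noncomputable def v1 (a b t τ : ℝ) : Fin 6 → ℝ :=
  ![ly a τ, ly b τ, τ, t * ly a τ, t * ly b τ, t * τ]

noncomputable def v2 (a b t τ : ℝ) : Fin 6 → ℝ :=
  ![lz a τ, lz b τ, τ ^ 2, t * lz a τ, t * lz b τ, t * τ ^ 2]

variable {a b t : ℝ}

lemma v0_fin (ht0 : t ≠ 0) (ht1 : t ≠ 1) (hab : a ≠ b) (h1 : t * a ≠ a)
    (h2 : t * a ≠ b) (h3 : t * b ≠ a) (h4 : t * b ≠ b) (i j : Fin 8) (hij : i ≠ j) :
    {τ | v0 a b t τ i = v0 a b t τ j}.Finite := by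
  have h5 : t * a ≠ t * b := fun h => hab (mul_left_cancel₀ ht0 h)
  apply PF.finite_eq
  · fin_cases i <;> simp [v0] <;> fun_prop
  · fin_cases j <;> simp [v0] <;> fun_prop
  · intro h
    have e0 := h 0
    have e1 := h 1
    have e2 := h 2
    clear h
    fin_cases i <;> fin_cases j <;> simp [v0, lx, -mul_eq_mul_left_iff, -mul_eq_mul_right_iff,
      -mul_eq_zero, -zero_eq_mul] at hij e0 e1 e2
    all_goals
      first
      | exact hab (by linarith)
      | exact ht1 (by linarith)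
      | exact ht0 (by linarith)
      | exact h1 (by linarith)
      | exact h2 (by linarith)
      | exact h3 (by linarith)
      | exact h4 (by linarith)
      | exact h5 (by linarith)
      | linarith

lemma v1_fin (ht0 : t ≠ 0) (ht1 : t ≠ 1) (hab : a ≠ b) (i j : Fin 6) (hij : i ≠ j) :
    {τ | v1 a b t τ i = v1 a b t τ j}.Finite := by
  have h5 : t * a ≠ t * b := fun h => hab (mul_left_cancel₀ ht0 h)
  apply PF.finite_eq
  · fin_cases i <;> simp [v1] <;> fun_prop
  · fin_cases j <;> simp [v1] <;> fun_prop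
  · intro h
    have e0 := h 0
    have e1 := h 1
    have e2 := h 2
    clear h
    fin_cases i <;> fin_cases j <;> simp [v1, ly, -mul_eq_mul_left_iff, -mul_eq_mul_right_iff,
      -mul_eq_zero, -zero_eq_mul] at hij e0 e1 e2
    all_goals
      first
      | exact hab (by linarith)
      | exact ht1 (by linarith)
      | exact ht0 (by linarith)
      | exact h5 (by linarith)
      | linarith

lemma v2_fin (ht0 : t ≠ 0) (ht1 : t ≠ 1) (hab : a ≠ b) (i j : Fin 6) (hij : i ≠ j) :
    {τ | v2 a b t τ i = v2 a b t τ j}.Finite := by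
  have h5 : t * a ≠ t * b := fun h => hab (mul_left_cancel₀ ht0 h)
  apply PF.finite_eq
  · fin_cases i <;> simp [v2] <;> fun_prop
  · fin_cases j <;> simp [v2] <;> fun_prop
  · intro h
    have e0 := h 0
    have e1 := h 1
    have e2 := h (-1)
    clear h
    fin_cases i <;> fin_cases j <;> simp [v2, lz, -mul_eq_mul_left_iff, -mul_eq_mul_right_iff,
      -mul_eq_zero, -zero_eq_mul] at hij e0 e1 e2
    all_goals
      first
      | exact hab (by linarith)
      | exact ht1 (by linarith)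
      | exact ht0 (by linarith)
      | exact h5 (by linarith)
      | linarith

/-- internal labels of the role `0` -/
def int0 (i : Fin 8) : Prop := i = 2 ∨ i = 3 ∨ i = 6 ∨ i = 7

instance (i : Fin 8) : Decidable (int0 i) := inferInstanceAs (Decidable (_ ∨ _))

lemma v0_fin_K (ht0 : t ≠ 0) (i : Fin 8) (hi : int0 i) (K : ℝ) :
    {τ | v0 a b t τ i = K}.Finite := by
  apply PF.finite_eq
  · fin_cases i <;> simp [v0] <;> fun_prop
  · fun_prop
  · intro h
    have e0 := h 0
    have e1 := h 1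
    clear h
    fin_cases i <;> simp [v0, lx, int0, -mul_eq_mul_left_iff, -mul_eq_mul_right_iff,
      -mul_eq_zero, -zero_eq_mul] at hi e0 e1
    all_goals
      first
      | exact ht0 (by linarith)
      | linarith

lemma v1_fin_K (ht0 : t ≠ 0) (i : Fin 6) (K : ℝ) : {τ | v1 a b t τ i = K}.Finite := by
  apply PF.finite_eq
  · fin_cases i <;> simp [v1] <;> fun_prop
  · fun_prop
  · intro h
    have e0 := h 0
    have e1 := h 2
    clear h
    fin_cases i <;> simp [v1, ly, -mul_eq_mul_left_iff, -mul_eq_mul_right_iff,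
      -mul_eq_zero, -zero_eq_mul] at e0 e1
    all_goals
      first
      | exact ht0 (by linarith)
      | linarith

lemma v2_fin_K (ht0 : t ≠ 0) (i : Fin 6) (K : ℝ) : {τ | v2 a b t τ i = K}.Finite := by
  apply PF.finite_eq
  · fin_cases i <;> simp [v2] <;> fun_prop
  · fun_prop
  · intro h
    have e0 := h 0
    have e1 := h (-1)
    clear h
    fin_cases i <;> simp [v2, lz, -mul_eq_mul_left_iff, -mul_eq_mul_right_iff,
      -mul_eq_zero, -zero_eq_mul] at e0 e1
    all_goals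
      first
      | exact ht0 (by linarith)
      | linarith

/-! ### vectors -/

/-- unrotated vectors of the vertices `r < 6` of a coupler -/
noncomputable def tv (a b τ : ℝ) : Fin 6 → V3 :=
  ![(a, ly a τ, lz a τ), (lx a τ, τ, lz a τ), (lx a τ, ly a τ, τ ^ 2),
    (b, ly b τ, lz b τ), (lx b τ, τ, lz b τ), (lx b τ, ly b τ, τ ^ 2)]

lemma tv_sum (a b τ : ℝ) (r : Fin 6) : sum3 (tv a b τ r) = 0 := by
  fin_cases r <;> simp [tv, sum3, lx, ly, lz] <;> ring

lemma tv_par_fin (ha : a ≠ 0) (hb : b ≠ 0) (hab : a ≠ b) (i j : Fin 6) (hij : i ≠ j) :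
    {τ | Par (tv a b τ i) (tv a b τ j)}.Finite := by
  unfold Par
  apply PF.finite_eq
  · fin_cases i <;> fin_cases j <;> simp [tv] <;> fun_prop
  · fin_cases i <;> fin_cases j <;> simp [tv] <;> fun_prop
  · intro h
    have e0 := h 0
    have e1 := h 1
    have e2 := h (-1)
    have e3 := h 2
    have e4 := h (-2)
    clear h
    fin_cases i <;> fin_cases j <;> simp [tv, lx, ly, lz, -mul_eq_mul_left_iff,
      -mul_eq_mul_right_iff, -mul_eq_zero, -zero_eq_mul] at hij e0 e1 e2 e3 e4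
    all_goals
      first
      | exact hab (by linarith)
      | exact ha (by linarith)
      | exact hb (by linarith)
      | linarith

lemma tv_par_fin_K (ha : a ≠ 0) (hb : b ≠ 0) (i : Fin 6) {u : V3} (h1 : u.1 ≠ 0)
    (h2 : u.2.1 ≠ 0) (h3 : u.1 + u.2.1 ≠ 0) : {τ | Par (tv a b τ i) u}.Finite := by
  unfold Par
  apply PF.finite_eq
  · fin_cases i <;> simp [tv] <;> fun_prop
  · fin_cases i <;> simp [tv] <;> fun_prop
  · intro h
    have e0 := h 0
    have e1 := h 1
    have e2 := h (-1)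
    have e3 := h 2
    clear h
    fin_cases i <;> simp [tv, lx, ly, lz, -mul_eq_mul_left_iff,
      -mul_eq_mul_right_iff, -mul_eq_zero, -zero_eq_mul] at e0 e1 e2 e3
    all_goals
      first
      | exact h1 (by linarith)
      | exact h2 (by linarith)
      | exact h3 (by linarith)
      | linarith

end Pool.Agent.Work.MP_8aa36a_lc
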