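import Pool.Agent.Work.MP_8aa36a_lc.Four.Vec
import Pool.Agent.Work.MP_8aa36a_lc.Four.Gen

/-!
Generic linear functionals with two prescribed coincidences.
-/

set_option autoImplicit false

namespace Pool.Agent.Work.MP_8aa36a_lc

open Pool.Agent.Work.MP_8c8e41_lc

/-- for all but finitely many values of the parameter -/
abbrev Gene (p : ℝ → Prop) : Prop := ∀ᶠ τ in Filter.cofinite, p τ

lemma gene_iff {p : ℝ → Prop} : Gene p ↔ {τ | ¬ p τ}.Finite := Filter.eventually_cofinite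

lemma gene_lt {n : ℕ} {φ : ℕ → ℝ → Prop} (h : ∀ x < n, Gene (φ x)) :
    Gene (fun τ => ∀ x < n, φ x τ) := by
  have := (Filter.eventually_all_finset (Finset.range n) (l := Filter.cofinite)
    (p := fun x τ => φ x τ)).mpr (fun x hx => h x (Finset.mem_range.mp hx))
  filter_upwards [this] with τ hτ x hx
  exact hτ x (Finset.mem_range.mpr hx)

lemma gene_finset {ι : Type*} {S : Finset ι} {φ : ι → ℝ → Prop} (h : ∀ x ∈ S, Gene (φ x)) :
    Gene (fun τ => ∀ x ∈ S, φ x τ) := by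
  exact (Filter.eventually_all_finset S (l := Filter.cofinite) (p := fun x τ => φ x τ)).mpr h

lemma gene_ne {F : ℝ → ℝ} (h : {τ | F τ = 0}.Finite) : Gene (fun τ => F τ ≠ 0) := by
  rw [gene_iff]
  simpa using h

lemma poly6_gene (a b c : ℝ) (i i' j j' k k' : ℕ) (hd : [i, i', j, j', k, k'].Nodup)
    (h : ¬ (a = 0 ∧ b = 0 ∧ c = 0)) :
    Gene (fun θ => a * (θ ^ i - θ ^ i') + b * (θ ^ j - θ ^ j') + c * (θ ^ k - θ ^ k') ≠ 0) := by
  apply gene_ne
  let P : Polynomial ℝ := Polynomial.C a * (Polynomial.X ^ i - Polynomial.X ^ i') +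
    Polynomial.C b * (Polynomial.X ^ j - Polynomial.X ^ j') +
    Polynomial.C c * (Polynomial.X ^ k - Polynomial.X ^ k')
  simp only [List.nodup_cons, List.mem_cons, List.not_mem_nil, or_false, not_or, not_false_eq_true,
    List.nodup_nil, and_true] at hd
  obtain ⟨⟨h1, h2, h3, h4, h5⟩, ⟨h6, h7, h8, h9⟩, ⟨h10, h11, h12⟩, ⟨h13, h14⟩, h15⟩ := hd
  have hP : P ≠ 0 := by
    intro h0
    apply h
    have c0 : P.coeff i = 0 := by rw [h0]; simp
    have c1 : P.coeff j = 0 := by rw [h0]; simp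
    have c2 : P.coeff k = 0 := by rw [h0]; simp
    simp [P, Polynomial.coeff_X_pow, h1, h2, h3, h4, h5] at c0
    simp [P, Polynomial.coeff_X_pow, Ne.symm h2, Ne.symm h6, h10, h11, h12] at c1
    simp [P, Polynomial.coeff_X_pow, Ne.symm h4, Ne.symm h8, Ne.symm h11, Ne.symm h13, h15] at c2
    exact ⟨c0, c1, c2⟩
  apply (P.roots.toFinset.finite_toSet).subset
  intro t ht
  simp only [Set.mem_setOf_eq] at ht
  simp only [Finset.mem_coe, Multiset.mem_toFinset]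
  rw [Polynomial.mem_roots hP]
  simp only [P, Polynomial.IsRoot, Polynomial.eval_add, Polynomial.eval_mul, Polynomial.eval_C,
    Polynomial.eval_X, Polynomial.eval_pow, Polynomial.eval_sub]
  exact ht

lemma poly3_gene (a b c : ℝ) (i j k : ℕ) (hd : [i, j, k].Nodup) (h : ¬ (a = 0 ∧ b = 0 ∧ c = 0)) :
    Gene (fun θ => a * θ ^ i + b * θ ^ j + c * θ ^ k ≠ 0) := by
  apply gene_ne
  let P : Polynomial ℝ := Polynomial.C a * Polynomial.X ^ i + Polynomial.C b * Polynomial.X ^ j +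
    Polynomial.C c * Polynomial.X ^ k
  simp only [List.nodup_cons, List.mem_cons, List.not_mem_nil, or_false, not_or, not_false_eq_true,
    List.nodup_nil, and_true] at hd
  obtain ⟨⟨h1, h2⟩, h3⟩ := hd
  have hP : P ≠ 0 := by
    intro h0
    apply h
    have c0 : P.coeff i = 0 := by rw [h0]; simp
    have c1 : P.coeff j = 0 := by rw [h0]; simp
    have c2 : P.coeff k = 0 := by rw [h0]; simp
    simp [P, Polynomial.coeff_X_pow, h1, h2] at c0
    simp [P, Polynomial.coeff_X_pow, Ne.symm h1, h3] at c1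
    simp [P, Polynomial.coeff_X_pow, Ne.symm h2, Ne.symm h3] at c2
    exact ⟨c0, c1, c2⟩
  apply (P.roots.toFinset.finite_toSet).subset
  intro t ht
  simp only [Set.mem_setOf_eq] at ht
  simp only [Finset.mem_coe, Multiset.mem_toFinset]
  rw [Polynomial.mem_roots hP]
  simp only [P, Polynomial.IsRoot, Polynomial.eval_add, Polynomial.eval_mul, Polynomial.eval_C,
    Polynomial.eval_X, Polynomial.eval_pow]
  exact ht

/-- the functionals -/
noncomputable def fn (P0 P6 PH : V3) (θ : ℝ) (q : ℕ) (X : V3) : ℝ :=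
  if q = 0 then det3 X P6 PH * θ ^ 0 + det3 P0 X PH * θ ^ 1 + det3 P0 P6 X * θ ^ 2
  else if q = 1 then det3 X P6 PH * θ ^ 3 + det3 P0 X PH * θ ^ 7 + det3 P0 P6 X * θ ^ 5
  else det3 X P6 PH * θ ^ 20 + det3 P0 X PH * θ ^ 12 + det3 P0 P6 X * θ ^ 13

lemma fn_lin (P0 P6 PH : V3) (θ : ℝ) (q : ℕ) (a b : ℝ) (P Q : V3) :
    fn P0 P6 PH θ q (a • P + b • Q) = a * fn P0 P6 PH θ q P + b * fn P0 P6 PH θ q Q := by
  have e1 : det3 (a • P + b • Q) P6 PH = a * det3 P P6 PH + b * det3 Q P6 PH := by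
    simp only [det3, Prod.smul_fst, Prod.smul_snd, smul_eq_mul, Prod.fst_add, Prod.snd_add]; ring
  have e2 : det3 P0 (a • P + b • Q) PH = a * det3 P0 P PH + b * det3 P0 Q PH := by
    simp only [det3, Prod.smul_fst, Prod.smul_snd, smul_eq_mul, Prod.fst_add, Prod.snd_add]; ring
  have e3 : det3 P0 P6 (a • P + b • Q) = a * det3 P0 P6 P + b * det3 P0 P6 Q := by
    simp only [det3, Prod.smul_fst, Prod.smul_snd, smul_eq_mul, Prod.fst_add, Prod.snd_add]; ring
  unfold fn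
  split
  · rw [e1, e2, e3]; ring
  · split
    · rw [e1, e2, e3]; ring
    · rw [e1, e2, e3]; ring

theorem exists_functionals {P0 P6 PH : V3} (hD : det3 P0 P6 PH ≠ 0) (V : Finset V3)
    (hV : ∀ v ∈ V, v ≠ 0) (W : Finset (V3 × V3))
    (hW : ∀ w ∈ W, ¬ (det3 w.1 w.2 P0 = 0 ∧ det3 w.1 w.2 PH = 0) ∧
      ¬ (det3 w.1 w.2 P6 = 0 ∧ det3 w.1 w.2 PH = 0)) :
    ∃ f : ℕ → V3 → ℝ, (∀ q a b P Q, f q (a • P + b • Q) = a * f q P + b * f q Q) ∧
      (∀ v ∈ V, ∀ q < 3, f q v ≠ 0) ∧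
      (∀ v ∈ V, f 0 v ≠ f 1 v ∧ f 0 v ≠ f 2 v ∧ f 1 v ≠ f 2 v) ∧
      (∀ w ∈ W, f 0 w.1 * f 1 w.2 ≠ f 1 w.1 * f 0 w.2 ∧ f 0 w.1 * f 2 w.2 ≠ f 2 w.1 * f 0 w.2 ∧
        f 1 w.1 * f 2 w.2 ≠ f 2 w.1 * f 1 w.2) ∧
      f 1 P0 * f 0 PH = f 1 PH * f 0 P0 ∧ f 2 P6 * f 0 PH = f 2 PH * f 0 P6 := by
  have hnz : ∀ v : V3, v ≠ 0 → ¬ (det3 v P6 PH = 0 ∧ det3 P0 v PH = 0 ∧ det3 P0 P6 v = 0) := by
    rintro v hv ⟨h1, h2, h3⟩
    apply hv
    have hc := cramer P0 P6 PH v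
    obtain ⟨a, b, c, hp, h4, h5, h6⟩ := exists_coords hD v
    rw [hp]
    have ha : a = 0 := by
      have : det3 v P6 PH = a * det3 P0 P6 PH := by
        rw [hp]
        simp only [det3, Prod.smul_fst, Prod.smul_snd, smul_eq_mul, Prod.fst_add, Prod.snd_add]
        ring
      rw [h1] at this
      exact (mul_eq_zero.mp this.symm).resolve_right hD
    have hb : b = 0 := by
      have : det3 P0 v PH = b * det3 P0 P6 PH := by
        rw [hp]
        simp only [det3, Prod.smul_fst, Prod.smul_snd, smul_eq_mul, Prod.fst_add, Prod.snd_add]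
        ring
      rw [h2] at this
      exact (mul_eq_zero.mp this.symm).resolve_right hD
    have hc : c = 0 := by
      have : det3 P0 P6 v = c * det3 P0 P6 PH := by
        rw [hp]
        simp only [det3, Prod.smul_fst, Prod.smul_snd, smul_eq_mul, Prod.fst_add, Prod.snd_add]
        ring
      rw [h3] at this
      exact (mul_eq_zero.mp this.symm).resolve_right hD
    rw [ha, hb, hc]; simp
  -- Pluecker coordinates
  let m06 : V3 × V3 → ℝ := fun w => det3 P0 P6 PH * det3 w.1 w.2 PH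
  let m0H : V3 × V3 → ℝ := fun w => - (det3 P0 P6 PH * det3 w.1 w.2 P6)
  let m6H : V3 × V3 → ℝ := fun w => det3 P0 P6 PH * det3 w.1 w.2 P0
  have e06 : ∀ w : V3 × V3, det3 w.1 P6 PH * det3 P0 w.2 PH - det3 P0 w.1 PH * det3 w.2 P6 PH =
      m06 w := by
    intro w; simp only [m06, det3]; ring
  have e0H : ∀ w : V3 × V3, det3 w.1 P6 PH * det3 P0 P6 w.2 - det3 P0 P6 w.1 * det3 w.2 P6 PH =
      m0H w := by
    intro w; simp only [m0H, det3]; ring
  have e6H : ∀ w : V3 × V3, det3 P0 w.1 PH * det3 P0 P6 w.2 - det3 P0 P6 w.1 * det3 P0 w.2 PH =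
      m6H w := by
    intro w; simp only [m6H, det3]; ring
  have gV : Gene fun θ => ∀ v ∈ V, (∀ q < 3, fn P0 P6 PH θ q v ≠ 0) ∧
      (fn P0 P6 PH θ 0 v ≠ fn P0 P6 PH θ 1 v ∧ fn P0 P6 PH θ 0 v ≠ fn P0 P6 PH θ 2 v ∧
        fn P0 P6 PH θ 1 v ≠ fn P0 P6 PH θ 2 v) := by
    apply gene_finset
    intro v hv
    have h0 := hnz v (hV v hv)
    have a0 := poly3_gene _ _ _ 0 1 2 (by decide) h0
    have a1 := poly3_gene _ _ _ 3 7 5 (by decide) h0
    have a2 := poly3_gene _ _ _ 20 12 13 (by decide) h0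
    have b0 := poly6_gene _ _ _ 0 3 1 7 2 5 (by decide) h0
    have b1 := poly6_gene _ _ _ 0 20 1 12 2 13 (by decide) h0
    have b2 := poly6_gene _ _ _ 3 20 7 12 5 13 (by decide) h0
    filter_upwards [a0, a1, a2, b0, b1, b2] with θ a0 a1 a2 b0 b1 b2
    refine ⟨?_, ?_, ?_, ?_⟩
    · intro q hq
      interval_cases q
      · simpa only [fn, if_true] using a0
      · simpa only [fn, if_true, one_ne_zero, if_false] using a1
      · simpa [fn] using a2
    · intro h; apply b0; simp [fn] at h; linarith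
    · intro h; apply b1; simp [fn] at h; linarith
    · intro h; apply b2; simp [fn] at h; linarith
  have gW : Gene fun θ => ∀ w ∈ W,
      fn P0 P6 PH θ 0 w.1 * fn P0 P6 PH θ 1 w.2 ≠ fn P0 P6 PH θ 1 w.1 * fn P0 P6 PH θ 0 w.2 ∧
      fn P0 P6 PH θ 0 w.1 * fn P0 P6 PH θ 2 w.2 ≠ fn P0 P6 PH θ 2 w.1 * fn P0 P6 PH θ 0 w.2 ∧
      fn P0 P6 PH θ 1 w.1 * fn P0 P6 PH θ 2 w.2 ≠ fn P0 P6 PH θ 2 w.1 * fn P0 P6 PH θ 1 w.2 := by
    apply gene_finset
    intro w hw
    obtain ⟨h1, h2⟩ := hW w hw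
    have n1 : ¬ (m06 w = 0 ∧ m6H w = 0 ∧ (0 : ℝ) = 0) := by
      rintro ⟨h3, h4, -⟩
      exact h1 ⟨(mul_eq_zero.mp h4).resolve_left hD, (mul_eq_zero.mp h3).resolve_left hD⟩
    have n2 : ¬ (m06 w = 0 ∧ m0H w = 0 ∧ (0 : ℝ) = 0) := by
      rintro ⟨h3, h4, -⟩
      exact h2 ⟨(mul_eq_zero.mp (neg_eq_zero.mp h4)).resolve_left hD,
        (mul_eq_zero.mp h3).resolve_left hD⟩
    have n3 : ¬ (m06 w = 0 ∧ m0H w = 0 ∧ m6H w = 0) := by
      rintro ⟨h3, h4, -⟩
      exact n2 ⟨h3, h4, rfl⟩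
    have a0 := poly6_gene _ _ _ 7 4 6 9 1 2 (by decide) n1
    have a1 := poly6_gene _ _ _ 12 21 13 22 1 2 (by decide) n2
    have a2 := poly6_gene _ _ _ 15 27 16 25 20 17 (by decide) n3
    filter_upwards [a0, a1, a2] with θ a0 a1 a2
    have f1 := e06 w
    have f2 := e0H w
    have f3 := e6H w
    refine ⟨?_, ?_, ?_⟩
    · intro h; apply a0
      rw [← f1, ← f3]
      simp [fn] at h
      linear_combination h
    · intro h; apply a1
      rw [← f1, ← f2]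
      simp [fn] at h
      linear_combination h
    · intro h; apply a2
      rw [← f1, ← f2, ← f3]
      simp [fn] at h
      linear_combination h
  obtain ⟨θ, h1, h2⟩ := (gV.and gW).exists
  refine ⟨fn P0 P6 PH θ, fn_lin P0 P6 PH θ, fun v hv => (h1 v hv).1, fun v hv => (h1 v hv).2, h2,
    ?_, ?_⟩
  · simp [fn, det3_self12, det3_self23, det3_self13]; ring
  · simp [fn, det3_self12, det3_self23, det3_self13]; ring

end Pool.Agent.Work.MP_8aa36a_lc
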