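import Pool.Agent.Work.MP_8aa36a_lc.Four.NetComplete2

/-!
The network of a list of gates on nine names.
-/

set_option autoImplicit false

namespace Pool.Agent.Work.MP_8aa36a_lc

open Pool.Agent.Work.MP_8c8e41_lc

/-- template of the edges of colour `3` between nodes of one gate -/
def tR : List (ℕ × ℕ) :=
  [(4, 10), (5, 16), (11, 17), (6, 12), (7, 18), (13, 19), (8, 14), (9, 20), (15, 21)] ++
    (List.range 27).map fun j => (22 + 2 * j, 23 + 2 * j)

/-- template of the couplers inside one gate -/
def tL : List Cpl :=
  [(2, 11, 12), (0, 12, 13), (0, 11, 2), (1, 12, 3), (2, 13, 4),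
   (2, 14, 15), (0, 15, 16), (0, 14, 4), (1, 15, 2), (2, 16, 3),
   (2, 17, 18), (0, 18, 19), (0, 17, 3), (1, 18, 4), (2, 19, 2),
   (2, 20, 21), (0, 21, 22), (0, 20, 5), (1, 21, 6), (2, 22, 7),
   (2, 23, 24), (0, 24, 25), (0, 23, 7), (1, 24, 5), (2, 25, 6),
   (2, 26, 27), (0, 27, 28), (0, 26, 6), (1, 27, 7), (2, 28, 5),
   (2, 29, 30), (0, 30, 31), (0, 29, 8), (1, 30, 9), (2, 31, 10),
   (2, 32, 33), (0, 33, 34), (0, 32, 10), (1, 33, 8), (2, 34, 9),
   (2, 35, 36), (0, 36, 37), (0, 35, 9), (1, 36, 10), (2, 37, 8)]

/-- number of nodes for `K` gates -/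
def gN (K : ℕ) : ℕ := 2 + 36 * K

def gR (K : ℕ) : List (ℕ × ℕ) :=
  (List.range K).flatMap fun k => tR.map fun ab => (ab.1 + 72 * k, ab.2 + 72 * k)

def gLint (K : ℕ) : List Cpl :=
  (List.range K).flatMap fun k => tL.map fun C => (C.1, C.2.1 + 36 * k, C.2.2 + 36 * k)

/-- ring of couplers through the blocks with given bases -/
def ring (bs : List ℕ) : List Cpl :=
  (bs.zip (bs.tail ++ bs.take 1)).map fun p => (1, p.1 + 2, p.2)

def gLring (us : List (ℕ × ℕ)) (B : ℕ) : List Cpl :=
  (List.range B).flatMap fun v => ring ((us.filter fun x => x.1 = v).map fun x => x.2)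

def gL (K : ℕ) (us : List (ℕ × ℕ)) (B : ℕ) : List Cpl := (2, 0, 1) :: (gLint K ++ gLring us B)

/-- the bases of the blocks -/
def tB : List ℕ := [11, 14, 17, 20, 23, 26, 29, 32, 35]

def gB (K : ℕ) : List ℕ := (List.range K).flatMap fun k => tB.map fun b => b + 36 * k

/-! ### counting -/

def tile (t : List (ℕ × ℕ)) (p K : ℕ) : List (ℕ × ℕ) :=
  (List.range K).flatMap fun k => t.map fun y => (y.1, y.2 + p * k)

lemma count_shift (t : List (ℕ × ℕ)) (q c x : ℕ) :
    (t.map fun y => (y.1, y.2 + q)).count (c, x) = if q ≤ x then t.count (c, x - q) else 0 := by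
  induction t with
  | nil => simp
  | cons y t ih =>
    rw [List.map_cons, List.count_cons, ih, List.count_cons]
    obtain ⟨y1, y2⟩ := y
    by_cases hq : q ≤ x
    · rw [if_pos hq, if_pos hq]
      congr 1
      have : ((y1, y2 + q) == (c, x)) = ((y1, y2) == (c, x - q)) := by
        rw [Bool.eq_iff_iff]
        simp only [beq_iff_eq, Prod.mk.injEq]
        omega
      rw [this]
    · rw [if_neg hq, if_neg hq]
      have : ((y1, y2 + q) == (c, x)) = false := by
        rw [beq_eq_false_iff_ne]
        simp only [ne_eq, Prod.mk.injEq]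
        omega
      rw [this]; simp

lemma tile_count (t : List (ℕ × ℕ)) (lo p : ℕ) (hp : 0 < p)
    (ht : ∀ y ∈ t, lo ≤ y.2 ∧ y.2 < lo + p) (K c x : ℕ) :
    (tile t p K).count (c, x) =
      if lo ≤ x ∧ x < lo + p * K then t.count (c, lo + (x - lo) % p) else 0 := by
  have h0 : ∀ z, ¬ (lo ≤ z ∧ z < lo + p) → t.count (c, z) = 0 := by
    intro z hz
    rw [List.count_eq_zero]
    intro hmem
    exact hz (ht _ hmem)
  induction K with
  | zero =>
    simp only [tile, List.range_zero, List.flatMap_nil, List.count_nil]
    rw [if_neg (by omega)]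
  | succ K ih =>
    unfold tile at *
    rw [List.range_succ, List.flatMap_append, List.count_append, ih]
    simp only [List.flatMap_cons, List.flatMap_nil, List.append_nil]
    rw [count_shift]
    have hs : p * (K + 1) = p * K + p := Nat.mul_succ p K
    rw [hs]
    by_cases h1 : lo ≤ x ∧ x < lo + p * K
    · have h3 : lo ≤ x ∧ x < lo + (p * K + p) := by omega
      rw [if_pos h1, if_pos h3]
      by_cases h4 : p * K ≤ x
      · rw [if_pos h4, h0 (x - p * K) (by omega), add_zero]
      · rw [if_neg h4, add_zero]
    · rw [if_neg h1, zero_add]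
      by_cases h2 : lo + p * K ≤ x ∧ x < lo + p * K + p
      · have h3 : lo ≤ x ∧ x < lo + (p * K + p) := by omega
        have h4 : p * K ≤ x := by omega
        rw [if_pos h4, if_pos h3]
        congr 2
        have : x - lo = p * K + (x - lo - p * K) := by omega
        rw [this, Nat.mul_add_mod, Nat.mod_eq_of_lt (by omega)]
        omega
      · have h3 : ¬ (lo ≤ x ∧ x < lo + (p * K + p)) := by omega
        rw [if_neg h3]
        split
        · exact h0 _ (by omega)
        · rfl

lemma count_map_fst0 (l : List ℕ) (x : ℕ) : (l.map fun y => (0, y)).count (0, x) = l.count x := by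
  induction l with
  | nil => rfl
  | cons y l ih =>
    rw [List.map_cons, List.count_cons, List.count_cons, ih]
    congr 1

lemma endsR_gR (K : ℕ) : (endsR (gR K)).map (fun y => (0, y)) =
    tile ((endsR tR).map fun y => (0, y)) 72 K := by
  unfold gR endsR tile
  rw [List.flatMap_assoc, List.map_flatMap]
  congr 1

lemma tR_count : ∀ y < 76, (endsR tR).count y = if 4 ≤ y then 1 else 0 := by decide +kernel

lemma tR_range : ∀ y ∈ (endsR tR).map (fun y => (0, y)), 4 ≤ y.2 ∧ y.2 < 4 + 72 := by
  decide +kernel

lemma gR_count (K x : ℕ) : (endsR (gR K)).count x = if 4 ≤ x ∧ x < 2 * gN K then 1 else 0 := by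
  rw [← count_map_fst0, endsR_gR, tile_count _ 4 72 (by norm_num) tR_range]
  unfold gN
  by_cases h : 4 ≤ x ∧ x < 4 + 72 * K
  · rw [if_pos h, if_pos (by omega), count_map_fst0, tR_count _ (by omega), if_pos (by omega)]
  · rw [if_neg h, if_neg (by omega)]

lemma endsL_gLint (K : ℕ) : endsL (gLint K) = tile (endsL tL) 36 K := by
  unfold gLint endsL tile
  rw [List.flatMap_assoc]
  congr 1

/-- wires of the rings, in the template -/
def ringWire (c y : ℕ) : Prop := c = 1 ∧ (y ∈ tB ∨ y ∈ tB.map fun b => b + 2)

instance (c y : ℕ) : Decidable (ringWire c y) := inferInstanceAs (Decidable (_ ∧ _))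

lemma tL_count : ∀ c < 3, ∀ y < 38, 2 ≤ y →
    (endsL tL).count (c, y) = if ringWire c y then 0 else 1 := by decide +kernel

lemma tL_range : ∀ y ∈ endsL tL, 2 ≤ y.2 ∧ y.2 < 2 + 36 := by decide +kernel

lemma tL_col : ∀ y ∈ endsL tL, y.1 < 3 := by decide +kernel

lemma gB_tile (K : ℕ) (q : ℕ) : ((gB K).map fun b => (1, b + q)) =
    tile (tB.map fun b => (1, b + q)) 36 K := by
  unfold gB tile
  rw [List.map_flatMap]
  congr 1
  ext1 k
  rw [List.map_map, List.map_map]
  apply List.map_congr_left
  intro b _
  simp only [Function.comp_apply, Prod.mk.injEq, true_and]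
  omega

lemma ring_ends_count (bs : List ℕ) (c x : ℕ) :
    (endsL (ring bs)).count (c, x) =
      (bs.map fun b => (1, b + 2)).count (c, x) + (bs.map fun b => (1, b)).count (c, x) := by
  have key : ∀ (l r : List ℕ), l.length = r.length →
      (endsL ((l.zip r).map fun p => (1, p.1 + 2, p.2))).count (c, x) =
      (l.map fun b => (1, b + 2)).count (c, x) + (r.map fun b => (1, b)).count (c, x) := by
    intro l
    induction l with
    | nil =>
      intro r hr
      have : r = [] := List.length_eq_zero_iff.mp hr.symm
      subst this; rfl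
    | cons a l ih =>
      intro r hr
      cases r with
      | nil => simp at hr
      | cons b r =>
        simp only [List.zip_cons_cons, List.map_cons, endsL, List.flatMap_cons, List.count_append]
        have := ih r (by simpa using hr)
        simp only [endsL] at this
        rw [this]
        simp only [List.count_cons, List.count_nil]
        ring
  unfold ring
  rw [key _ _ (by cases bs <;> simp)]
  congr 1
  apply List.Perm.count_eq
  apply List.Perm.map
  cases bs with
  | nil => exact List.Perm.nil
  | cons a bs =>
    simp only [List.tail_cons, List.take_succ_cons, List.take_zero]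
    exact List.perm_append_singleton a bs

lemma filter_sum (f : ℕ → ℕ × ℕ) (us : List (ℕ × ℕ)) (B : ℕ) (hB : ∀ x ∈ us, x.1 < B)
    (z : ℕ × ℕ) :
    ((List.range B).map fun v => (((us.filter fun x => x.1 = v).map fun x => x.2).map f).count z).sum
      = ((us.map fun x => x.2).map f).count z := by
  induction us with
  | nil => simp
  | cons a us ih =>
    have ih' := ih (fun x hx => hB x (by simp [hx]))
    have ha := hB a (by simp)
    rw [List.map_cons, List.map_cons, List.count_cons, ← ih']
    have e : ((List.range B).map fun v =>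
        (((List.filter (fun x => decide (x.1 = v)) (a :: us)).map fun x => x.2).map f).count z) =
        ((List.range B).map fun v =>
        (((List.filter (fun x => decide (x.1 = v)) us).map fun x => x.2).map f).count z +
          if a.1 = v then (if f a.2 == z then 1 else 0) else 0) := by
      apply List.map_congr_left
      intro v _
      by_cases h : a.1 = v
      · rw [List.filter_cons_of_pos (by simp [h]), if_pos h, List.map_cons, List.map_cons,
          List.count_cons]
      · rw [List.filter_cons_of_neg (by simp [h]), if_neg h, add_zero]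
    rw [e, List.sum_map_add]
    congr 1
    have : ∀ (y n : ℕ), ((List.range n).map fun v => if a.1 = v then y else 0).sum =
        if a.1 < n then y else 0 := by
      intro y n
      induction n with
      | zero => simp
      | succ n ihn =>
        rw [List.range_succ, List.map_append, List.sum_append, ihn]
        simp only [List.map_cons, List.map_nil, List.sum_cons, List.sum_nil, add_zero]
        by_cases h1 : a.1 < n
        · rw [if_pos h1, if_neg (by omega), if_pos (by omega), add_zero]
        · rw [if_neg h1, zero_add]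
          by_cases h2 : a.1 = n
          · rw [if_pos h2, if_pos (by omega)]
          · rw [if_neg h2, if_neg (by omega)]
    rw [this, if_pos ha]

lemma gLring_count (K : ℕ) (us : List (ℕ × ℕ)) (B : ℕ) (hB : ∀ x ∈ us, x.1 < B)
    (hus : us.map (fun x => x.2) = gB K) (c x : ℕ) :
    (endsL (gLring us B)).count (c, x) =
      ((gB K).map fun b => (1, b + 2)).count (c, x) + ((gB K).map fun b => (1, b + 0)).count (c, x) := by
  unfold gLring
  have e : endsL ((List.range B).flatMap fun v =>
      ring ((us.filter fun x => x.1 = v).map fun x => x.2)) =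
      (List.range B).flatMap fun v => endsL (ring ((us.filter fun x => x.1 = v).map fun x => x.2)) := by
    unfold endsL; rw [List.flatMap_assoc]
  rw [e, List.count_flatMap]
  simp only [Function.comp_def, ring_ends_count]
  rw [List.sum_map_add, filter_sum (fun b => (1, b + 2)) us B hB,
    filter_sum (fun b => (1, b)) us B hB, hus]
  rfl

theorem gate_netOK (K : ℕ) (us : List (ℕ × ℕ)) (B : ℕ) (hB : ∀ x ∈ us, x.1 < B)
    (hus : us.map (fun x => x.2) = gB K) : NetOK (gN K) (gR K) (gL K us B) := by
  refine ⟨by unfold gN; omega, gR_count K, ?_, ⟨_, rfl⟩⟩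
  intro c n
  have e : endsL (gL K us B) = [(2, 0), (2, 1)] ++ (endsL (gLint K) ++ endsL (gLring us B)) := by
    simp only [gL, endsL, List.flatMap_cons, List.flatMap_append]
  rw [e, List.count_append, List.count_append, gLring_count K us B hB hus, gB_tile K 2,
    gB_tile K 0, endsL_gLint, tile_count _ 2 36 (by norm_num) tL_range,
    tile_count _ 2 36 (by norm_num) (by decide +kernel),
    tile_count _ 2 36 (by norm_num) (by decide +kernel)]
  unfold gN
  by_cases hn : n < 2
  · rw [if_neg (by omega), if_neg (by omega), if_neg (by omega), add_zero, add_zero, add_zero]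
    by_cases hc : c = 2
    · subst hc
      rw [if_pos (by omega)]
      interval_cases n <;> decide
    · rw [if_neg (by omega), List.count_eq_zero]
      simp
      omega
  · have h0 : ([((2 : ℕ), (0 : ℕ)), (2, 1)] : List (ℕ × ℕ)).count (c, n) = 0 := by
      rw [List.count_eq_zero]
      simp
      omega
    rw [h0, zero_add]
    by_cases hn2 : n < 2 + 36 * K
    · rw [if_pos (by omega), if_pos (by omega), if_pos (by omega)]
      have hy : 2 + (n - 2) % 36 < 38 := by omega
      have hy2 : 2 ≤ 2 + (n - 2) % 36 := by omega
      generalize 2 + (n - 2) % 36 = y at *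
      by_cases hc : c < 3
      · rw [if_pos (by omega)]
        have key : ∀ c < 3, ∀ y < 38, 2 ≤ y → (endsL tL).count (c, y) +
            ((tB.map fun b => ((1 : ℕ), b + 2)).count (c, y) +
              (tB.map fun b => ((1 : ℕ), b + 0)).count (c, y)) = 1 := by decide +kernel
        exact key c hc y hy hy2
      · rw [if_neg (by omega)]
        have h1 : (endsL tL).count (c, y) = 0 := by
          rw [List.count_eq_zero]
          intro hm
          exact hc (tL_col _ hm)
        have h2 : (tB.map fun b => ((1 : ℕ), b + 2)).count (c, y) = 0 := by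
          rw [List.count_eq_zero]
          intro hm
          obtain ⟨b, -, hb⟩ := List.mem_map.mp hm
          simp only [Prod.mk.injEq] at hb
          omega
        have h3 : (tB.map fun b => ((1 : ℕ), b + 0)).count (c, y) = 0 := by
          rw [List.count_eq_zero]
          intro hm
          obtain ⟨b, -, hb⟩ := List.mem_map.mp hm
          simp only [Prod.mk.injEq] at hb
          omega
        rw [h1, h2, h3]
    · rw [if_neg (by omega), if_neg (by omega), if_neg (by omega), if_neg (by omega)]

end Pool.Agent.Work.MP_8aa36a_lc
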