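import Pool.Agent.Work.MP_8aa36a_lc.Four.Net

/-!
Networks: what a vector drawing says.
-/

set_option autoImplicit false

namespace Pool.Agent.Work.MP_8aa36a_lc

open Pool.Agent.Work.MP_8c8e41_lc

variable {N : ℕ} {R : List (ℕ × ℕ)} {L : List Cpl}

lemma co_smul (c : ℕ) (k : ℝ) (v : V3) : co c (k • v) = k * co c v := by
  unfold co; split <;> [rfl; (split <;> rfl)]

lemma par_smul {u v : V3} (h : Par u v) (hu : sum3 u = 0) (hv : sum3 v = 0) (h1 : u.1 ≠ 0) :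
    ∃ k : ℝ, v = k • u := by
  refine ⟨v.1 / u.1, ?_⟩
  simp only [Par, sum3] at *
  have e1 : v.1 = v.1 / u.1 * u.1 := by field_simp
  have e2 : v.2.1 = v.1 / u.1 * u.2.1 := by field_simp; linarith
  have e3 : v.2.2 = v.1 / u.1 * u.2.2 := by
    have a1 : v.2.2 = -v.1 - v.2.1 := by linarith
    have a2 : u.2.2 = -u.1 - u.2.1 := by linarith
    rw [a1, a2]; field_simp; linarith
  exact Prod.ext e1 (Prod.ext e2 e3)

/-- two proportional pairs with a common coordinate -/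
lemma same_ratio {g : ℕ → V3} {x y x' y' : ℕ} {k l : ℝ} {d : ℕ} (h1 : g x' = k • g x)
    (h2 : g y' = l • g y) (e1 : co d (g x) = co d (g y)) (e2 : co d (g x') = co d (g y'))
    (hn : co d (g x) ≠ 0) : k = l := by
  rw [h1, h2, co_smul, co_smul, ← e1] at e2
  exact mul_right_cancel₀ hn e2

/-- **soundness of couplers** -/
theorem cpl_sound {g : ℕ → V3} (h : NetOK N R L) (hg : VDraw (netE N R L) g) {C : Cpl}
    (hC : C ∈ L) : co C.1 (g (2 * C.2.1 + 1)) * co C.1 (g (2 * C.2.2)) =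
      co C.1 (g (2 * C.2.2 + 1)) * co C.1 (g (2 * C.2.1)) := by
  obtain ⟨i, hi, hCi⟩ := List.getElem_of_mem hC
  obtain ⟨c3, -, -⟩ := h.cpl_mem hC
  have hm : ∀ e ∈ cplE N C i, e ∈ netE N R L := by
    intro e he
    apply List.mem_append_right
    apply List.mem_append_right
    refine List.mem_flatMap.mpr ⟨(C, i), ?_, he⟩
    rw [List.mem_zipIdx_iff_getElem?]
    simp [hi, hCi]
  have inc : ∀ x y d, d < 3 → (x, y, d) ∈ cplE N C i → co d (g x) = co d (g y) := by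
    intro x y d hd he
    exact (hg.inc _ (hm _ he)).1 hd
  have par : ∀ x y, (x, y, 3) ∈ cplE N C i → ∃ k : ℝ, g y = k • g x := by
    intro x y he
    have h1 := hm _ he
    exact par_smul ((hg.inc _ h1).2 rfl) (hg.sum _ h1).1 (hg.sum _ h1).2
      (hg.nz _ h1 0 (by norm_num)).1
  have nz : ∀ x y d e, e < 3 → (x, y, d) ∈ cplE N C i → co e (g x) ≠ 0 := by
    intro x y d e he hxy
    exact (hg.nz _ (hm _ hxy) e he).1
  have n1 := @nc_lt C.1
  have n2 := @nc_lt (nc C.1)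
  obtain ⟨k0, q0⟩ := par (cv N i 0) (cv N i 6) (by simp [cplE])
  obtain ⟨k1, q1⟩ := par (cv N i 1) (cv N i 7) (by simp [cplE])
  obtain ⟨k3, q3⟩ := par (cv N i 3) (cv N i 9) (by simp [cplE])
  obtain ⟨k4, q4⟩ := par (cv N i 4) (cv N i 10) (by simp [cplE])
  have s1 : k0 = k1 := same_ratio q0 q1
    (inc (cv N i 0) (cv N i 1) (nc (nc C.1)) n2 (by simp [cplE]))
    (inc (cv N i 6) (cv N i 7) (nc (nc C.1)) n2 (by simp [cplE]))
    (nz (cv N i 0) (cv N i 6) 3 _ n2 (by simp [cplE]))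
  have s2 : k1 = k4 := same_ratio q1 q4
    (inc (cv N i 1) (cv N i 4) (nc C.1) n1 (by simp [cplE]))
    (inc (cv N i 7) (cv N i 10) (nc C.1) n1 (by simp [cplE]))
    (nz (cv N i 1) (cv N i 7) 3 _ n1 (by simp [cplE]))
  have s3 : k3 = k4 := same_ratio q3 q4
    (inc (cv N i 3) (cv N i 4) (nc (nc C.1)) n2 (by simp [cplE]))
    (inc (cv N i 9) (cv N i 10) (nc (nc C.1)) n2 (by simp [cplE]))
    (nz (cv N i 3) (cv N i 9) 3 _ n2 (by simp [cplE]))
  have b1 := inc (2 * C.2.1) (cv N i 0) C.1 c3 (by simp [cplE])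
  have b2 := inc (2 * C.2.1 + 1) (cv N i 6) C.1 c3 (by simp [cplE])
  have b3 := inc (2 * C.2.2) (cv N i 3) C.1 c3 (by simp [cplE])
  have b4 := inc (2 * C.2.2 + 1) (cv N i 9) C.1 c3 (by simp [cplE])
  rw [b1, b2, b3, b4, q0, q3, co_smul, co_smul, s1, s2, s3]
  ring

end Pool.Agent.Work.MP_8aa36a_lc
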