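import Pool.Agent.Work.MP_8aa36a_lc.Four.Gate
import Pool.Agent.Work.MP_8aa36a_lc.Four.NetSound

/-!
What a vector drawing of the graph of a list of gates says about the names.
-/

set_option autoImplicit false

namespace Pool.Agent.Work.MP_8aa36a_lc

open Pool.Agent.Work.MP_8c8e41_lc

/-- the uses of the names: name and base of the block -/
def gUs (gs : List (List ℕ)) : List (ℕ × ℕ) :=
  gs.zipIdx.flatMap fun gk => gk.1.zipIdx.map fun ne => (ne.1, 11 + 36 * gk.2 + 3 * ne.2)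

/-- the `e`-th name of the `k`-th gate -/
def nm (gs : List (List ℕ)) (k e : ℕ) : ℕ := (gs.getD k []).getD e 0

lemma gUs_snd {gs : List (List ℕ)} (hlen : ∀ g ∈ gs, g.length = 9) :
    (gUs gs).map (fun x => x.2) = gB gs.length := by
  have key : ∀ (gs : List (List ℕ)) (j : ℕ), (∀ g ∈ gs, g.length = 9) →
      ((gs.zipIdx j).flatMap fun gk => gk.1.zipIdx.map fun ne => (ne.1, 11 + 36 * gk.2 + 3 * ne.2)).map
        (fun x => x.2) = (List.range' j gs.length).flatMap fun k => tB.map fun b => b + 36 * k := by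
    intro gs
    induction gs with
    | nil => intro j _; rfl
    | cons g gs ih =>
      intro j h
      rw [List.zipIdx_cons, List.flatMap_cons, List.map_append, List.length_cons, List.range'_succ,
        List.flatMap_cons, ih (j + 1) (fun g hg => h g (by simp [hg]))]
      congr 1
      have hg := h g (by simp)
      obtain ⟨a0, a1, a2, a3, a4, a5, a6, a7, a8, rfl⟩ : ∃ a0 a1 a2 a3 a4 a5 a6 a7 a8,
          g = [a0, a1, a2, a3, a4, a5, a6, a7, a8] := by
        match g, hg with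
        | [a0, a1, a2, a3, a4, a5, a6, a7, a8], _ => exact ⟨_, _, _, _, _, _, _, _, _, rfl⟩
      simp only [List.zipIdx_cons, List.zipIdx_nil, List.map_cons, List.map_nil, tB,
        List.cons.injEq, and_true]
      omega
  unfold gB
  rw [List.range_eq_range']
  exact key gs 0 hlen

lemma mem_gUs {gs : List (List ℕ)} (hlen : ∀ g ∈ gs, g.length = 9) {x : ℕ × ℕ} :
    x ∈ gUs gs ↔ ∃ k < gs.length, ∃ e < 9, x = (nm gs k e, 11 + 36 * k + 3 * e) := by
  unfold gUs
  rw [List.mem_flatMap]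
  constructor
  · rintro ⟨⟨g, k⟩, hm, hx⟩
    rw [List.mem_zipIdx_iff_getElem?] at hm
    simp only at hm hx
    obtain ⟨hk, hg⟩ := List.getElem?_eq_some_iff.mp hm
    obtain ⟨⟨n, e⟩, hn, rfl⟩ := List.mem_map.mp hx
    rw [List.mem_zipIdx_iff_getElem?] at hn
    simp only at hn
    obtain ⟨he, hge⟩ := List.getElem?_eq_some_iff.mp hn
    have h9 : g.length = 9 := hlen g (hg ▸ List.getElem_mem hk)
    refine ⟨k, hk, e, by omega, ?_⟩
    simp only [nm, List.getD_eq_getElem?_getD, hm, Option.getD_some, hn]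
  · rintro ⟨k, hk, e, he, rfl⟩
    have h9 : gs[k].length = 9 := hlen _ (List.getElem_mem hk)
    refine ⟨(gs[k], k), ?_, ?_⟩
    · rw [List.mem_zipIdx_iff_getElem?]; simp [hk]
    · refine List.mem_map.mpr ⟨(nm gs k e, e), ?_, rfl⟩
      rw [List.mem_zipIdx_iff_getElem?]
      have : e < gs[k].length := by omega
      simp [nm, hk, this]

lemma nm_mem {gs : List (List ℕ)} (hlen : ∀ g ∈ gs, g.length = 9) {k e : ℕ} (hk : k < gs.length)
    (he : e < 9) : ∃ g ∈ gs, nm gs k e ∈ g := by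
  have h9 : gs[k].length = 9 := hlen _ (List.getElem_mem hk)
  refine ⟨gs[k], List.getElem_mem hk, ?_⟩
  have : e < gs[k].length := by omega
  have h : nm gs k e = gs[k][e] := by simp [nm, hk, this]
  rw [h]
  exact List.getElem_mem this

/-- the edge list of a list of gates -/
def gateE (gs : List (List ℕ)) (B : ℕ) : List CEdge :=
  netE (gN gs.length) (gR gs.length) (gL gs.length (gUs gs) B)

theorem gateE_ok {gs : List (List ℕ)} {B : ℕ} (hlen : ∀ g ∈ gs, g.length = 9)
    (hB : ∀ g ∈ gs, ∀ n ∈ g, n < B) :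
    NetOK (gN gs.length) (gR gs.length) (gL gs.length (gUs gs) B) := by
  refine gate_netOK _ _ _ ?_ (gUs_snd hlen)
  intro x hx
  obtain ⟨k, hk, e, he, rfl⟩ := (mem_gUs hlen).mp hx
  obtain ⟨g, hg, hn⟩ := nm_mem hlen hk he
  exact hB g hg _ hn

/-- a gate is satisfied by values of the names -/
def GateHolds (t : ℕ → ℝ) (n : ℕ → ℕ) : Prop :=
  ∃ w : V3, sum3 w = 0 ∧ (∀ c < 3, co c w ≠ 0) ∧
    sum3 (t (n 0) * w.1, t (n 1) * w.2.1, t (n 2) * w.2.2) = 0 ∧
    sum3 (t (n 3) * w.1, t (n 4) * w.2.1, t (n 5) * w.2.2) = 0 ∧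
    ¬ Par w (t (n 0) * w.1, t (n 1) * w.2.1, t (n 2) * w.2.2) ∧
    ¬ Par w (t (n 3) * w.1, t (n 4) * w.2.1, t (n 5) * w.2.2) ∧
    ¬ Par (t (n 0) * w.1, t (n 1) * w.2.1, t (n 2) * w.2.2)
      (t (n 3) * w.1, t (n 4) * w.2.1, t (n 5) * w.2.2)

lemma ring_eq (R R' : ℕ → ℝ) (hRR : ∀ b, R' b = R b) (bs : List ℕ)
    (h : ∀ p ∈ bs.zip (bs.tail ++ bs.take 1), R' p.1 = R p.2) : ∀ b ∈ bs, R b = R (bs.headD 0) := by
  have key : ∀ (l : List ℕ) (a z : ℕ), (∀ p ∈ (a :: l).zip (l ++ [z]), R' p.1 = R p.2) →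
      ∀ b ∈ a :: l, R b = R a := by
    intro l
    induction l with
    | nil =>
      intro a z _ b hb
      simp only [List.mem_cons, List.not_mem_nil, or_false] at hb
      rw [hb]
    | cons c l ih =>
      intro a z h b hb
      rw [List.cons_append, List.zip_cons_cons] at h
      have h1 := h (a, c) (by simp)
      simp only [hRR] at h1
      rcases List.mem_cons.mp hb with rfl | hb
      · rfl
      · rw [h1]
        exact ih c z (fun p hp => h p (List.mem_cons_of_mem _ hp)) b hb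
  cases bs with
  | nil => intro b hb; simp at hb
  | cons a l =>
    intro b hb
    rw [List.headD_cons]
    exact key l a a (by simpa using h) b hb

lemma gR_mem {K k : ℕ} (hk : k < K) {a b : ℕ} (h : (a, b) ∈ tR) :
    (a + 72 * k, b + 72 * k) ∈ gR K :=
  List.mem_flatMap.mpr ⟨k, List.mem_range.mpr hk, List.mem_map.mpr ⟨(a, b), h, rfl⟩⟩

lemma gL_mem {K k : ℕ} {us : List (ℕ × ℕ)} {B : ℕ} (hk : k < K) {c a b : ℕ} (h : (c, a, b) ∈ tL) :
    (c, a + 36 * k, b + 36 * k) ∈ gL K us B := by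
  apply List.mem_cons_of_mem
  apply List.mem_append_left
  exact List.mem_flatMap.mpr ⟨k, List.mem_range.mpr hk, List.mem_map.mpr ⟨(c, a, b), h, rfl⟩⟩

lemma gL_ring_mem {K v : ℕ} {us : List (ℕ × ℕ)} {B : ℕ} (hv : v < B) {p : Cpl}
    (h : p ∈ ring ((us.filter fun x => x.1 = v).map fun x => x.2)) : p ∈ gL K us B := by
  apply List.mem_cons_of_mem
  apply List.mem_append_right
  exact List.mem_flatMap.mpr ⟨v, List.mem_range.mpr hv, h⟩

/-- a ratio is the same in all coordinates -/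
lemma ratio_par {u v : V3} (hu : sum3 u = 0) (hv : sum3 v = 0) (hnz : ∀ c < 3, co c u ≠ 0)
    (h : Par u v) (c d : ℕ) (hc : c < 3) (hd : d < 3) : co c v / co c u = co d v / co d u := by
  obtain ⟨k, hk⟩ := par_smul h hu hv (hnz 0 (by norm_num))
  rw [hk, co_smul, co_smul, mul_div_cancel_right₀ _ (hnz c hc), mul_div_cancel_right₀ _ (hnz d hd)]

theorem gate_sound {gs : List (List ℕ)} {B : ℕ} (hlen : ∀ g ∈ gs, g.length = 9)
    (hB : ∀ g ∈ gs, ∀ n ∈ g, n < B) {g : ℕ → V3} (hg : VDraw (gateE gs B) g) :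
    ∃ t : ℕ → ℝ, ∀ k < gs.length, GateHolds t (nm gs k) := by
  have hok := gateE_ok hlen hB
  have hgood := net_good hok
  obtain ⟨K, hK⟩ : ∃ K, K = gs.length := ⟨_, rfl⟩
  have hN : gN gs.length = 2 + 36 * K := by rw [hK]; rfl
  have hsum : ∀ x < 2 * (2 + 36 * K), sum3 (g x) = 0 := by
    intro x hx
    obtain ⟨e, he, hxe, -⟩ := hgood.has x (by unfold netM; omega) 0 (by norm_num)
    rcases hxe with rfl | rfl
    · exact (hg.sum e he).1
    · exact (hg.sum e he).2
  have hnz : ∀ x < 2 * (2 + 36 * K), ∀ c < 3, co c (g x) ≠ 0 := by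
    intro x hx c hc
    obtain ⟨e, he, hxe, -⟩ := hgood.has x (by unfold netM; omega) 0 (by norm_num)
    rcases hxe with rfl | rfl
    · exact (hg.nz e he c hc).1
    · exact (hg.nz e he c hc).2
  have hE : ∀ k < K, ∀ a b, (a, b) ∈ tR → (a + 72 * k, b + 72 * k, 3) ∈ gateE gs B := by
    intro k hk a b hab
    apply List.mem_append_right
    apply List.mem_append_left
    exact List.mem_map.mpr ⟨_, gR_mem (by rwa [← hK]) hab, rfl⟩
  let rat : ℕ → ℕ → ℝ := fun c n => co c (g (2 * n + 1)) / co c (g (2 * n))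
  have hcp : ∀ c a b, (c, a, b) ∈ gL gs.length (gUs gs) B → a < 2 + 36 * K → b < 2 + 36 * K →
      c < 3 → rat c a = rat c b := by
    intro c a b h ha hb hc
    have := cpl_sound hok hg h
    simp only at this
    simp only [rat]
    rw [div_eq_div_iff (hnz _ (by omega) c hc) (hnz _ (by omega) c hc)]
    exact this
  have hint : ∀ k < K, ∀ c a b, (c, a, b) ∈ tL → a < 38 → b < 38 → c < 3 →
      rat c (a + 36 * k) = rat c (b + 36 * k) := by
    intro k hk c a b h ha hb hc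
    exact hcp _ _ _ (gL_mem (by rwa [← hK]) h) (by omega) (by omega) hc
  -- nodes of blocks
  have hJ : ∀ k < K, ∀ j < 27, ∀ c < 3, ∀ d < 3, rat c (11 + j + 36 * k) = rat d (11 + j + 36 * k) := by
    intro k hk j hj c hc d hd
    have h1 : (22 + 2 * j, 23 + 2 * j) ∈ tR := by
      apply List.mem_append_right
      exact List.mem_map.mpr ⟨j, List.mem_range.mpr hj, rfl⟩
    have h2 := (hg.inc _ (hE k hk _ _ h1)).2 rfl
    have e1 : 22 + 2 * j + 72 * k = 2 * (11 + j + 36 * k) := by ring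
    have e2 : 23 + 2 * j + 72 * k = 2 * (11 + j + 36 * k) + 1 := by ring
    simp only at h2
    rw [e1, e2] at h2
    exact ratio_par (hsum _ (by omega)) (hsum _ (by omega)) (hnz _ (by omega)) h2 c d hc hd
  have hblock : ∀ k < K, ∀ e < 9, rat 0 (11 + 3 * e + 36 * k) = rat 0 (11 + (3 * e + 1) + 36 * k) ∧
      rat 0 (11 + 3 * e + 36 * k) = rat 0 (11 + (3 * e + 2) + 36 * k) := by
    intro k hk e he
    have c1 : (2, 11 + 3 * e, 11 + (3 * e + 1)) ∈ tL ∧ (0, 11 + (3 * e + 1), 11 + (3 * e + 2)) ∈ tL := by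
      interval_cases e <;> decide
    have r1 := hint k hk _ _ _ c1.1 (by omega) (by omega) (by norm_num)
    have r2 := hint k hk _ _ _ c1.2 (by omega) (by omega) (by norm_num)
    rw [hJ k hk (3 * e) (by omega) 0 (by norm_num) 2 (by norm_num), r1,
      hJ k hk (3 * e + 1) (by omega) 0 (by norm_num) 2 (by norm_num)]
    refine ⟨rfl, ?_⟩
    rw [← r2, hJ k hk (3 * e + 1) (by omega) 2 (by norm_num) 0 (by norm_num)]
  -- values of the names
  let bs : ℕ → List ℕ := fun v => ((gUs gs).filter fun x => x.1 = v).map fun x => x.2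
  have hbs : ∀ v, ∀ b ∈ bs v, ∃ k < K, ∃ e < 9, v = nm gs k e ∧ b = 11 + 3 * e + 36 * k := by
    intro v b hb
    obtain ⟨x, hx, rfl⟩ := List.mem_map.mp hb
    rw [List.mem_filter] at hx
    obtain ⟨hx1, hx2⟩ := hx
    obtain ⟨k, hk, e, he, rfl⟩ := (mem_gUs hlen).mp hx1
    refine ⟨k, by omega, e, he, ?_, ?_⟩
    · exact (by simpa using hx2 : nm gs k e = v).symm
    · simp only; omega
  have hbs' : ∀ k < K, ∀ e < 9, 11 + 3 * e + 36 * k ∈ bs (nm gs k e) := by
    intro k hk e he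
    refine List.mem_map.mpr ⟨(nm gs k e, 11 + 36 * k + 3 * e), ?_, by simp only; omega⟩
    rw [List.mem_filter]
    exact ⟨(mem_gUs hlen).mpr ⟨k, by omega, e, he, rfl⟩, by simp⟩
  have hval : ∀ v < B, ∀ b ∈ bs v, rat 0 b = rat 0 ((bs v).headD 0) := by
    intro v hv
    apply ring_eq (fun b => rat 0 b) (fun b => if b ∈ bs v then rat 1 (b + 2) else rat 0 b)
    · intro b
      split
      · rename_i hb
        obtain ⟨k, hk, e, he, -, rfl⟩ := hbs v b hb
        rw [(hblock k hk e he).2,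
          hJ k hk (3 * e + 2) (by omega) 0 (by norm_num) 1 (by norm_num)]
        congr 1; omega
      · rfl
    · intro p hp
      have hp1 : p.1 ∈ bs v := (List.of_mem_zip hp).1
      have hp2 : p.2 ∈ bs v := by
        have := (List.of_mem_zip hp).2
        rcases List.mem_append.mp this with h | h
        · exact List.mem_of_mem_tail h
        · exact List.mem_of_mem_take h
      simp only [hp1, if_true]
      obtain ⟨k, hk, e, he, -, h1⟩ := hbs v _ hp1
      obtain ⟨k', hk', e', he', -, h2⟩ := hbs v _ hp2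
      have h3 : ((1 : ℕ), p.1 + 2, p.2) ∈ gL gs.length (gUs gs) B := by
        apply gL_ring_mem hv
        exact List.mem_map.mpr ⟨p, hp, rfl⟩
      rw [hcp _ _ _ h3 (by omega) (by omega) (by norm_num), h2]
      exact hJ k' hk' (3 * e') (by omega) 1 (by norm_num) 0 (by norm_num)
  refine ⟨fun v => rat 0 ((bs v).headD 0), ?_⟩
  intro k hk
  rw [← hK] at hk
  obtain ⟨T, hT⟩ : ∃ T : ℕ → ℝ, T = fun v => rat 0 ((bs v).headD 0) := ⟨_, rfl⟩
  rw [← hT]
  have hTv : ∀ e < 9, ∀ c < 3, rat c (11 + 3 * e + 36 * k) = T (nm gs k e) := by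
    intro e he c hc
    rw [hJ k hk (3 * e) (by omega) c hc 0 (by norm_num), hT]
    apply hval
    · obtain ⟨g', hg', hn⟩ := nm_mem hlen (show k < gs.length by omega) he
      exact hB g' hg' _ hn
    · exact hbs' k hk e he
  -- ratios of the cluster nodes
  have hcl : ∀ m < 2, ∀ c < 3, co c (g (2 * (2 + 3 * m + 36 * k) + 1)) =
      T (nm gs k (3 * m + c)) * co c (g (2 * (2 + 3 * m + 36 * k))) := by
    intro m hm c hc
    have h1 : ∃ j < 3, (c, 11 + (3 * (3 * m + c) + j), 2 + 3 * m) ∈ tL := by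
      interval_cases m <;> interval_cases c
      · exact ⟨0, by norm_num, by decide⟩
      · exact ⟨1, by norm_num, by decide⟩
      · exact ⟨2, by norm_num, by decide⟩
      · exact ⟨0, by norm_num, by decide⟩
      · exact ⟨1, by norm_num, by decide⟩
      · exact ⟨2, by norm_num, by decide⟩
    obtain ⟨j, hj, hmem⟩ := h1
    have h2 := hint k hk _ _ _ hmem (by omega) (by omega) hc
    have h3 : rat c (11 + (3 * (3 * m + c) + j) + 36 * k) = T (nm gs k (3 * m + c)) := by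
      rw [← hTv (3 * m + c) (by omega) 0 (by norm_num),
        hJ k hk (3 * (3 * m + c) + j) (by omega) c hc 0 (by norm_num)]
      interval_cases j
      · rfl
      · exact (hblock k hk (3 * m + c) (by omega)).1.symm
      · exact (hblock k hk (3 * m + c) (by omega)).2.symm
    rw [h3] at h2
    rw [h2]
    exact (div_mul_cancel₀ _ (hnz _ (by omega) c hc)).symm
  -- names
  obtain ⟨w, hw⟩ : ∃ w, w = g (4 + 72 * k) := ⟨_, rfl⟩
  obtain ⟨v, hv⟩ : ∃ v, v = g (5 + 72 * k) := ⟨_, rfl⟩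
  obtain ⟨w', hw'⟩ : ∃ w', w' = g (10 + 72 * k) := ⟨_, rfl⟩
  obtain ⟨v', hv'⟩ : ∃ v', v' = g (11 + 72 * k) := ⟨_, rfl⟩
  have ev : v = (T (nm gs k 0) * w.1, T (nm gs k 1) * w.2.1, T (nm gs k 2) * w.2.2) := by
    have e1 : 2 * (2 + 3 * 0 + 36 * k) + 1 = 5 + 72 * k := by ring
    have e2 : 2 * (2 + 3 * 0 + 36 * k) = 4 + 72 * k := by ring
    have a0 := hcl 0 (by norm_num) 0 (by norm_num)
    have a1 := hcl 0 (by norm_num) 1 (by norm_num)
    have a2 := hcl 0 (by norm_num) 2 (by norm_num)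
    rw [e1, e2, ← hv, ← hw] at a0 a1 a2
    exact Prod.ext a0 (Prod.ext a1 a2)
  have ev' : v' = (T (nm gs k 3) * w'.1, T (nm gs k 4) * w'.2.1, T (nm gs k 5) * w'.2.2) := by
    have e1 : 2 * (2 + 3 * 1 + 36 * k) + 1 = 11 + 72 * k := by ring
    have e2 : 2 * (2 + 3 * 1 + 36 * k) = 10 + 72 * k := by ring
    have a0 := hcl 1 (by norm_num) 0 (by norm_num)
    have a1 := hcl 1 (by norm_num) 1 (by norm_num)
    have a2 := hcl 1 (by norm_num) 2 (by norm_num)
    rw [e1, e2, ← hv', ← hw'] at a0 a1 a2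
    exact Prod.ext a0 (Prod.ext a1 a2)
  have m1 : (4, 10) ∈ tR := by decide
  have m2 : (5, 16) ∈ tR := by decide
  have m3 : (11, 17) ∈ tR := by decide
  have i1 := hE k hk _ _ m1
  have i2 := hE k hk _ _ m2
  have i3 := hE k hk _ _ m3
  have sw : sum3 w = 0 := by rw [hw]; exact hsum _ (by omega)
  have sv : sum3 v = 0 := by rw [hv]; exact hsum _ (by omega)
  have sw' : sum3 w' = 0 := by rw [hw']; exact hsum _ (by omega)
  have sv' : sum3 v' = 0 := by rw [hv']; exact hsum _ (by omega)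
  have nw : ∀ c < 3, co c w ≠ 0 := by rw [hw]; exact hnz _ (by omega)
  have nw' : ∀ c < 3, co c w' ≠ 0 := by rw [hw']; exact hnz _ (by omega)
  have par : Par w w' := by rw [hw, hw']; exact (hg.inc _ i1).2 rfl
  obtain ⟨μ, hμ⟩ := par_smul par sw sw' (nw 0 (by norm_num))
  have hμ0 : μ ≠ 0 := by
    rintro rfl
    apply nw' 0 (by norm_num)
    rw [hμ, zero_smul]; rfl
  have ev2 : v' = μ • (T (nm gs k 3) * w.1, T (nm gs k 4) * w.2.1, T (nm gs k 5) * w.2.2) := by
    rw [ev', hμ]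
    simp only [Prod.smul_mk, Prod.smul_fst, Prod.smul_snd, smul_eq_mul, Prod.mk.injEq]
    refine ⟨by ring, by ring, by ring⟩
  have n1 : ¬ Par w v := by
    rw [hw, hv]
    exact (hg.sep _ i1 _ i2 (by simp) rfl).2 rfl
  have n2 : ¬ Par w v' := by
    rw [hw, hv']
    exact (hg.sep _ i1 _ i3 (by simp) rfl).2 rfl
  have n3 : ¬ Par v v' := by
    rw [hv, hv']
    exact (hg.sep _ i2 _ i3 (by simp) rfl).2 rfl
  refine ⟨w, sw, nw, by rw [← ev]; exact sv, ?_, by rw [← ev]; exact n1, ?_, ?_⟩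
  · rw [ev2] at sv'
    simp only [sum3, Prod.smul_mk, smul_eq_mul] at sv' ⊢
    have : μ * (T (nm gs k 3) * w.1 + T (nm gs k 4) * w.2.1 + T (nm gs k 5) * w.2.2) = 0 := by
      rw [← sv']; ring
    exact (mul_eq_zero.mp this).resolve_left hμ0
  · intro h
    apply n2
    rw [ev2]
    simp only [Par, Prod.smul_mk, smul_eq_mul] at h ⊢
    calc w.1 * (μ * (T (nm gs k 4) * w.2.1)) = μ * (w.1 * (T (nm gs k 4) * w.2.1)) := by ring
      _ = μ * (w.2.1 * (T (nm gs k 3) * w.1)) := by rw [h]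
      _ = _ := by ring
  · intro h
    apply n3
    rw [← ev] at h
    rw [ev2]
    simp only [Par, Prod.smul_mk, smul_eq_mul] at h ⊢
    calc v.1 * (μ * (T (nm gs k 4) * w.2.1)) = μ * (v.1 * (T (nm gs k 4) * w.2.1)) := by ring
      _ = μ * (v.2.1 * (T (nm gs k 3) * w.1)) := by rw [h]
      _ = _ := by ring

end Pool.Agent.Work.MP_8aa36a_lc
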