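import Pool.Agent.Work.MP_8aa36a_lc.Four.Back

/-!
Networks of nodes and couplers, and their graphs.
-/

set_option autoImplicit false

namespace Pool.Agent.Work.MP_8aa36a_lc

open Pool.Agent.Work.MP_8c8e41_lc

/-- cyclic successor on the colours `0, 1, 2` -/
def nc (c : ℕ) : ℕ := if c = 0 then 1 else if c = 1 then 2 else 0

/-- a coupler `(c, n, m)` joins the `c`-wires of the nodes `n` and `m` -/
abbrev Cpl := ℕ × ℕ × ℕ

/-- vertex `r < 12` of coupler `i`, when there are `N` nodes -/
def cv (N i r : ℕ) : ℕ := 2 * N + 12 * i + r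

def cplE (N : ℕ) (C : Cpl) (i : ℕ) : List CEdge :=
  [(2 * C.2.1, cv N i 0, C.1), (2 * C.2.1 + 1, cv N i 6, C.1),
   (2 * C.2.2, cv N i 3, C.1), (2 * C.2.2 + 1, cv N i 9, C.1),
   (cv N i 0, cv N i 1, nc (nc C.1)), (cv N i 1, cv N i 2, C.1), (cv N i 0, cv N i 2, nc C.1),
   (cv N i 3, cv N i 4, nc (nc C.1)), (cv N i 4, cv N i 5, C.1), (cv N i 3, cv N i 5, nc C.1),
   (cv N i 6, cv N i 7, nc (nc C.1)), (cv N i 7, cv N i 8, C.1), (cv N i 6, cv N i 8, nc C.1),
   (cv N i 9, cv N i 10, nc (nc C.1)), (cv N i 10, cv N i 11, C.1), (cv N i 9, cv N i 11, nc C.1),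
   (cv N i 1, cv N i 4, nc C.1), (cv N i 7, cv N i 10, nc C.1),
   (cv N i 2, cv N i 5, nc (nc C.1)), (cv N i 8, cv N i 11, nc (nc C.1)),
   (cv N i 0, cv N i 6, 3), (cv N i 1, cv N i 7, 3), (cv N i 2, cv N i 8, 3),
   (cv N i 3, cv N i 9, 3), (cv N i 4, cv N i 10, 3), (cv N i 5, cv N i 11, 3)]

def frameE : List CEdge := [(0, 1, 0), (2, 3, 0), (2, 1, 1), (3, 0, 1), (0, 2, 3), (1, 3, 3)]

def netE (N : ℕ) (R : List (ℕ × ℕ)) (L : List Cpl) : List CEdge :=
  frameE ++ (R.map (fun ab => (ab.1, ab.2, 3)) ++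
    L.zipIdx.flatMap fun Ci => cplE N Ci.1 Ci.2)

def endsR (R : List (ℕ × ℕ)) : List ℕ := R.flatMap fun ab => [ab.1, ab.2]

def endsL (L : List Cpl) : List (ℕ × ℕ) := L.flatMap fun C => [(C.1, C.2.1), (C.1, C.2.2)]

/-- the data of a network are consistent -/
structure NetOK (N : ℕ) (R : List (ℕ × ℕ)) (L : List Cpl) : Prop where
  two : 2 ≤ N
  hR : ∀ x, (endsR R).count x = if 4 ≤ x ∧ x < 2 * N then 1 else 0
  hL : ∀ c n, (endsL L).count (c, n) = if (c < 3 ∧ 2 ≤ n ∧ n < N) ∨ (c = 2 ∧ n < 2) then 1 else 0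
  head : ∃ L', L = (2, 0, 1) :: L'

/-- number of vertices -/
def netM (N : ℕ) (L : List Cpl) : ℕ := 2 * N + 12 * L.length

variable {N : ℕ} {R : List (ℕ × ℕ)} {L : List Cpl}

lemma NetOK.cpl_mem (h : NetOK N R L) {C : Cpl} (hC : C ∈ L) :
    C.1 < 3 ∧ C.2.1 < N ∧ C.2.2 < N := by
  have h1 : (C.1, C.2.1) ∈ endsL L := List.mem_flatMap.mpr ⟨C, hC, by simp⟩
  have h2 : (C.1, C.2.2) ∈ endsL L := List.mem_flatMap.mpr ⟨C, hC, by simp⟩
  rw [← List.count_pos_iff, h.hL] at h1 h2
  have := h.two
  split at h1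
  · split at h2
    · omega
    · omega
  · omega

lemma NetOK.r_mem (h : NetOK N R L) {ab : ℕ × ℕ} (hab : ab ∈ R) :
    4 ≤ ab.1 ∧ ab.1 < 2 * N ∧ 4 ≤ ab.2 ∧ ab.2 < 2 * N := by
  have h1 : ab.1 ∈ endsR R := List.mem_flatMap.mpr ⟨ab, hab, by simp⟩
  have h2 : ab.2 ∈ endsR R := List.mem_flatMap.mpr ⟨ab, hab, by simp⟩
  rw [← List.count_pos_iff, h.hR] at h1 h2
  split at h1
  · split at h2
    · omega
    · omega
  · omega

/-- incidence with a vertex and colour -/
def IncC (u c : ℕ) (e : CEdge) : Prop := EndOf u e ∧ e.2.2 = c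

instance (u c : ℕ) (e : CEdge) : Decidable (IncC u c e) := inferInstanceAs (Decidable (_ ∧ _))

lemma nc_lt {c : ℕ} : nc c < 3 := by
  unfold nc; split <;> [norm_num; (split <;> norm_num)]

/-- counts inside a coupler, own vertices -/
lemma cplE_count_own (C : Cpl) (hN : C.2.1 < N ∧ C.2.2 < N) (hc : C.1 < 3) (i r : ℕ) (hr : r < 12)
    (c : ℕ) (hc4 : c < 4) : (cplE N C i).countP (fun e => IncC (cv N i r) c e) = 1 := by
  obtain ⟨c', n, m⟩ := C
  simp only at hN hc
  obtain ⟨hn, hm⟩ := hN
  have e1 : ∀ r, 2 * n ≠ cv N i r := by intro r; simp only [cv]; omega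
  have e2 : ∀ r, 2 * n + 1 ≠ cv N i r := by intro r; simp only [cv]; omega
  have e3 : ∀ r, 2 * m ≠ cv N i r := by intro r; simp only [cv]; omega
  have e4 : ∀ r, 2 * m + 1 ≠ cv N i r := by intro r; simp only [cv]; omega
  have e5 : ∀ a b, (cv N i a = cv N i b) ↔ a = b := by intro a b; simp only [cv]; omega
  simp only [cplE, List.countP_cons, List.countP_nil, IncC, EndOf, e1, e2, e3, e4, e5]
  interval_cases c' <;> interval_cases c <;> interval_cases r <;> simp [nc]

/-- counts inside a coupler, vertices of nodes -/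
lemma cplE_count_node (C : Cpl) (i n s : ℕ) (hn : n < N) (hs : s < 2) (c : ℕ) :
    (cplE N C i).countP (fun e => IncC (2 * n + s) c e) =
      [(C.1, C.2.1), (C.1, C.2.2)].count (c, n) := by
  have e1 : ∀ r, cv N i r ≠ 2 * n + s := by intro r; simp only [cv]; omega
  obtain ⟨c', n', m'⟩ := C
  have e2 : (2 * n' = 2 * n + s) ↔ (n' = n ∧ s = 0) := by omega
  have e3 : (2 * n' + 1 = 2 * n + s) ↔ (n' = n ∧ s = 1) := by omega
  have e4 : (2 * m' = 2 * n + s) ↔ (m' = n ∧ s = 0) := by omega
  have e5 : (2 * m' + 1 = 2 * n + s) ↔ (m' = n ∧ s = 1) := by omega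
  simp only [cplE, List.countP_cons, List.countP_nil, IncC, EndOf, e1, e2, e3, e4, e5]
  have hs' : s = 0 ∨ s = 1 := by omega
  rcases hs' with rfl | rfl
  · simp only [List.count_cons, List.count_nil, or_false, and_true, zero_ne_one, and_false,
      false_and, decide_false, Bool.false_eq_true, if_false, zero_add, add_zero]
    by_cases h1 : n' = n <;> by_cases h2 : m' = n <;> by_cases h3 : c' = c <;>
      simp [h1, h2, h3]
  · simp only [List.count_cons, List.count_nil, or_false, and_true, one_ne_zero, and_false,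
      false_and, decide_false, Bool.false_eq_true, if_false, zero_add, add_zero]
    by_cases h1 : n' = n <;> by_cases h2 : m' = n <;> by_cases h3 : c' = c <;>
      simp [h1, h2, h3]

/-- ends of the edges of a coupler -/
lemma cplE_ends {C : Cpl} {i : ℕ} {e : CEdge} (he : e ∈ cplE N C i) :
    ((∃ s < 2, (e.1 = 2 * C.2.1 + s ∨ e.1 = 2 * C.2.2 + s)) ∨ ∃ a < 12, e.1 = cv N i a) ∧
    (∃ b < 12, e.2.1 = cv N i b) ∧ (e.2.2 = C.1 ∨ e.2.2 = nc C.1 ∨ e.2.2 = nc (nc C.1) ∨
      e.2.2 = 3) := by
  simp only [cplE, List.mem_cons, List.not_mem_nil, or_false] at he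
  rcases he with rfl | rfl | rfl | rfl | rfl | rfl | rfl | rfl | rfl | rfl | rfl | rfl | rfl |
    rfl | rfl | rfl | rfl | rfl | rfl | rfl | rfl | rfl | rfl | rfl | rfl | rfl
  · exact ⟨Or.inl ⟨0, by norm_num, Or.inl rfl⟩, ⟨_, by norm_num, rfl⟩, by simp⟩
  · exact ⟨Or.inl ⟨1, by norm_num, Or.inl rfl⟩, ⟨_, by norm_num, rfl⟩, by simp⟩
  · exact ⟨Or.inl ⟨0, by norm_num, Or.inr rfl⟩, ⟨_, by norm_num, rfl⟩, by simp⟩
  · exact ⟨Or.inl ⟨1, by norm_num, Or.inr rfl⟩, ⟨_, by norm_num, rfl⟩, by simp⟩
  all_goals exact ⟨Or.inr ⟨_, by norm_num, rfl⟩, ⟨_, by norm_num, rfl⟩, by simp⟩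

lemma cplE_ne {C : Cpl} (hN : C.2.1 < N ∧ C.2.2 < N) {i : ℕ} {e : CEdge} (he : e ∈ cplE N C i) :
    e.1 ≠ e.2.1 := by
  simp only [cplE, List.mem_cons, List.not_mem_nil, or_false] at he
  rcases he with rfl | rfl | rfl | rfl | rfl | rfl | rfl | rfl | rfl | rfl | rfl | rfl | rfl |
    rfl | rfl | rfl | rfl | rfl | rfl | rfl | rfl | rfl | rfl | rfl | rfl | rfl <;>
    (simp only [cv]; omega)

lemma cplE_sep {C : Cpl} (hN : C.2.1 < N ∧ C.2.2 < N) (hne : C.2.1 ≠ C.2.2) (i : ℕ) :
    (cplE N C i).Pairwise Sep := by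
  obtain ⟨c, n, m⟩ := C
  simp only at hN hne
  obtain ⟨hn, hm⟩ := hN
  have e1 : ∀ r, (2 * n = cv N i r) ↔ False := by intro r; simp only [cv, iff_false]; omega
  have e2 : ∀ r, (2 * n + 1 = cv N i r) ↔ False := by intro r; simp only [cv, iff_false]; omega
  have e3 : ∀ r, (2 * m = cv N i r) ↔ False := by intro r; simp only [cv, iff_false]; omega
  have e4 : ∀ r, (2 * m + 1 = cv N i r) ↔ False := by intro r; simp only [cv, iff_false]; omega
  have f1 : ∀ r, (cv N i r = 2 * n) ↔ False := by intro r; simp only [cv, iff_false]; omega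
  have f2 : ∀ r, (cv N i r = 2 * n + 1) ↔ False := by intro r; simp only [cv, iff_false]; omega
  have f3 : ∀ r, (cv N i r = 2 * m) ↔ False := by intro r; simp only [cv, iff_false]; omega
  have f4 : ∀ r, (cv N i r = 2 * m + 1) ↔ False := by intro r; simp only [cv, iff_false]; omega
  have e5 : ∀ a b, (cv N i a = cv N i b) ↔ a = b := by intro a b; simp only [cv]; omega
  simp only [cplE, List.pairwise_cons, List.mem_cons,
      List.not_mem_nil, or_false, Sep, forall_eq_or_imp, forall_eq,
      List.Pairwise.nil, IsEmpty.forall_iff, implies_true, and_true, e1, e2, e3, e4, e5, f1, f2,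
      f3, f4]
  simp

/-- the sum over a list with indices in which only one index contributes -/
lemma sum_zipIdx_single {α : Type*} (S : List α) (f : α → ℕ → ℕ) (w k x : ℕ) (hw : k ≤ w)
    (hw2 : w < k + S.length) (hx : ∀ a ∈ S, f a w = x)
    (h0 : ∀ a ∈ S, ∀ j, j ≠ w → f a j = 0) :
    ((S.zipIdx k).map fun sj => f sj.1 sj.2).sum = x := by
  induction S generalizing k with
  | nil => simp only [List.length_nil] at hw2; omega
  | cons a S ih =>
    rw [List.zipIdx_cons, List.map_cons, List.sum_cons]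
    simp only
    by_cases h : w = k
    · subst h
      rw [hx a (by simp)]
      have : ((S.zipIdx (w + 1)).map fun sj => f sj.1 sj.2).sum = 0 := by
        rw [List.sum_eq_zero_iff]
        intro y hy
        obtain ⟨⟨b, j⟩, hb, rfl⟩ := List.mem_map.mp hy
        have hj := List.le_snd_of_mem_zipIdx hb
        simp only at hj
        exact h0 b (List.mem_cons_of_mem _ (List.fst_mem_of_mem_zipIdx hb)) j (by omega)
      rw [this, add_zero]
    · rw [h0 a (by simp) k (Ne.symm h), zero_add]
      simp only [List.length_cons] at hw2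
      exact ih (k + 1) (by omega) (by omega) (fun b hb => hx b (by simp [hb]))
        (fun b hb => h0 b (by simp [hb]))

lemma count_endsL (L : List Cpl) (x : ℕ × ℕ) (k : ℕ) :
    ((L.zipIdx k).map fun Ci => [(Ci.1.1, Ci.1.2.1), (Ci.1.1, Ci.1.2.2)].count x).sum =
      (endsL L).count x := by
  induction L generalizing k with
  | nil => simp [endsL]
  | cons C L ih =>
    rw [List.zipIdx_cons, List.map_cons, List.sum_cons, ih]
    simp only [endsL, List.flatMap_cons, List.count_append]

lemma count_endsR (R : List (ℕ × ℕ)) (hne : ∀ ab ∈ R, ab.1 ≠ ab.2) (u : ℕ) :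
    (R.map (fun ab => ((ab.1, ab.2, 3) : CEdge))).countP (fun e => IncC u 3 e) =
      (endsR R).count u := by
  induction R with
  | nil => simp [endsR]
  | cons ab R ih =>
    rw [List.map_cons, List.countP_cons, ih (fun x hx => hne x (by simp [hx]))]
    simp only [endsR, List.flatMap_cons, List.count_append]
    have h0 := hne ab (by simp)
    rw [add_comm]
    congr 1
    obtain ⟨a, b⟩ := ab
    simp only at h0
    simp only [IncC, EndOf, and_true, List.count_cons, List.count_nil, zero_add]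
    by_cases h1 : a = u <;> by_cases h2 : b = u <;> simp [h1, h2]
    exact h0 (h1.trans h2.symm)

lemma NetOK.r_ne (h : NetOK N R L) : ∀ ab ∈ R, ab.1 ≠ ab.2 := by
  intro ab hab h0
  obtain ⟨s, t, rfl⟩ := List.append_of_mem hab
  have h1 := h.hR ab.1
  obtain ⟨h2, h3, -, -⟩ := h.r_mem hab
  rw [if_pos ⟨h2, h3⟩] at h1
  simp only [endsR, List.flatMap_append, List.flatMap_cons, List.count_append] at h1
  rw [← h0] at h1
  simp only [List.count_cons_self, List.count_nil, zero_add] at h1
  omega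

lemma NetOK.c_ne (h : NetOK N R L) : ∀ C ∈ L, C.2.1 ≠ C.2.2 := by
  intro C hC h0
  obtain ⟨s, t, hst⟩ := List.append_of_mem hC
  obtain ⟨h2, h3, h4⟩ := h.cpl_mem hC
  have h1 := h.hL C.1 C.2.1
  have h5 : (endsL L).count (C.1, C.2.1) ≤ 1 := by
    rw [h1]; split <;> norm_num
  rw [hst] at h5
  simp only [endsL, List.flatMap_append, List.flatMap_cons, List.count_append] at h5
  rw [← h0] at h5
  simp only [List.count_cons_self, List.count_nil, zero_add] at h5
  omega

/-- **every vertex has exactly one edge of every colour** -/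
theorem net_count (h : NetOK N R L) (u : ℕ) (hu : u < netM N L) (c : ℕ) (hc : c < 4) :
    (netE N R L).countP (fun e => IncC u c e) = 1 := by
  have h2 := h.two
  rw [netE, List.countP_append, List.countP_append, List.countP_flatMap]
  by_cases hu2 : u < 2 * N
  · -- vertex of a node
    have hcpl : (L.zipIdx.map ((List.countP fun e => decide (IncC u c e)) ∘ fun Ci =>
        cplE N Ci.1 Ci.2)).sum = (endsL L).count (c, u / 2) := by
      rw [← count_endsL L (c, u / 2) 0]
      congr 1
      apply List.map_congr_left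
      rintro ⟨C, i⟩ -
      simp only [Function.comp_apply]
      have h3 := cplE_count_node (N := N) C i (u / 2) (u % 2) (by omega) (by omega) c
      have h4 : 2 * (u / 2) + u % 2 = u := by omega
      rw [h4] at h3
      exact h3
    rw [hcpl, h.hL]
    by_cases hc3 : c = 3
    · subst hc3
      have hz : (if ((3 : ℕ) < 3 ∧ 2 ≤ u / 2 ∧ u / 2 < N) ∨ ((3 : ℕ) = 2 ∧ u / 2 < 2) then 1 else 0)
          = 0 := if_neg (by omega)
      rw [count_endsR R h.r_ne, h.hR, hz, add_zero]
      by_cases hu4 : u < 4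
      · rw [if_neg (by omega)]
        interval_cases u <;> decide
      · rw [if_pos (by omega)]
        have : frameE.countP (fun e => IncC u 3 e) = 0 := by
          rw [List.countP_eq_zero]
          intro e he
          simp only [frameE, List.mem_cons, List.not_mem_nil, or_false] at he
          rcases he with rfl | rfl | rfl | rfl | rfl | rfl <;> simp [IncC, EndOf] <;> omega
        rw [this]
    · have hR0 : (R.map (fun ab => ((ab.1, ab.2, 3) : CEdge))).countP (fun e => IncC u c e) = 0 := by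
        rw [List.countP_eq_zero]
        intro e he
        obtain ⟨ab, -, rfl⟩ := List.mem_map.mp he
        simp only [IncC, decide_eq_true_eq]
        rintro ⟨-, h0⟩
        exact hc3 h0.symm
      rw [hR0]
      by_cases hu4 : u < 4
      · interval_cases u <;> interval_cases c <;> simp [frameE, IncC, EndOf] at hc3 ⊢
      · rw [if_pos (by omega)]
        have : frameE.countP (fun e => IncC u c e) = 0 := by
          rw [List.countP_eq_zero]
          intro e he
          simp only [frameE, List.mem_cons, List.not_mem_nil, or_false] at he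
          rcases he with rfl | rfl | rfl | rfl | rfl | rfl <;> simp [IncC, EndOf] <;> omega
        rw [this]
  · -- vertex of a coupler
    have hf : frameE.countP (fun e => IncC u c e) = 0 := by
      rw [List.countP_eq_zero]
      intro e he
      simp only [frameE, List.mem_cons, List.not_mem_nil, or_false] at he
      rcases he with rfl | rfl | rfl | rfl | rfl | rfl <;> simp [IncC, EndOf] <;> omega
    have hR0 : (R.map (fun ab => ((ab.1, ab.2, 3) : CEdge))).countP (fun e => IncC u c e) = 0 := by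
      rw [List.countP_eq_zero]
      intro e he
      obtain ⟨ab, hab, rfl⟩ := List.mem_map.mp he
      have := h.r_mem hab
      simp only [IncC, EndOf, decide_eq_true_eq]
      omega
    rw [hf, hR0, zero_add, zero_add]
    have hlen : (u - 2 * N) / 12 < L.length := by unfold netM at hu; omega
    have hdec : u = cv N ((u - 2 * N) / 12) ((u - 2 * N) % 12) := by simp only [cv]; omega
    refine sum_zipIdx_single L (fun C i => (cplE N C i).countP fun e => IncC u c e)
      ((u - 2 * N) / 12) 0 1 (by omega) (by omega) ?_ ?_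
    · intro C hC
      obtain ⟨c1, c2, c3⟩ := h.cpl_mem hC
      have := cplE_count_own (N := N) C ⟨c2, c3⟩ c1 ((u - 2 * N) / 12) ((u - 2 * N) % 12)
        (by omega) c hc
      rw [← hdec] at this
      exact this
    · intro C hC j hj
      obtain ⟨c1, c2, c3⟩ := h.cpl_mem hC
      rw [List.countP_eq_zero]
      intro e he
      obtain ⟨hl, ⟨b, hb, hb'⟩, -⟩ := cplE_ends he
      simp only [IncC, EndOf, decide_eq_true_eq]
      rintro ⟨h0 | h0, -⟩
      · rcases hl with ⟨s, hs, hs'⟩ | ⟨a, ha, ha'⟩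
        · omega
        · rw [h0] at ha'; simp only [cv] at ha'; omega
      · rw [h0] at hb'; simp only [cv] at hb'; omega

/-- colours are less than four -/
theorem net_colour (h : NetOK N R L) : ∀ e ∈ netE N R L, e.2.2 < 4 := by
  intro e he
  simp only [netE, List.mem_append] at he
  rcases he with he | he | he
  · simp only [frameE, List.mem_cons, List.not_mem_nil, or_false] at he
    rcases he with rfl | rfl | rfl | rfl | rfl | rfl <;> norm_num
  · obtain ⟨ab, -, rfl⟩ := List.mem_map.mp he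
    norm_num
  · obtain ⟨⟨C, i⟩, hm, he⟩ := List.mem_flatMap.mp he
    have hC : C ∈ L := List.fst_mem_of_mem_zipIdx hm
    obtain ⟨c1, -, -⟩ := h.cpl_mem hC
    obtain ⟨-, -, hcol⟩ := cplE_ends he
    have n1 := @nc_lt C.1
    have n2 := @nc_lt (nc C.1)
    have hcol' : e.2.2 = C.1 ∨ e.2.2 = nc C.1 ∨ e.2.2 = nc (nc C.1) ∨ e.2.2 = 3 := hcol
    omega

theorem net_ends (h : NetOK N R L) : ∀ e ∈ netE N R L,
    e.1 < netM N L ∧ e.2.1 < netM N L ∧ e.1 ≠ e.2.1 := by
  intro e he
  have h2 := h.two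
  simp only [netE, List.mem_append] at he
  simp only [netM]
  rcases he with he | he | he
  · simp only [frameE, List.mem_cons, List.not_mem_nil, or_false] at he
    rcases he with rfl | rfl | rfl | rfl | rfl | rfl <;> simp <;> omega
  · obtain ⟨ab, hab, rfl⟩ := List.mem_map.mp he
    have h3 := h.r_ne ab hab
    have h4 := h.r_mem hab
    simp only
    omega
  · obtain ⟨⟨C, i⟩, hm, he⟩ := List.mem_flatMap.mp he
    have hi : i < L.length := by
      rw [List.mem_zipIdx_iff_getElem?] at hm
      exact (List.getElem?_eq_some_iff.mp hm).1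
    have hC : C ∈ L := List.fst_mem_of_mem_zipIdx hm
    obtain ⟨c1, c2, c3⟩ := h.cpl_mem hC
    obtain ⟨hl, ⟨b, hb, hb'⟩, hcol⟩ := cplE_ends he
    have h5 := cplE_ne ⟨c2, c3⟩ he
    refine ⟨?_, ?_, h5⟩
    · rcases hl with ⟨s, hs, hs'⟩ | ⟨a, ha, ha'⟩
      · simp only at hs'; omega
      · rw [ha']; simp only [cv]; omega
    · rw [hb']; simp only [cv]; omega

theorem net_sep (h : NetOK N R L) : (netE N R L).Pairwise Sep := by
  have h2 := h.two
  unfold netE
  rw [List.pairwise_append, List.pairwise_append]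
  refine ⟨by simp [frameE, Sep], ⟨?_, ?_, ?_⟩, ?_⟩
  · rw [List.pairwise_map]
    have hnd : (endsR R).Nodup := by
      rw [List.nodup_iff_count_le_one]
      intro x; rw [h.hR]; split <;> norm_num
    clear h
    induction R with
    | nil => exact List.Pairwise.nil
    | cons ab R ih =>
      rw [List.pairwise_cons]
      simp only [endsR, List.flatMap_cons] at hnd
      rw [List.nodup_append] at hnd
      obtain ⟨n1, n2, n3⟩ := hnd
      refine ⟨?_, ih n2⟩
      intro cd hcd
      have m1 : cd.1 ∈ endsR R := List.mem_flatMap.mpr ⟨cd, hcd, by simp⟩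
      have m2 : cd.2 ∈ endsR R := List.mem_flatMap.mpr ⟨cd, hcd, by simp⟩
      have q1 := n3 ab.1 (by simp) cd.1 m1
      have q2 := n3 ab.1 (by simp) cd.2 m2
      unfold Sep
      simp only
      rintro (⟨a1, a2⟩ | ⟨a1, a2⟩)
      · exact q1 a1
      · exact q2 a1
  · refine pairwise_flatMap_of (zipIdx_pairwise _ 0) ?_ ?_
    · rintro ⟨C, i⟩ hm
      have hC : C ∈ L := List.fst_mem_of_mem_zipIdx hm
      obtain ⟨c1, c2, c3⟩ := h.cpl_mem hC
      exact cplE_sep ⟨c2, c3⟩ (h.c_ne C hC) i
    · rintro ⟨C, i⟩ hm ⟨D, j⟩ hm' hij e he f hf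
      have hC : C ∈ L := List.fst_mem_of_mem_zipIdx hm
      have hD : D ∈ L := List.fst_mem_of_mem_zipIdx hm'
      obtain ⟨c1, c2, c3⟩ := h.cpl_mem hC
      obtain ⟨d1, d2, d3⟩ := h.cpl_mem hD
      obtain ⟨hl, ⟨b, hb, hb'⟩, -⟩ := cplE_ends he
      obtain ⟨hl', ⟨b', hb2, hb2'⟩, -⟩ := cplE_ends hf
      simp only at hij hl hl'
      simp only [cv] at *
      unfold Sep
      omega
  · intro e he f hf
    obtain ⟨ab, hab, rfl⟩ := List.mem_map.mp he
    have h4 := h.r_mem hab
    obtain ⟨⟨C, i⟩, hm, hf⟩ := List.mem_flatMap.mp hf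
    obtain ⟨-, ⟨b', hb2, hb2'⟩, -⟩ := cplE_ends hf
    simp only [cv] at *
    unfold Sep
    simp only
    omega
  · intro e he f hf
    have e4 : e.1 < 4 ∧ e.2.1 < 4 := by
      simp only [frameE, List.mem_cons, List.not_mem_nil, or_false] at he
      rcases he with rfl | rfl | rfl | rfl | rfl | rfl <;> norm_num
    rcases List.mem_append.mp hf with hf | hf
    · obtain ⟨ab, hab, rfl⟩ := List.mem_map.mp hf
      have h4 := h.r_mem hab
      unfold Sep
      simp only
      omega
    · obtain ⟨⟨C, i⟩, hm, hf⟩ := List.mem_flatMap.mp hf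
      obtain ⟨-, ⟨b', hb2, hb2'⟩, -⟩ := cplE_ends hf
      simp only [cv] at *
      unfold Sep
      omega

/-- proper colouring, in list form -/
theorem net_proper (h : NetOK N R L) : (netE N R L).Pairwise Prop2 := by
  have key : ∀ E : List CEdge, (∀ e ∈ E, e.2.2 < 4) →
      (∀ u c, c < 4 → E.countP (fun e => IncC u c e) ≤ 1) → E.Pairwise Prop2 := by
    intro E
    induction E with
    | nil => intros; exact List.Pairwise.nil
    | cons e E ih =>
      intro hcol hcnt
      rw [List.pairwise_cons]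
      constructor
      · intro f hf v hv hv' hc
        have h0 := hcnt v e.2.2 (hcol e (by simp))
        rw [List.countP_cons] at h0
        have h1 : decide (IncC v e.2.2 e) = true := by simp [IncC, hv]
        rw [if_pos h1] at h0
        have h2 : 0 < E.countP (fun e' => IncC v e.2.2 e') := by
          rw [List.countP_pos_iff]
          exact ⟨f, hf, by simp [IncC, hv', hc]⟩
        omega
      · apply ih (fun f hf => hcol f (by simp [hf]))
        intro u c hc
        have h0 := hcnt u c hc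
        rw [List.countP_cons] at h0
        omega
  apply key _ (net_colour h)
  intro u c hc
  by_cases hu : u < netM N L
  · rw [net_count h u hu c hc]
  · have : (netE N R L).countP (fun e => IncC u c e) = 0 := by
      rw [List.countP_eq_zero]
      intro e he
      have := net_ends h e he
      simp only [IncC, EndOf, decide_eq_true_eq]
      omega
    omega

/-- degree four -/
theorem net_regular (h : NetOK N R L) (u : ℕ) (hu : u < netM N L) :
    (netE N R L).countP (fun e => EndOf u e) = 4 := by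
  have key : ∀ E : List CEdge, (∀ e ∈ E, e.2.2 < 4) →
      E.countP (fun e => EndOf u e) = E.countP (fun e => IncC u 0 e) +
        E.countP (fun e => IncC u 1 e) + E.countP (fun e => IncC u 2 e) +
        E.countP (fun e => IncC u 3 e) := by
    intro E
    induction E with
    | nil => intros; rfl
    | cons e E ih =>
      intro hcol
      have hc := hcol e (by simp)
      simp only [List.countP_cons]
      rw [ih (fun f hf => hcol f (by simp [hf]))]
      by_cases h1 : EndOf u e
      · simp only [IncC, h1, true_and, decide_true, if_true]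
        have : e.2.2 = 0 ∨ e.2.2 = 1 ∨ e.2.2 = 2 ∨ e.2.2 = 3 := by omega
        rcases this with h | h | h | h <;> simp [h] <;> omega
      · simp only [IncC, h1, false_and, decide_false, Bool.false_eq_true, if_false]
        omega
  rw [key _ (net_colour h), net_count h u hu 0 (by norm_num), net_count h u hu 1 (by norm_num),
    net_count h u hu 2 (by norm_num), net_count h u hu 3 (by norm_num)]

theorem net_good (h : NetOK N R L) : GoodG (netE N R L) (netM N L) := by
  refine ⟨?_, ?_, ?_⟩
  · intro e he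
    obtain ⟨h1, h2, h3⟩ := net_ends h e he
    exact ⟨h1, h2, h3, net_colour h e he⟩
  · intro e he f hf hef
    have : Std.Symm Sep := ⟨fun _ _ h => h.symm'⟩
    exact (net_sep h).forall he hf hef
  · intro u hu c hc
    have := net_count h u hu c hc
    have h0 : 0 < (netE N R L).countP (fun e => IncC u c e) := by omega
    rw [List.countP_pos_iff] at h0
    obtain ⟨e, he, hinc⟩ := h0
    simp only [decide_eq_true_eq] at hinc
    exact ⟨e, he, hinc.1, hinc.2⟩

theorem net_frame (h : NetOK N R L) : HasFrame (netE N R L) := by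
  have h2 := h.two
  obtain ⟨L', hL'⟩ := h.head
  have hf : ∀ e ∈ frameE, e ∈ netE N R L := fun e he => List.mem_append_left _ he
  have hp : ∀ e ∈ cplE N (2, 0, 1) 0, e ∈ netE N R L := by
    intro e he
    apply List.mem_append_right
    apply List.mem_append_right
    rw [hL']
    exact List.mem_flatMap.mpr ⟨((2, 0, 1), 0), by simp [List.zipIdx_cons], he⟩
  constructor
  · refine ⟨2, 3, 1, 0, by norm_num, ⟨(2, 3, 0), hf _ (by simp [frameE]), ?_⟩,
      ⟨(0, 1, 0), hf _ (by simp [frameE]), ?_⟩, ⟨(2, 1, 1), hf _ (by simp [frameE]), ?_⟩,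
      ⟨(3, 0, 1), hf _ (by simp [frameE]), ?_⟩, ⟨(0, 2, 3), hf _ (by simp [frameE]), ?_⟩,
      ⟨(1, 3, 3), hf _ (by simp [frameE]), ?_⟩⟩ <;> simp [EndOf]
  · refine ⟨cv N 0 0, cv N 0 1, cv N 0 2, cv N 0 6, cv N 0 7, cv N 0 8, ?_,
      ⟨(cv N 0 0, cv N 0 1, 1), hp _ ?_, ?_⟩, ⟨(cv N 0 6, cv N 0 7, 1), hp _ ?_, ?_⟩,
      ⟨(cv N 0 1, cv N 0 2, 2), hp _ ?_, ?_⟩, ⟨(cv N 0 7, cv N 0 8, 2), hp _ ?_, ?_⟩,
      ⟨(cv N 0 0, cv N 0 2, 0), hp _ ?_, ?_⟩, ⟨(cv N 0 6, cv N 0 8, 0), hp _ ?_, ?_⟩,
      ⟨(cv N 0 0, cv N 0 6, 3), hp _ ?_, ?_⟩, ⟨(cv N 0 1, cv N 0 7, 3), hp _ ?_, ?_⟩,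
      ⟨(cv N 0 2, cv N 0 8, 3), hp _ ?_, ?_⟩⟩
    · simp [cv]
    all_goals simp [cplE, nc, EndOf]

end Pool.Agent.Work.MP_8aa36a_lc
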