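import Pool.Agent.Work.MP_8aa36a_lc.Four.GateSound

/-!
Gates of a list of triples of points.
-/

set_option autoImplicit false

namespace Pool.Agent.Work.MP_8aa36a_lc

open Pool.Agent.Work.MP_8c8e41_lc

/-- name of the first coordinate of a point -/
def lam (m : ℕ) : ℕ := if m = 0 then 6 else 3 * m

/-- name of the second coordinate of a point -/
def lam' (m : ℕ) : ℕ := if m = 0 then 43 else 3 * m + 1

/-- a triple of old points -/
def ptT (t : Tri) : Tri := (2 * t.1 + 2, 2 * t.2.1 + 2, 2 * t.2.2 + 2)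

/-- the collinear triples; the point `0` is new -/
def triP (P : List Tri) : List Tri := P.map ptT ++ [(4, 8, 0)]

/-- three gates for each triple, with a private point -/
def gates3 (T : List Tri) : List Tri :=
  T.zipIdx.flatMap fun tj =>
    [(tj.1.1, tj.1.2.1, 2 * tj.2 + 1), (tj.1.1, tj.1.2.2, 2 * tj.2 + 1),
     (tj.1.2.1, tj.1.2.2, 2 * tj.2 + 1)]

/-- names of a gate -/
def gname (t : Tri) (k : ℕ) : List ℕ :=
  [lam t.1, lam t.2.1, lam t.2.2, lam' t.1, lam' t.2.1, lam' t.2.2, 9 * k + 2, 9 * k + 5, 9 * k + 8]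

def gateNames (G : List Tri) : List (List ℕ) := G.zipIdx.map fun gk => gname gk.1 gk.2

lemma gateNames_len (G : List Tri) : ∀ g ∈ gateNames G, g.length = 9 := by
  intro g hg
  obtain ⟨x, -, rfl⟩ := List.mem_map.mp hg
  rfl

lemma gateNames_length (G : List Tri) : (gateNames G).length = G.length := by
  simp [gateNames]

lemma nm_gateNames {G : List Tri} {k : ℕ} (hk : k < G.length) (e : ℕ) :
    nm (gateNames G) k e = (gname G[k] k).getD e 0 := by
  have : (gateNames G).getD k [] = gname G[k] k := by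
    simp [gateNames, hk]
  rw [nm, this]

/-- the names of the gates of a list of triples -/
def fourGs (P : List Tri) : List (List ℕ) := gateNames (gates3 (triP P))

def fourB (gs : List (List ℕ)) : ℕ := (gs.flatMap fun x => x).sum + 1

lemma fourB_lt (gs : List (List ℕ)) : ∀ g ∈ gs, ∀ n ∈ g, n < fourB gs := by
  intro g hg n hn
  have : n ∈ gs.flatMap fun x => x := List.mem_flatMap.mpr ⟨g, hg, hn⟩
  have := List.le_sum_of_mem this
  unfold fourB; omega

/-- affine points -/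
def pv (t : ℕ → ℝ) (m : ℕ) : V3 := (1, t (lam m), t (lam' m))

/-- what a gate says about affine points -/
structure Good3 (a b c : V3) : Prop where
  det : det3 a b c = 0
  x1 : a.2.1 ≠ b.2.1
  x2 : a.2.1 ≠ c.2.1
  x3 : b.2.1 ≠ c.2.1
  y1 : a.2.2 ≠ b.2.2
  y2 : a.2.2 ≠ c.2.2
  y3 : b.2.2 ≠ c.2.2

lemma good3_of_gate {t : ℕ → ℝ} {n : ℕ → ℕ} (h : GateHolds t n) :
    Good3 (1, t (n 0), t (n 3)) (1, t (n 1), t (n 4)) (1, t (n 2), t (n 5)) := by
  obtain ⟨⟨x, y, z⟩, h0, hn, h1, h2, n1, n2, -⟩ := h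
  have hx : x ≠ 0 := hn 0 (by norm_num)
  have hy : y ≠ 0 := hn 1 (by norm_num)
  have hz : z ≠ 0 := hn 2 (by norm_num)
  simp only [sum3, Par] at h0 h1 h2 n1 n2
  have ez : z = - x - y := by linarith
  have k1 : ∀ a b c : ℝ, a * x + b * y + c * z = 0 → ¬ x * (b * y) = y * (a * x) →
      a ≠ b ∧ a ≠ c ∧ b ≠ c := by
    intro a b c hs hp
    have hab : a ≠ b := by
      rintro rfl
      apply hp; ring
    refine ⟨hab, ?_, ?_⟩
    · rintro rfl
      apply hab
      apply mul_right_cancel₀ hy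
      rw [ez] at hs; linarith
    · rintro rfl
      apply hab
      apply mul_right_cancel₀ hx
      rw [ez] at hs; linarith
  obtain ⟨a1, a2, a3⟩ := k1 _ _ _ h1 n1
  obtain ⟨b1, b2, b3⟩ := k1 _ _ _ h2 n2
  refine ⟨?_, a1, a2, a3, b1, b2, b3⟩
  apply mul_left_cancel₀ hx
  rw [mul_zero]
  simp only [det3]
  have e1 : t (n 0) * x = - (t (n 1) * y) - t (n 2) * z := by linarith
  have e2 : t (n 3) * x = - (t (n 4) * y) - t (n 5) * z := by linarith
  have e0 : x = - y - z := by linarith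
  calc x * (1 * (t (n 1) * t (n 5) - t (n 4) * t (n 2)) - t (n 0) * (1 * t (n 5) - t (n 4) * 1) +
        t (n 3) * (1 * t (n 2) - t (n 1) * 1))
      = x * (t (n 1) * t (n 5) - t (n 4) * t (n 2)) - (t (n 0) * x) * (t (n 5) - t (n 4)) +
        (t (n 3) * x) * (t (n 2) - t (n 1)) := by ring
    _ = (- y - z) * (t (n 1) * t (n 5) - t (n 4) * t (n 2)) -
        (- (t (n 1) * y) - t (n 2) * z) * (t (n 5) - t (n 4)) +
        (- (t (n 4) * y) - t (n 5) * z) * (t (n 2) - t (n 1)) := by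
          rw [← e0, e1, e2]
    _ = 0 := by ring

lemma gates3_mem {T : List Tri} {j : ℕ} (hj : j < T.length) :
    (T[j].1, T[j].2.1, 2 * j + 1) ∈ gates3 T ∧ (T[j].1, T[j].2.2, 2 * j + 1) ∈ gates3 T ∧
    (T[j].2.1, T[j].2.2, 2 * j + 1) ∈ gates3 T := by
  have hmem : (T[j], j) ∈ T.zipIdx := by
    rw [List.mem_zipIdx_iff_getElem?]; simp [hj]
  refine ⟨?_, ?_, ?_⟩ <;> exact List.mem_flatMap.mpr ⟨_, hmem, by simp⟩

/-- gates give good triples -/
lemma good3_gates {t : ℕ → ℝ} {G : List Tri}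
    (h : ∀ k < (gateNames G).length, GateHolds t (nm (gateNames G) k)) :
    ∀ g ∈ G, Good3 (pv t g.1) (pv t g.2.1) (pv t g.2.2) := by
  intro g hg
  obtain ⟨k, hk, rfl⟩ := List.getElem_of_mem hg
  have h1 := good3_of_gate (h k (by rwa [gateNames_length]))
  simp only [nm_gateNames hk] at h1
  exact h1

/-- two lines through two different points -/
lemma good3_join {p q r s : V3} (hp : p.1 = 1) (hq : q.1 = 1) (hr : r.1 = 1) (hs : s.1 = 1)
    (h1 : Good3 p q s) (h2 : Good3 p r s) (h3 : Good3 q r s) : Good3 p q r := by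
  refine ⟨?_, h1.x1, h2.x1, h3.x1, h1.y1, h2.y1, h3.y1⟩
  have d1 := h1.det
  have d2 := h2.det
  have hx := h1.x2
  obtain ⟨p0, p1, p2⟩ := p
  obtain ⟨q0, q1, q2⟩ := q
  obtain ⟨r0, r1, r2⟩ := r
  obtain ⟨s0, s1, s2⟩ := s
  simp only at hp hq hr hs hx
  subst hp hq hr hs
  simp only [det3] at d1 d2 ⊢
  have hx' : s1 - p1 ≠ 0 := sub_ne_zero.mpr (Ne.symm hx)
  apply mul_left_cancel₀ hx'
  linear_combination (r1 - p1) * d1 - (q1 - p1) * d2

lemma good3_triples {t : ℕ → ℝ} {T : List Tri}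
    (h : ∀ g ∈ gates3 T, Good3 (pv t g.1) (pv t g.2.1) (pv t g.2.2)) :
    ∀ s ∈ T, Good3 (pv t s.1) (pv t s.2.1) (pv t s.2.2) := by
  intro s hs
  obtain ⟨j, hj, rfl⟩ := List.getElem_of_mem hs
  obtain ⟨m1, m2, m3⟩ := gates3_mem hj
  exact good3_join rfl rfl rfl rfl (h (T[j].1, T[j].2.1, 2 * j + 1) m1)
    (h (T[j].1, T[j].2.2, 2 * j + 1) m2) (h (T[j].2.1, T[j].2.2, 2 * j + 1) m3)

lemma Good3.indep {a b c : V3} (h : Good3 a b c) (ha : a.1 = 1) (hb : b.1 = 1) (hc : c.1 = 1) :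
    Indep a b ∧ Indep a c ∧ Indep b c := by
  refine ⟨indep_xy ?_, indep_xy ?_, indep_xy ?_⟩
  · rw [ha, hb]; intro h0; apply h.x1; linarith
  · rw [ha, hc]; intro h0; apply h.x2; linarith
  · rw [hb, hc]; intro h0; apply h.x3; linarith

theorem points_sound {L : List SGate} {t : ℕ → ℝ}
    (h : ∀ s ∈ triP (stageBPos (stageA L)), Good3 (pv t s.1) (pv t s.2.1) (pv t s.2.2)) :
    ∃ x : ℕ → ℝ, ∀ g ∈ L, g.Holds x := by
  obtain ⟨p, hp⟩ : ∃ p : ℕ → V3, p = fun v => pv t (2 * v + 2) := ⟨_, rfl⟩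
  have p1 : ∀ v, (p v).1 = 1 := by intro v; rw [hp]; rfl
  have hpos : ∀ s ∈ stageBPos (stageA L), Good3 (p s.1) (p s.2.1) (p s.2.2) := by
    intro s hs
    rw [hp]
    exact h (ptT s) (List.mem_append_left _ (List.mem_map.mpr ⟨s, hs, rfl⟩))
  have hH : Good3 (p 1) (p 3) (pv t 0) := by
    rw [hp]
    exact h (4, 8, 0) (List.mem_append_right _ (by simp))
  have ind : ∀ s ∈ stageBPos (stageA L), Indep (p s.1) (p s.2.1) ∧ Indep (p s.1) (p s.2.2) ∧
      Indep (p s.2.1) (p s.2.2) := fun s hs => (hpos s hs).indep (p1 _) (p1 _) (p1 _)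
  have m1 : ((6, 0, 1) : Tri) ∈ stageBPos (stageA L) := List.mem_append_left _ (by simp [basePos])
  have m2 : ((6, 3, 9) : Tri) ∈ stageBPos (stageA L) := List.mem_append_left _ (by simp [basePos])
  have g1 := hpos _ m1
  have g2 := hpos _ m2
  obtain ⟨i60, i61, i01⟩ := ind _ m1
  obtain ⟨i63, i69, i39⟩ := ind _ m2
  simp only at g1 g2 i60 i61 i01 i63 i69 i39
  have iH := (hH.indep (p1 _) (p1 _) rfl).1
  have hD : det3 (p 0) (p 3) (p 6) ≠ 0 := by
    intro h0
    have d1 : det3 (p 6) (p 0) (p 3) = 0 := by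
      simp only [det3] at h0 ⊢; linarith
    have d2 : det3 (p 6) (p 0) (pv t 0) = 0 := det3_line' i60 iH g1.det d1 hH.det
    have e1 : (pv t 0).2.1 = (p 0).2.1 := by rw [hp]; rfl
    have e2 : (pv t 0).2.2 = (p 6).2.2 := by rw [hp]; rfl
    have e3 : (pv t 0).1 = 1 := rfl
    simp only [det3, e1, e2, e3, p1] at d2
    have : ((p 6).2.1 - (p 0).2.1) * ((p 6).2.2 - (p 0).2.2) = 0 := by linarith
    rcases mul_eq_zero.mp this with h5 | h5
    · exact g1.x1 (by linarith)
    · exact g1.y1 (by linarith)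
  have key : ∀ a b c d : ℕ, Indep (p a) (p b) → det3 (p a) (p b) (p c) = 0 →
      det3 (p a) (p b) (p d) = 0 → det3 (p a) (p c) (p d) = 0 := by
    intro a b c d hab h1 h2
    exact det3_line hab (det3_self13 _ _) h1 h2
  have sw : ∀ a b c : V3, det3 a b c = 0 → det3 a c b = 0 ∧ det3 b a c = 0 ∧ det3 b c a = 0 ∧
      det3 c a b = 0 ∧ det3 c b a = 0 := by
    intro a b c h0
    simp only [det3] at h0 ⊢
    refine ⟨by linarith, by linarith, by linarith, by linarith, by linarith⟩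
  refine stageAB_sound (p := p) ?_ (fun s hs => (hpos s hs).det) ?_
  · intro n hn
    have := p1 n
    rw [hn] at this
    exact zero_ne_one this
  · have hval : ∀ u, ((6, 0, valv u) : Tri) ∈ stageBPos (stageA L) → ¬ DetZ p (valv u, 0, 3) := by
      intro u hu h0
      have g := hpos _ hu
      obtain ⟨-, -, i⟩ := ind _ hu
      simp only [DetZ] at h0 g i
      apply hD
      have := key 0 (valv u) 3 6 i (sw _ _ _ h0).2.1 (sw _ _ _ g.det).2.2.1
      exact this
    intro s hs h0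
    rcases List.mem_append.mp hs with hs | hs
    · simp only [baseNeg, List.mem_cons, List.not_mem_nil, or_false] at hs
      rcases hs with rfl | rfl | rfl | rfl | rfl
      · exact hD h0
      · simp only [DetZ] at h0
        apply hD
        have := key 6 1 3 0 i61 (sw _ _ _ h0).2.2.2.1 (sw _ _ _ g1.det).1
        exact (sw _ _ _ this).2.2.2.2
      · exact hval 0 m1 h0
      · simp only [DetZ] at h0
        apply hD
        have := key 6 9 0 3 i69 (sw _ _ _ h0).2.2.2.1 (sw _ _ _ g2.det).1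
        exact (sw _ _ _ this).2.2.1
      · simp only [DetZ] at h0
        apply hD
        have := key 3 9 0 6 i39 (sw _ _ _ h0).2.2.2.1 (sw _ _ _ g2.det).2.2.1
        exact (sw _ _ _ this).2.1
    · obtain ⟨g, hg, hs⟩ := List.mem_flatMap.mp hs
      obtain ⟨m, hm, rfl⟩ := List.getElem_of_mem hg
      have hmem : ((stageA L)[m], m) ∈ (stageA L).zipIdx := by
        rw [List.mem_zipIdx_iff_getElem?]; simp [hm]
      have hp3 : ∀ r ∈ gatePos (stageA L)[m] m, r ∈ stageBPos (stageA L) := fun r hr =>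
        List.mem_append_right _ (List.mem_flatMap.mpr ⟨_, hmem, hr⟩)
      simp only [gateNeg, List.mem_cons, List.not_mem_nil, or_false] at hs
      rcases hs with rfl | rfl | rfl
      · exact hval _ (hp3 _ (List.mem_append_left _ (by simp))) h0
      · exact hval _ (hp3 _ (List.mem_append_left _ (by simp))) h0
      · exact hval _ (hp3 _ (List.mem_append_left _ (by simp))) h0

end Pool.Agent.Work.MP_8aa36a_lc
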