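import Pool.Agent.Work.MP_8aa36a_lc.Four.Final

/-!
Faithful drawings of properly edge-coloured graphs with exactly four colours, in which every vertex
has degree four: the reduction from arithmetic gates and its correctness.
-/

set_option autoImplicit false

namespace Pool.Agent.Work.MP_8aa36a_lc

open Pool.Agent.Work.MP_8c8e41_lc

/-- the list of names of the gates of a list of source gates -/
def fourG (L : List SGate) : List (List ℕ) := fourGs (stageBPos (stageA L))

/-- the edge list of the output graph -/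
def fourE (L : List SGate) : List CEdge := gateE (fourG L) (fourB (fourG L))

/-- its number of vertices -/
def fourN (L : List SGate) : ℕ :=
  netM (gN (fourG L).length) (gL (fourG L).length (gUs (fourG L)) (fourB (fourG L)))

lemma fourG_ok (L : List SGate) : NetOK (gN (fourG L).length) (gR (fourG L).length)
    (gL (fourG L).length (gUs (fourG L)) (fourB (fourG L))) :=
  gateE_ok (gateNames_len _) (fourB_lt _)

theorem four_ends (L : List SGate) : ∀ e ∈ fourE L,
    e.1 < fourN L ∧ e.2.1 < fourN L ∧ e.1 ≠ e.2.1 := net_ends (fourG_ok L)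

theorem four_sep (L : List SGate) : (fourE L).Pairwise Sep := net_sep (fourG_ok L)

theorem four_proper (L : List SGate) : (fourE L).Pairwise Prop2 := net_proper (fourG_ok L)

theorem four_regular (L : List SGate) (v : ℕ) (hv : v < fourN L) :
    (fourE L).countP (fun e => EndOf v e) = 4 := net_regular (fourG_ok L) v hv

theorem four_col (L : List SGate) : ∀ e ∈ fourE L, e.2.2 < 4 := net_colour (fourG_ok L)

theorem points_complete {P : List Tri} {p : ℕ → V3} (hp0 : ∀ n, p n ≠ 0)
    (hpos : ∀ t ∈ P, DetZ p t ∧ Indep3 p t) (h036 : ¬ DetZ p (0, 3, 6)) (h136 : ¬ DetZ p (1, 3, 6))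
    (h103 : ¬ DetZ p (1, 0, 3)) (h601 : DetZ p (6, 0, 1)) :
    ∃ (t : ℕ → ℝ) (cl : ℕ → ℕ → V3), GSol (fourGs P) t cl := by
  classical
  simp only [DetZ] at h036 h136 h103 h601
  -- the new point
  have g1 : Gene fun η => ∀ s ∈ P.toFinset, ¬ (det3 (p s.1) (p s.2.1) (p 1) = 0 ∧
      det3 (p s.1) (p s.2.1) (p 3) = 0) →
      det3 (p s.1) (p s.2.1) (p 1) + η * det3 (p s.1) (p s.2.1) (p 3) ≠ 0 := by
    apply gene_finset
    intro s _
    by_cases h : det3 (p s.1) (p s.2.1) (p 1) = 0 ∧ det3 (p s.1) (p s.2.1) (p 3) = 0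
    · filter_upwards [gene_true] with η _ h0
      exact absurd h h0
    · filter_upwards [lin_gene h] with η hη _
      exact hη
  have g2 : Gene fun η => (0 : ℝ) + η * 1 ≠ 0 := lin_gene (by norm_num)
  obtain ⟨η, hη, hη0⟩ := (g1.and g2).exists
  have hη0 : η ≠ 0 := by simpa using hη0
  obtain ⟨H, hH⟩ : ∃ H : V3, H = p 1 + η • p 3 := ⟨_, rfl⟩
  have dH : ∀ a b : V3, det3 a b H = det3 a b (p 1) + η * det3 a b (p 3) := by
    intro a b
    rw [hH]
    simp only [det3, Prod.smul_fst, Prod.smul_snd, smul_eq_mul, Prod.fst_add, Prod.snd_add]; ring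
  have hD : det3 (p 0) (p 6) H ≠ 0 := by
    rw [dH]
    have e1 : det3 (p 0) (p 6) (p 1) = 0 := by rw [det3_swap12, h601, neg_zero]
    have e2 : det3 (p 0) (p 6) (p 3) = - det3 (p 0) (p 3) (p 6) := det3_swap23 _ _ _
    rw [e1, e2, zero_add]
    exact mul_ne_zero hη0 (neg_ne_zero.mpr h036)
  have i13 : Indep (p 1) (p 3) := ⟨p 6, h136⟩
  -- all points
  obtain ⟨X, hX⟩ : ∃ X : ℕ → V3, X = fun m => if m = 0 then H else p (m / 2 - 1) := ⟨_, rfl⟩
  have X0 : X 0 = H := by rw [hX]; rfl
  have Xo : ∀ v, X (2 * v + 2) = p v := by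
    intro v
    rw [hX]
    simp only
    rw [if_neg (by omega)]
    congr 1; omega
  have hH0 : H ≠ 0 := (ne_zero_of_det3 hD).2.2
  have hX0 : ∀ m, X m ≠ 0 := by
    intro m; rw [hX]; simp only
    split
    · exact hH0
    · exact hp0 _
  -- the triples
  have hTri : ∀ s ∈ triP P, (s.1 % 2 = 0 ∧ s.2.1 % 2 = 0 ∧ s.2.2 % 2 = 0) ∧
      (DetZ X s ∧ Indep3 X s) ∧
      ¬ (det3 (X s.1) (X s.2.1) (p 0) = 0 ∧ det3 (X s.1) (X s.2.1) H = 0) ∧
      ¬ (det3 (X s.1) (X s.2.1) (p 6) = 0 ∧ det3 (X s.1) (X s.2.1) H = 0) := by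
    intro s hs
    rcases List.mem_append.mp hs with hs | hs
    · obtain ⟨r, hr, rfl⟩ := List.mem_map.mp hs
      obtain ⟨r1, r2, r3, r4⟩ := hpos r hr
      refine ⟨⟨by simp only [ptT]; omega, by simp only [ptT]; omega, by simp only [ptT]; omega⟩,
        ⟨?_, ?_⟩, ?_⟩
      · simp only [DetZ, ptT, Xo]; exact r1
      · simp only [Indep3, ptT, Xo]; exact ⟨r2, r3, r4⟩
      · simp only [ptT, Xo]
        have h1 := hη r (List.mem_toFinset.mpr hr)
        have key : ∀ y, det3 (p r.1) (p r.2.1) y = 0 → det3 (p r.1) (p r.2.1) H = 0 →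
            det3 (p 1) (p 3) y = 0 := by
          intro y hy h0
          rw [dH] at h0
          have h2 : det3 (p r.1) (p r.2.1) (p 1) = 0 ∧ det3 (p r.1) (p r.2.1) (p 3) = 0 := by
            by_contra h3
            exact h1 h3 h0
          exact det3_line r2 h2.1 h2.2 hy
        constructor
        · rintro ⟨h2, h3⟩
          have := key _ h2 h3
          apply h103
          rw [det3_swap23, this, neg_zero]
        · rintro ⟨h2, h3⟩
          exact h136 (key _ h2 h3)
    · simp only [List.mem_cons, List.not_mem_nil, or_false] at hs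
      subst hs
      have e4 : X 4 = p 1 := Xo 1
      have e8 : X 8 = p 3 := Xo 3
      have n1 : det3 (p 1) (p 3) (p 0) ≠ 0 := by
        rw [det3_swap23]; exact neg_ne_zero.mpr h103
      refine ⟨⟨rfl, rfl, rfl⟩, ⟨?_, ?_, ?_, ?_⟩, ?_, ?_⟩
      · simp only [DetZ, e4, e8, X0, dH, det3_self13, det3_self23, mul_zero, add_zero]
      · simp only [e4, e8]; exact i13
      · simp only [e4, X0]
        refine ⟨p 6, ?_⟩
        rw [det3_swap23, dH, det3_self13]
        have : det3 (p 1) (p 6) (p 3) = - det3 (p 1) (p 3) (p 6) := det3_swap23 _ _ _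
        rw [this, zero_add]
        exact neg_ne_zero.mpr (mul_ne_zero hη0 (neg_ne_zero.mpr h136))
      · simp only [e8, X0]
        refine ⟨p 6, ?_⟩
        rw [det3_swap23, dH, det3_self13]
        have : det3 (p 3) (p 6) (p 1) = det3 (p 1) (p 3) (p 6) := by
          simp only [det3]; ring
        rw [this, mul_zero, add_zero]
        exact neg_ne_zero.mpr h136
      · simp only [e4, e8]
        rintro ⟨h2, -⟩
        exact n1 h2
      · simp only [e4, e8]
        rintro ⟨h2, -⟩
        exact h136 h2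
  -- functionals
  let V : Finset V3 := {p 0, p 6, H} ∪ (vars (triP P)).image X
  have hV : ∀ v ∈ V, v ≠ 0 := by
    intro v hv
    rcases Finset.mem_union.mp hv with hv | hv
    · simp only [Finset.mem_insert, Finset.mem_singleton] at hv
      rcases hv with rfl | rfl | rfl
      · exact hp0 _
      · exact hp0 _
      · exact hH0
    · obtain ⟨m, -, rfl⟩ := Finset.mem_image.mp hv
      exact hX0 m
  let W : Finset (V3 × V3) := (triP P).toFinset.image fun s => (X s.1, X s.2.1)
  have hW : ∀ w ∈ W, ¬ (det3 w.1 w.2 (p 0) = 0 ∧ det3 w.1 w.2 H = 0) ∧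
      ¬ (det3 w.1 w.2 (p 6) = 0 ∧ det3 w.1 w.2 H = 0) := by
    intro w hw
    obtain ⟨s, hs, rfl⟩ := Finset.mem_image.mp hw
    exact (hTri s (List.mem_toFinset.mp hs)).2.2
  obtain ⟨f, f1, f2, f3, f4, f5, f6⟩ := exists_functionals hD V hV W hW
  have mV : ∀ s ∈ triP P, ∀ c < 3, X (pt3 s c) ∈ V := by
    intro s hs c hc
    apply Finset.mem_union_right
    obtain ⟨m1, m2, m3⟩ := mem_vars hs
    interval_cases c
    · exact Finset.mem_image_of_mem _ m1
    · exact Finset.mem_image_of_mem _ m2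
    · exact Finset.mem_image_of_mem _ m3
  have n0 := f2 (p 0) (by simp [V]) 0 (by norm_num)
  have n6 := f2 (p 6) (by simp [V]) 0 (by norm_num)
  have nH := f2 H (by simp [V]) 0 (by norm_num)
  have e2 : X 2 = p 0 := Xo 0
  have e14 : X 14 = p 6 := Xo 6
  refine gsol_of_points (T := triP P) (X := X) (f := f) (fun s hs => (hTri s hs).1)
    (fun s hs => (hTri s hs).2.1) f1 ?_ ?_ ?_ ?_ ?_
  · intro s hs c hc q hq
    exact f2 _ (mV s hs c hc) q hq
  · intro s hs c hc
    exact f3 _ (mV s hs c hc)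
  · intro s hs
    exact f4 _ (Finset.mem_image.mpr ⟨s, List.mem_toFinset.mpr hs, rfl⟩)
  · rw [e2, X0, div_eq_div_iff n0 nH]; exact f5
  · rw [e14, X0, div_eq_div_iff n6 nH]; exact f6

/-- **Correctness of the reduction.** -/
theorem four_correct (L : List SGate) :
    (∃ x : ℕ → ℝ, ∀ g ∈ L, g.Holds x) ↔ ∃ d, FDraw (fourE L) d := by
  constructor
  · rintro ⟨x, hx⟩
    obtain ⟨p, h0, h1, h2⟩ := stageAB_complete hx
    have n : ∀ s ∈ baseNeg, ¬ DetZ p s := fun s hs => h2 s (List.mem_append_left _ hs)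
    have m : ((6, 0, 1) : Tri) ∈ stageBPos (stageA L) := List.mem_append_left _ (by simp [basePos])
    obtain ⟨t, cl, hG⟩ := points_complete h0 h1 (n _ (by simp [baseNeg])) (n _ (by simp [baseNeg]))
      (n _ (by simp [baseNeg])) (h1 _ m).1
    obtain ⟨g, hg⟩ := gate_complete (B := fourB (fourG L)) (gateNames_len _) (fourB_lt _) hG
    exact vdraw_to_fdraw (net_good (fourG_ok L)) hg
  · rintro ⟨d, hd⟩
    obtain ⟨g, hg⟩ := fdraw_to_vdraw (net_good (fourG_ok L)) (net_frame (fourG_ok L)) hd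
    obtain ⟨t, ht⟩ := gate_sound (gateNames_len _) (fourB_lt _) hg
    exact points_sound (good3_triples (good3_gates ht))

end Pool.Agent.Work.MP_8aa36a_lc
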