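import Pool.Agent.Work.MP_8aa36a_lc.Valid

/-!
Vector drawings of graphs with four colours, and faithful drawings.
-/

set_option autoImplicit false

namespace Pool.Agent.Work.MP_8aa36a_lc

open Pool.Agent.Work.MP_8c8e41_lc

/-- a coordinate of a vector -/
def co (c : ℕ) (v : V3) : ℝ := if c = 0 then v.1 else if c = 1 then v.2.1 else v.2.2

@[simp] lemma co_zero (v : V3) : co 0 v = v.1 := rfl
@[simp] lemma co_one (v : V3) : co 1 v = v.2.1 := rfl
@[simp] lemma co_two (v : V3) : co 2 v = v.2.2 := rfl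

/-- sum of the coordinates -/
def sum3 (v : V3) : ℝ := v.1 + v.2.1 + v.2.2

/-- proportional vectors (for vectors with sum zero) -/
def Par (u v : V3) : Prop := u.1 * v.2.1 = u.2.1 * v.1

/-- vector drawings -/
structure VDraw (E : List CEdge) (g : ℕ → V3) : Prop where
  sum : ∀ e ∈ E, sum3 (g e.1) = 0 ∧ sum3 (g e.2.1) = 0
  nz : ∀ e ∈ E, ∀ c < 3, co c (g e.1) ≠ 0 ∧ co c (g e.2.1) ≠ 0
  inc : ∀ e ∈ E, (e.2.2 < 3 → co e.2.2 (g e.1) = co e.2.2 (g e.2.1)) ∧
    (e.2.2 = 3 → Par (g e.1) (g e.2.1))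
  sep : ∀ e ∈ E, ∀ f ∈ E, e ≠ f → e.2.2 = f.2.2 →
    (e.2.2 < 3 → co e.2.2 (g e.1) ≠ co e.2.2 (g f.1)) ∧ (e.2.2 = 3 → ¬ Par (g e.1) (g f.1))

/-- the combinatorial conditions on the coloured graph -/
structure GoodG (E : List CEdge) (M : ℕ) : Prop where
  ends : ∀ e ∈ E, e.1 < M ∧ e.2.1 < M ∧ e.1 ≠ e.2.1 ∧ e.2.2 < 4
  simp : ∀ e ∈ E, ∀ f ∈ E, e ≠ f → Sep e f
  has : ∀ u < M, ∀ c < 4, ∃ e ∈ E, EndOf u e ∧ e.2.2 = c

/-! ### linear algebra -/

lemma in_span {a b x : V3} (h : Indep a b) (hx : det3 a b x = 0) : ∃ s t : ℝ, x = s • a + t • b := by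
  obtain ⟨r, hr⟩ := h
  obtain ⟨s, t, w, hp, -, -, hw⟩ := exists_coords hr x
  have : w = 0 := by
    rw [hx] at hw; exact (mul_eq_zero.mp hw).resolve_right hr
  subst this
  exact ⟨s, t, by rw [hp, zero_smul, add_zero]⟩

lemma det3_span {a b : V3} (s1 t1 s2 t2 s3 t3 : ℝ) :
    det3 (s1 • a + t1 • b) (s2 • a + t2 • b) (s3 • a + t3 • b) = 0 := by
  simp only [det3, Prod.smul_fst, Prod.smul_snd, smul_eq_mul, Prod.fst_add, Prod.snd_add]
  ring

/-- all points of a line through two different points -/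
lemma det3_line {a b x y z : V3} (h : Indep a b) (hx : det3 a b x = 0) (hy : det3 a b y = 0)
    (hz : det3 a b z = 0) : det3 x y z = 0 := by
  obtain ⟨s1, t1, h1⟩ := in_span h hx
  obtain ⟨s2, t2, h2⟩ := in_span h hy
  obtain ⟨s3, t3, h3⟩ := in_span h hz
  rw [h1, h2, h3]
  exact det3_span _ _ _ _ _ _

lemma det3_line' {a b x y z : V3} (h : Indep a b) (hxy : Indep x y) (hx : det3 a b x = 0)
    (hy : det3 a b y = 0) (hz : det3 x y z = 0) : det3 a b z = 0 := by
  obtain ⟨s1, t1, h1⟩ := in_span h hx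
  obtain ⟨s2, t2, h2⟩ := in_span h hy
  obtain ⟨s3, t3, h3⟩ := in_span hxy hz
  rw [h3, h1, h2]
  simp only [det3, Prod.smul_fst, Prod.smul_snd, smul_eq_mul, Prod.fst_add, Prod.snd_add]
  ring

/-! ### from vector drawings to faithful drawings -/

/-- homogeneous point of a vector -/
def hpt (v : V3) : V3 := (v.1, v.2.1, 1)

/-- the four centres -/
def ctr (c : ℕ) : V3 :=
  if c = 0 then (0, 1, 0) else if c = 1 then (1, 0, 0) else if c = 2 then (1, -1, 0) else (0, 0, 1)

lemma hpt_indep {u v : V3} (h : ¬ (u.1 = v.1 ∧ u.2.1 = v.2.1)) : Indep (hpt u) (hpt v) := by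
  by_cases h1 : u.1 = v.1
  · have h2 : u.2.1 ≠ v.2.1 := fun h2 => h ⟨h1, h2⟩
    refine indep_yz ?_
    simp only [hpt]
    intro h0; apply h2; linarith
  · refine indep_xz ?_
    simp only [hpt]
    intro h0; apply h1; linarith

lemma inc_det {E : List CEdge} {g : ℕ → V3} (h : VDraw E g) {e : CEdge} (he : e ∈ E)
    (hc : e.2.2 < 4) : det3 (hpt (g e.1)) (hpt (g e.2.1)) (ctr e.2.2) = 0 := by
  obtain ⟨h1, h2⟩ := h.inc e he
  obtain ⟨s1, s2⟩ := h.sum e he
  simp only [sum3] at s1 s2
  generalize e.2.2 = c at *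
  interval_cases c
  · have := h1 (by norm_num)
    simp only [co_zero] at this
    simp only [det3, hpt, ctr, if_true]
    linarith
  · have := h1 (by norm_num)
    simp only [co_one] at this
    simp only [det3, hpt, ctr, if_true, one_ne_zero, if_false]
    linarith
  · have := h1 (by norm_num)
    simp only [co_two] at this
    simp [det3, hpt, ctr]
    linarith
  · have := h2 rfl
    simp only [Par] at this
    simp [det3, hpt, ctr]
    linarith

theorem vdraw_to_fdraw {E : List CEdge} {M : ℕ} {g : ℕ → V3} (hE : GoodG E M) (h : VDraw E g) :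
    ∃ p, FDraw E p := by
  have val : ∀ c < 3, ∀ e ∈ E, e.2.2 = c → ∀ u, EndOf u e → co c (g u) = co c (g e.1) := by
    rintro c hc e he rfl u (rfl | rfl)
    · rfl
    · exact ((h.inc e he).1 hc).symm
  have inj : ∀ u < M, ∀ v < M, (g u).1 = (g v).1 → (g u).2.1 = (g v).2.1 → u = v := by
    intro u hu v hv h1 h2
    obtain ⟨e, he, heu, hec⟩ := hE.has u hu 0 (by norm_num)
    obtain ⟨f, hf, hfv, hfc⟩ := hE.has v hv 0 (by norm_num)
    obtain ⟨e', he', heu', hec'⟩ := hE.has u hu 1 (by norm_num)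
    obtain ⟨f', hf', hfv', hfc'⟩ := hE.has v hv 1 (by norm_num)
    have hef : e = f := by
      by_contra hne
      apply (h.sep e he f hf hne (by rw [hec, hfc])).1 (by rw [hec]; norm_num)
      rw [hec, ← val 0 (by norm_num) e he hec u heu, ← val 0 (by norm_num) f hf hfc v hfv]
      exact h1
    have hef' : e' = f' := by
      by_contra hne
      apply (h.sep e' he' f' hf' hne (by rw [hec', hfc'])).1 (by rw [hec']; norm_num)
      rw [hec', ← val 1 (by norm_num) e' he' hec' u heu', ← val 1 (by norm_num) f' hf' hfc' v hfv']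
      exact h2
    subst hef hef'
    by_contra huv
    have hne : e ≠ e' := by
      rintro rfl; rw [hec] at hec'; exact absurd hec' (by norm_num)
    apply hE.simp e he e' he' hne
    unfold EndOf at *
    omega
  have other : ∀ u < M, ∀ c < 4, ∃ w < M, w ≠ u ∧ ∃ e ∈ E, EndOf u e ∧ EndOf w e ∧ e.2.2 = c := by
    intro u hu c hc
    obtain ⟨e, he, heu, hec⟩ := hE.has u hu c hc
    obtain ⟨a1, a2, a3, -⟩ := hE.ends e he
    rcases heu with heu | heu
    · exact ⟨e.2.1, a2, by rw [← heu]; exact a3.symm, e, he, Or.inl heu, Or.inr rfl, hec⟩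
    · exact ⟨e.1, a1, by rw [← heu]; exact a3, e, he, Or.inr heu, Or.inl rfl, hec⟩
  have hind : ∀ u < M, ∀ v < M, u ≠ v → Indep (hpt (g u)) (hpt (g v)) := by
    intro u hu v hv huv
    apply hpt_indep
    rintro ⟨h1, h2⟩
    exact huv (inj u hu v hv h1 h2)
  have nzu : ∀ u < M, ∀ c < 3, co c (g u) ≠ 0 := by
    intro u hu c hc
    obtain ⟨e, he, heu, -⟩ := hE.has u hu 0 (by norm_num)
    rcases heu with rfl | rfl
    · exact (h.nz e he c hc).1
    · exact (h.nz e he c hc).2
  have sumu : ∀ u < M, sum3 (g u) = 0 := by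
    intro u hu
    obtain ⟨e, he, heu, -⟩ := hE.has u hu 0 (by norm_num)
    rcases heu with rfl | rfl
    · exact (h.sum e he).1
    · exact (h.sum e he).2
  have hcc : ∀ u < M, ∀ c < 4, ∀ d < 4, c ≠ d → det3 (hpt (g u)) (ctr c) (ctr d) ≠ 0 := by
    intro u hu c hc d hd hcd
    have x0 := nzu u hu 0 (by norm_num)
    have x1 := nzu u hu 1 (by norm_num)
    have x2 := nzu u hu 2 (by norm_num)
    have hs := sumu u hu
    simp only [co_zero, co_one, co_two, sum3] at x0 x1 x2 hs
    have x3 : (g u).1 + (g u).2.1 ≠ 0 := by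
      intro h0; apply x2; linarith
    interval_cases c <;> interval_cases d <;> simp [det3, hpt, ctr] at hcd ⊢
    all_goals first
      | assumption
      | (intro h0; first | (apply x3; linarith) | (apply x0; linarith) | (apply x1; linarith))
  apply draw_transfer (M := M) (q := fun n => hpt (g n)) (Q := ctr)
  · intro e he
    exact ⟨(hE.ends e he).1, (hE.ends e he).2.1⟩
  · intro n _ h0
    have : (1 : ℝ) = 0 := congrArg (fun a : V3 => a.2.2) h0
    exact one_ne_zero this
  · intro e _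
    simp only [ctr]
    repeat' split
    all_goals simp [Prod.ext_iff]
  · intro u hu v hv huv
    by_cases h1 : (g u).1 = (g v).1
    · obtain ⟨w, hw, hwu, e, he, heu, hew, hec⟩ := other u hu 1 (by norm_num)
      refine ⟨w, hw, ?_⟩
      have e1 : (g u).2.1 = (g w).2.1 := by
        have a1 := val 1 (by norm_num) e he hec u heu
        have a2 := val 1 (by norm_num) e he hec w hew
        simp only [co_one] at a1 a2
        rw [a1, a2]
      have e2 : (g u).1 ≠ (g w).1 := fun h0 => hwu (inj u hu w hw h0 e1).symm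
      have e3 : (g u).2.1 ≠ (g v).2.1 := fun h0 => huv (inj u hu v hv h1 h0)
      have : det3 (hpt (g u)) (hpt (g v)) (hpt (g w)) =
          ((g u).2.1 - (g v).2.1) * ((g w).1 - (g u).1) := by
        simp only [det3, hpt]
        rw [← e1, ← h1]; ring
      rw [this]
      exact mul_ne_zero (sub_ne_zero.mpr e3) (sub_ne_zero.mpr e2.symm)
    · obtain ⟨w, hw, hwu, e, he, heu, hew, hec⟩ := other u hu 0 (by norm_num)
      refine ⟨w, hw, ?_⟩
      have e1 : (g u).1 = (g w).1 := by
        have a1 := val 0 (by norm_num) e he hec u heu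
        have a2 := val 0 (by norm_num) e he hec w hew
        simp only [co_zero] at a1 a2
        rw [a1, a2]
      have e2 : (g u).2.1 ≠ (g w).2.1 := fun h0 => hwu (inj u hu w hw e1 h0).symm
      have : det3 (hpt (g u)) (hpt (g v)) (hpt (g w)) =
          ((g u).1 - (g v).1) * ((g u).2.1 - (g w).2.1) := by
        simp only [det3, hpt]
        rw [← e1]; ring
      rw [this]
      exact mul_ne_zero (sub_ne_zero.mpr h1) (sub_ne_zero.mpr e2)
  · intro e he
    exact (hE.ends e he).2.2.1
  · intro e he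
    exact inc_det h he (hE.ends e he).2.2.2
  · intro e he f hf hef
    obtain ⟨a1, a2, a3, a4⟩ := hE.ends e he
    obtain ⟨b1, b2, b3, b4⟩ := hE.ends f hf
    by_contra hcon
    push Not at hcon
    obtain ⟨c1, c2, -, -⟩ := hcon
    have iE := hind _ a1 _ a2 a3
    have iF := hind _ b1 _ b2 b3
    have dE := inc_det h he a4
    have dF := inc_det h hf b4
    have dF' : det3 (hpt (g e.1)) (hpt (g e.2.1)) (ctr f.2.2) = 0 := det3_line' iE iF c1 c2 dF
    by_cases hc : e.2.2 = f.2.2
    · by_cases h3 : e.2.2 < 3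
      · have hv := (h.sep e he f hf hef hc).1 h3
        have hd : det3 (hpt (g e.1)) (hpt (g f.1)) (ctr e.2.2) = 0 :=
          det3_line iE (by rw [det3_self13]) c1 dE
        have s1 := sumu _ a1
        have s2 := sumu _ b1
        simp only [sum3] at s1 s2
        apply hv
        generalize e.2.2 = c at *
        interval_cases c <;> simp [det3, hpt, ctr] at hd ⊢ <;> linarith
      · have h4 : e.2.2 = 3 := by omega
        have hv := (h.sep e he f hf hef hc).2 h4
        have hd : det3 (hpt (g e.1)) (hpt (g f.1)) (ctr e.2.2) = 0 :=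
          det3_line iE (by rw [det3_self13]) c1 dE
        apply hv
        rw [h4] at hd
        simp [det3, hpt, ctr] at hd
        simp only [Par]; linarith
    · exact hcc _ a1 _ a4 _ b4 hc (det3_line iE (by rw [det3_self13]) dE dF')

end Pool.Agent.Work.MP_8aa36a_lc
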